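import Pool.Agent.Helper96.QT.Def

/-!
Definitions of the QTL blocks (the Liouville side).
-/

namespace Pool.Agent.QT

open Real Filter Topology MeasureTheory Set DirichletCharacter

/-- `z L(1 + 2z, chi_0)` with `chi_0` the principal character mod `q` (entire; value `1/2 prod (1 - 1/p)` at `z = 0`). -/
noncomputable def EE (q : ℕ) [NeZero q] (z : ℂ) : ℂ := LFunctionTrivChar₁ q (1 + 2 * z) / 2

/-- `L(1 + 2z, chi_0) / ((1/2 + z) L(1/2 + z, chi))` -/
noncomputable def ZZ {q : ℕ} [NeZero q] (χ : DirichletCharacter ℂ q) (z : ℂ) : ℂ :=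
  EE q z / (z * ((1 / 2 + z) * LFunction χ (1 / 2 + z)))

/-- The Liouville function. -/
def lam (n : ℕ) : ℤ := (-1) ^ ArithmeticFunction.cardFactors n

/-- `a n = chi(n) mu(n)` and `l n = chi(n) lambda(n)` -/
structure DatL {q : ℕ} [NeZero q] (χ : DirichletCharacter ℂ q) (a l : ℕ → ℝ) : Prop where
  dat : Dat χ a
  eql : ∀ n : ℕ, (l n : ℂ) = χ n * ((lam n : ℤ) : ℂ)

/-- The one sided hypothesis for the sums of `l`. -/
structure HypL {q : ℕ} [NeZero q] (χ : DirichletCharacter ℂ q) (a l : ℕ → ℝ) (σ C : ℝ) : Prop where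
  dat : DatL χ a l
  sg : σ = 1 ∨ σ = -1
  zf : σ = -1 → ∀ β : ℝ, 1 / 2 ≤ β → β < 1 → LFunction χ β ≠ 0
  bd : ∃ t₁ : ℝ, ∀ t : ℝ, t₁ ≤ t → σ * FF l t ≤ C

/-- The Gamma factors, the Gaussian and `z zeta(1 + 2z)`. -/
noncomputable def SZ (ev : Bool) (d : ℝ) (z : ℂ) : ℂ := SS ev d z * (LFunctionTrivChar₁ 1 (1 + 2 * z) / 2)

/-- The completely multiplicative model: the primes of `T` have sign `-1`, the other primes have sign `1`. -/
noncomputable def CM (T : Finset ℕ) (n : ℕ) : ℝ :=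
  ∏ p ∈ n.primeFactors, (if p ∈ T then (-1 : ℝ) else 1) ^ n.factorization p

end Pool.Agent.QT
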