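import Pool.Agent.Helper96.QT.GL

/-!
Definitions of the QT blocks.
-/

namespace Pool.Agent.QT

open Real Filter Topology MeasureTheory Set DirichletCharacter

/-- The summatory function of a real sequence. -/
noncomputable def mS (a : ℕ → ℝ) (x : ℝ) : ℝ := ∑ n ∈ Finset.Icc 1 ⌊x⌋₊, a n

/-- `e^{-t/2} m(e^t)` for `t ≥ 0`, zero for `t < 0`. -/
noncomputable def FF (a : ℕ → ℝ) (t : ℝ) : ℝ := if 0 ≤ t then Real.exp (-(t / 2)) * mS a (Real.exp t) else 0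

/-- `1 / ((1/2 + z) L(1/2 + z, chi))` -/
noncomputable def GG {q : ℕ} [NeZero q] (χ : DirichletCharacter ℂ q) (z : ℂ) : ℂ :=
  1 / ((1 / 2 + z) * LFunction χ (1 / 2 + z))

/-- `chi` is a primitive real character, not principal, and `a n = chi(n) mu(n)`. -/
structure Dat {q : ℕ} [NeZero q] (χ : DirichletCharacter ℂ q) (a : ℕ → ℝ) : Prop where
  prim : χ.IsPrimitive
  sq : χ ^ 2 = 1
  ne : χ ≠ 1
  eq : ∀ n : ℕ, (a n : ℂ) = χ n * ((ArithmeticFunction.moebius n : ℤ) : ℂ)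

/-- The one sided hypothesis: `σ M(x) ≤ C √x` for large `x`. -/
structure Hyp {q : ℕ} [NeZero q] (χ : DirichletCharacter ℂ q) (a : ℕ → ℝ) (σ C : ℝ) : Prop where
  dat : Dat χ a
  sg : σ = 1 ∨ σ = -1
  zf : σ = -1 → ∀ β : ℝ, 1 / 2 ≤ β → β < 1 → LFunction χ β ≠ 0
  bd : ∃ t₁ : ℝ, ∀ t : ℝ, t₁ ≤ t → σ * FF a t ≤ C

/-- The Gaussian kernel. -/
noncomputable def gk (d y : ℝ) : ℝ := (d * Real.sqrt (2 * π))⁻¹ * Real.exp (-(y ^ 2 / (2 * d ^ 2)))

/-- Gaussian mean -/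
noncomputable def bb (d : ℝ) (F : ℝ → ℝ) (u : ℝ) : ℝ := ∫ t : ℝ, F t * gk d (u - t)

/-- the dual side -/
noncomputable def DD (h : ℝ → ℂ) (Λ : ℝ) (F : ℝ → ℝ) (u : ℝ) : ℂ := ∫ t : ℝ, (F t : ℂ) * h (u + t + Λ)

/-- The Gamma factors with the Gaussian (`w = 1/2 + z`); `ev` says that `chi` is even. -/
noncomputable def SS (ev : Bool) (d : ℝ) (z : ℂ) : ℂ :=
  Complex.exp ((d : ℂ) ^ 2 * z ^ 2 / 2) *
    (if ev = true then 2 * π * Complex.Gammaℝ (5 / 2 + z) * (1 / 2 - z) * (Complex.Gammaℝ (1 / 2 - z))⁻¹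
      else (1 / 2 + z) * Complex.Gammaℝ (3 / 2 + z) * (1 / 2 - z) * (Complex.Gammaℝ (3 / 2 - z))⁻¹)

/-- The primes up to `X`. -/
def PX (X : ℕ) : Finset ℕ := (Finset.Icc 1 X).filter Nat.Prime

/-- The squarefree model: the primes of `T` have sign `-1`, the other primes have sign `1`. -/
noncomputable def PM (T : Finset ℕ) (n : ℕ) : ℝ :=
  if Squarefree n then ∏ p ∈ n.primeFactors, (if p ∈ T then (-1 : ℝ) else 1) else 0

/-- The pattern of the prime `q`: the primes `p ≤ X` with `(p/q) = 1`. -/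
def pat (X q : ℕ) : Finset ℕ := (PX X).filter fun p => jacobiSym p q = 1

end Pool.Agent.QT
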