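import Pool.Agent.H62.Rec
import Pool.Agent.H62.FejAB

/-!
Block QT1.  The general lemma: two functions `b`, `D` on the line, integrable against `1 / (1 + u^2)`, whose Laplace transforms
on the two sides of the imaginary axis are `W` and `- W`, `W = N / L(1/2 + z, chi)` with simple poles: then `re (b + D)` is
bounded by the upper limit of `re b` at `+ infinity` (if `D` tends to `0` there).
-/

namespace Pool.Agent.QT

open Real Filter Topology MeasureTheory Set DirichletCharacter Pool.Agent.H62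

/-- the Fejer kernel is at most a constant times `1 / (1 + u^2)` -/
private lemma fej_le_inv_sq {T : ℝ} (hT : 0 < T) (t : ℝ) : ∃ c : ℝ, 0 ≤ c ∧ ∀ u : ℝ, fej T (t - u) ≤ c * (1 + u ^ 2)⁻¹ := by
  refine ⟨(4 * T + 8 / T) * (2 * (1 + t ^ 2)), by positivity, fun u => ?_⟩
  have h1 := fej_le_pow hT (t - u)
  have hp : 0 < 1 + |t - u| := by positivity
  rw [Real.rpow_neg hp.le, Real.rpow_two] at h1
  refine h1.trans ?_
  rw [mul_assoc]
  refine mul_le_mul_of_nonneg_left ?_ (by positivity)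
  rw [← div_eq_mul_inv, le_div_iff₀ (by positivity), ← div_eq_inv_mul, div_le_iff₀ (by positivity)]
  have h2 : u = t - (t - u) := by ring
  have h3 : u ^ 2 ≤ 2 * t ^ 2 + 2 * (t - u) ^ 2 := by nlinarith [sq_nonneg (t + (t - u))]
  have h4 : 1 + (t - u) ^ 2 ≤ (1 + |t - u|) ^ 2 := by
    rw [← sq_abs (t - u)]
    nlinarith [abs_nonneg (t - u)]
  have h5 : 1 ≤ (1 + |t - u|) ^ 2 := one_le_pow₀ (by linarith [abs_nonneg (t - u)])
  nlinarith [sq_nonneg t, mul_nonneg (sq_nonneg t) (sub_nonneg.2 h5)]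

private lemma fej_intg {g : ℝ → ℂ} (hg : Continuous g) (hi : Integrable (fun u : ℝ => g u * (((1 + u ^ 2)⁻¹ : ℝ) : ℂ)))
    {T : ℝ} (hT : 0 < T) (t : ℝ) : Integrable (fun u : ℝ => (fej T (t - u) : ℂ) * g u) := by
  obtain ⟨c, hc, hc1⟩ := fej_le_inv_sq hT t
  refine (hi.norm.const_mul c).mono' ?_ (ae_of_all _ fun u => ?_)
  · have := continuous_fej hT
    exact Continuous.aestronglyMeasurable (by fun_prop)
  · have hp : 0 ≤ (1 + u ^ 2)⁻¹ := by positivity
    rw [norm_mul, norm_mul, Complex.norm_real, Complex.norm_real, Real.norm_eq_abs, Real.norm_eq_abs,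
      abs_of_nonneg (fej_nonneg hT _), abs_of_nonneg hp]
    calc fej T (t - u) * ‖g u‖ ≤ (c * (1 + u ^ 2)⁻¹) * ‖g u‖ := by gcongr; exact hc1 u
      _ = _ := by ring

private lemma fej_tendsto {g : ℝ → ℂ} (hg : Continuous g)
    (hi : Integrable (fun u : ℝ => g u * (((1 + u ^ 2)⁻¹ : ℝ) : ℂ)))
    (h0 : Integrable (fun u : ℝ => Complex.exp (-((1 / 8 : ℝ) : ℂ) * u) * g u)) {T : ℝ} (hT : 0 < T) (t : ℝ) :
    Tendsto (fun δ : ℝ => ∫ u : ℝ, (fej T (t - u) : ℂ) * (Complex.exp (-δ * u) * g u))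
      (𝓝[>] 0) (𝓝 (∫ u : ℝ, (fej T (t - u) : ℂ) * g u)) := by
  have hev : ∀ᶠ δ : ℝ in 𝓝[>] 0, 0 < δ ∧ δ ≤ 1 / 8 := by
    have h1 : ∀ᶠ δ : ℝ in 𝓝[>] 0, δ ∈ Ioo (0:ℝ) (1 / 8) := Ioo_mem_nhdsGT (by norm_num)
    filter_upwards [h1] with δ hδ
    exact ⟨hδ.1, hδ.2.le⟩
  apply tendsto_integral_filter_of_dominated_convergence
    (fun u => ‖(fej T (t - u) : ℂ) * g u‖ + T * ‖Complex.exp (-((1 / 8 : ℝ) : ℂ) * u) * g u‖)
  · filter_upwards with δ
    have := continuous_fej hT
    exact Continuous.aestronglyMeasurable (by fun_prop)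
  · filter_upwards [hev] with δ hδ
    refine ae_of_all _ fun u => ?_
    rw [norm_mul, norm_mul, norm_mul, norm_mul, Complex.norm_real, Real.norm_eq_abs, abs_of_nonneg (fej_nonneg hT _),
      Complex.norm_exp, Complex.norm_exp]
    have hre : ∀ x : ℝ, (-(x:ℂ) * u).re = -x * u := by
      intro x
      rw [← Complex.ofReal_neg, ← Complex.ofReal_mul, Complex.ofReal_re]
    rw [hre, hre]
    have hf := fej_nonneg hT (t - u)
    have hf' := fej_le_T hT (t - u)
    have hg0 := norm_nonneg (g u)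
    rcases le_or_gt 0 u with hu | hu
    · have e1 : Real.exp (-δ * u) ≤ 1 := by rw [Real.exp_le_one_iff]; nlinarith
      have : fej T (t - u) * (Real.exp (-δ * u) * ‖g u‖) ≤ fej T (t - u) * (1 * ‖g u‖) := by gcongr
      have h2 : 0 ≤ T * (Real.exp (-(1 / 8) * u) * ‖g u‖) := by positivity
      linarith
    · have e1 : Real.exp (-δ * u) ≤ Real.exp (-(1 / 8) * u) := by
        apply Real.exp_le_exp.mpr
        nlinarith
      have : fej T (t - u) * (Real.exp (-δ * u) * ‖g u‖) ≤ T * (Real.exp (-(1 / 8) * u) * ‖g u‖) := by gcongr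
      have h2 : 0 ≤ fej T (t - u) * ‖g u‖ := by positivity
      linarith
  · exact (fej_intg hg hi hT t).norm.add (h0.norm.const_mul T)
  · refine ae_of_all _ fun u => ?_
    refine tendsto_const_nhds.mul ?_
    have : Tendsto (fun δ : ℝ => Complex.exp (-(δ:ℂ) * u) * g u) (𝓝 0)
        (𝓝 (Complex.exp (-((0:ℝ):ℂ) * u) * g u)) := by
      apply Continuous.tendsto
      fun_prop
    simp only [Complex.ofReal_zero, neg_zero, zero_mul, Complex.exp_zero, one_mul] at this
    exact this.mono_left nhdsWithin_le_nhds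

private lemma fej_reflect (f : ℝ → ℂ) (T t : ℝ) : (∫ u : ℝ, (fej T (t - u) : ℂ) * f u) =
    ∫ u : ℝ, (fej T (-t - u) : ℂ) * f (-u) := by
  rw [← integral_neg_eq_self]
  congr 1
  ext u
  congr 2
  rw [← fej_neg]; congr 1; ring

/-- For fixed `δ`: the two Fejer convolutions in terms of `W`. -/
private lemma aux_eq {W : ℂ → ℂ} {b D : ℝ → ℂ} {δ : ℝ} (h1 : 0 < δ) (h2 : δ < 1 / 4)
    (hi : Integrable (fun u : ℝ => Complex.exp (-δ * u) * b u))
    (hi' : Integrable (fun u : ℝ => Complex.exp (-δ * u) * D (-u))) (hWm : Measurable W)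
    (Lb : ∀ z : ℂ, 0 < z.re → z.re < 1 / 4 → ∫ t : ℝ, Complex.exp (-z * t) * b t = W z)
    (LD : ∀ z : ℂ, -(1 / 4) < z.re → z.re < 0 → ∫ t : ℝ, Complex.exp (-z * t) * D t = -W z)
    {T : ℝ} (hT : 0 < T) (t : ℝ) :
    Integrable (fun τ : ℝ => (tri T τ : ℂ) * Complex.exp (Complex.I * τ * t) *
        (W (δ + Complex.I * τ) - W (-δ + Complex.I * τ))) ∧
    (∫ u : ℝ, (fej T (t - u) : ℂ) * (Complex.exp (-δ * u) * b u)) +
      (∫ u : ℝ, (fej T (-t - u) : ℂ) * (Complex.exp (-δ * u) * D (-u))) =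
      (1 / 2) * ∫ τ : ℝ, (tri T τ : ℂ) * Complex.exp (Complex.I * τ * t) *
        (W (δ + Complex.I * τ) - W (-δ + Complex.I * τ)) := by
  have e1 := fej_conv hT t b δ hi
  have e2 := fej_conv hT (-t) (fun u => D (-u)) δ hi'
  have hW1 : ∀ τ : ℝ, (∫ u : ℝ, Complex.exp (-(δ + Complex.I * τ) * u) * b u) = W (δ + Complex.I * τ) := by
    intro τ
    exact Lb _ (by simpa using h1) (by simpa using h2)
  have hW2 : ∀ τ : ℝ, (∫ u : ℝ, Complex.exp (-(δ + Complex.I * τ) * u) * D (-u)) =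
      -W (-δ + Complex.I * (-τ : ℝ)) := by
    intro τ
    rw [← LD (-δ + Complex.I * (-τ : ℝ)) (by simpa using h2) (by simpa using h1),
      ← integral_neg_eq_self]
    congr 1
    ext u
    rw [neg_neg]
    congr 2
    push_cast
    ring
  have hI1 : Integrable (fun τ : ℝ => (tri T τ : ℂ) * Complex.exp (Complex.I * τ * t) *
      W (δ + Complex.I * τ)) := by
    have hb1 : Integrable (fun τ : ℝ => ((tri T τ : ℝ) : ℂ)) := (integrable_tri hT).ofReal
    have hmeas : Measurable (fun τ : ℝ => Complex.exp (Complex.I * τ * t) *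
        W (δ + Complex.I * τ)) :=
      (show Measurable (fun τ : ℝ => Complex.exp (Complex.I * τ * t)) by fun_prop).mul
        (hWm.comp (show Measurable (fun τ : ℝ => (δ : ℂ) + Complex.I * τ) by fun_prop))
    have := hb1.mul_bdd (c := ∫ u : ℝ, ‖Complex.exp (-δ * u) * b u‖)
      hmeas.aestronglyMeasurable (ae_of_all _ fun τ => by
        rw [norm_mul, norm_exp_I_mul, one_mul, ← hW1]
        exact norm_laplace_le δ τ)
    refine this.congr (ae_of_all _ fun τ => ?_)
    simp only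
    ring
  have hI2 : Integrable (fun τ : ℝ => (tri T τ : ℂ) * Complex.exp (Complex.I * τ * t) *
      W (-δ + Complex.I * τ)) := by
    have hb1 : Integrable (fun τ : ℝ => ((tri T τ : ℝ) : ℂ)) := (integrable_tri hT).ofReal
    have hmeas : Measurable (fun τ : ℝ => Complex.exp (Complex.I * τ * t) *
        W (-δ + Complex.I * τ)) :=
      (show Measurable (fun τ : ℝ => Complex.exp (Complex.I * τ * t)) by fun_prop).mul
        (hWm.comp (show Measurable (fun τ : ℝ => -(δ : ℂ) + Complex.I * τ) by fun_prop))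
    have := hb1.mul_bdd (c := ∫ u : ℝ, ‖Complex.exp (-δ * u) * D (-u)‖)
      hmeas.aestronglyMeasurable (ae_of_all _ fun τ => by
        have h5 := hW2 (-τ)
        rw [neg_neg] at h5
        rw [norm_mul, norm_exp_I_mul, one_mul, ← norm_neg, ← h5]
        exact norm_laplace_le δ (-τ))
    refine this.congr (ae_of_all _ fun τ => ?_)
    simp only
    ring
  constructor
  · refine (hI1.sub hI2).congr (ae_of_all _ fun τ => ?_)
    simp only [Pi.sub_apply]
    ring
  · rw [e1, e2]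
    simp_rw [hW1]
    have e4 : ((1 / 2) * ∫ τ : ℝ, (tri T τ : ℂ) *
        Complex.exp (Complex.I * τ * ((-t : ℝ) : ℂ)) *
          ∫ u : ℝ, Complex.exp (-(δ + Complex.I * τ) * u) * D (-u)) =
        -((1 / 2) * ∫ τ : ℝ, (tri T τ : ℂ) * Complex.exp (Complex.I * τ * t) *
          W (-δ + Complex.I * τ)) := by
      rw [← mul_neg, ← integral_neg]
      congr 1
      rw [← integral_neg_eq_self]
      congr 1
      ext τ
      have := hW2 (-τ)
      rw [neg_neg] at this
      rw [this, tri_neg, mul_neg]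
      congr 3
      push_cast
      ring
    rw [e4, ← sub_eq_add_neg, ← mul_sub]
    congr 1
    rw [← integral_sub hI1 hI2]
    congr 1
    ext τ
    ring

variable {q : ℕ} [NeZero q]

/-- The Fejer mean of `b + D` is a trigonometric polynomial. -/
theorem pt_form {χ : DirichletCharacter ℂ q} (hχ : χ ≠ 1)
    (hsimple : ∀ γ : ℝ, LFunction χ (1 / 2 + Complex.I * γ) = 0 →
      deriv (fun z : ℂ => LFunction χ (1 / 2 + z)) (Complex.I * γ) ≠ 0)
    {N : ℂ → ℂ} (hN : ∀ z : ℂ, |z.re| < 1 / 4 → DifferentiableAt ℂ N z) (hNm : Measurable N)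
    {b D : ℝ → ℂ} (hb : Continuous b) (hD : Continuous D)
    (hbi : Integrable (fun u : ℝ => b u * (((1 + u ^ 2)⁻¹ : ℝ) : ℂ)))
    (hDi : Integrable (fun u : ℝ => D u * (((1 + u ^ 2)⁻¹ : ℝ) : ℂ)))
    (hbe : ∀ δ : ℝ, 0 < δ → δ < 1 / 4 → Integrable (fun u : ℝ => Complex.exp (-δ * u) * b u))
    (hDe : ∀ δ : ℝ, 0 < δ → δ < 1 / 4 → Integrable (fun u : ℝ => Complex.exp (δ * u) * D u))
    (Lb : ∀ z : ℂ, 0 < z.re → z.re < 1 / 4 → ∫ t : ℝ, Complex.exp (-z * t) * b t = N z / LFunction χ (1 / 2 + z))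
    (LD : ∀ z : ℂ, -(1 / 4) < z.re → z.re < 0 →
      ∫ t : ℝ, Complex.exp (-z * t) * D t = -(N z / LFunction χ (1 / 2 + z)))
    {T : ℝ} (hT : 0 < T) : ∃ (Z : Finset ℝ) (r : ℝ → ℂ), ∀ t : ℝ,
      ∫ u : ℝ, (fej T (t - u) : ℂ) * (b u + D u) = ∑ γ ∈ Z, r γ * Complex.exp (Complex.I * γ * t) := by
  set f : ℂ → ℂ := fun z : ℂ => LFunction χ (1 / 2 + z) with hf
  set W : ℂ → ℂ := fun z => N z / f z with hWdef
  have hfd : Differentiable ℂ f := by
    have := differentiable_LFunction hχ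
    exact this.comp (differentiable_id.const_add _)
  have hWm : Measurable W := hNm.div hfd.continuous.measurable
  have hD1 : Continuous fun u => D (-u) := hD.comp continuous_neg
  have hD2 : Integrable (fun u : ℝ => D (-u) * (((1 + u ^ 2)⁻¹ : ℝ) : ℂ)) := by
    have := hDi.comp_neg
    simpa using this
  have hD3 : ∀ δ : ℝ, 0 < δ → δ < 1 / 4 → Integrable (fun u : ℝ => Complex.exp (-δ * u) * D (-u)) := by
    intro δ h1 h2
    have := (hDe δ h1 h2).comp_neg
    refine this.congr (ae_of_all _ fun u => ?_)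
    simp only
    congr 2
    push_cast
    ring
  have hpd : ∀ γ ∈ ZT χ T, ContinuousAt (dslope (fun z => N z / dslope f (Complex.I * γ) z)
      (Complex.I * γ)) (Complex.I * γ) ∧
      ∀ᶠ z in 𝓝[≠] (Complex.I * (γ : ℂ)), N z / f z =
        (N (Complex.I * γ) / deriv f (Complex.I * γ)) / (z - Complex.I * γ) +
        dslope (fun z => N z / dslope f (Complex.I * γ) z) (Complex.I * γ) z := by
    intro γ hγ
    have hγ2 := (mem_ZT hχ).mp hγ
    apply polar_decomp hfd
    · have hopen : IsOpen {z : ℂ | |z.re| < 1 / 4} :=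
        isOpen_lt (continuous_abs.comp Complex.continuous_re) continuous_const
      have hmem : Complex.I * (γ : ℂ) ∈ {z : ℂ | |z.re| < 1 / 4} := by simp
      filter_upwards [hopen.mem_nhds hmem] with z hz
      exact hN z hz
    · exact hγ2.2
    · exact hsimple γ hγ2.2
  refine ⟨ZT χ T, fun γ => N (Complex.I * γ) / deriv f (Complex.I * γ) * (π * (tri T γ : ℂ)), fun t => ?_⟩
  have hev : ∀ᶠ δ : ℝ in 𝓝[>] 0, δ ∈ Ioo (0:ℝ) (1 / 4) := Ioo_mem_nhdsGT (by norm_num)
  have hlim := tri_limit (W := W) (Z := ZT χ T) (r := fun γ => N (Complex.I * γ) / deriv f (Complex.I * γ))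
    (F := fun γ => dslope (fun z => N z / dslope f (Complex.I * γ) z) (Complex.I * γ))
    hT (fun γ hγ => (hpd γ hγ).1) (fun γ hγ => (hpd γ hγ).2) (fun τ hτ hτZ => by
      have hτ' : |τ| ≤ T := by
        rw [abs_le]; exact hτ
      have hne : f (Complex.I * τ) ≠ 0 := by
        intro h
        exact hτZ ((mem_ZT hχ).mpr ⟨hτ', h⟩)
      have hG : DifferentiableAt ℂ N (Complex.I * τ) := hN _ (by simp)
      exact hG.continuousAt.div (hfd _).continuousAt hne) t (by
      filter_upwards [hev] with δ hδ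
      exact (aux_eq hδ.1 hδ.2 (hbe δ hδ.1 hδ.2) (hD3 δ hδ.1 hδ.2) hWm Lb LD hT t).1)
  have h1 := fej_tendsto hb hbi (hbe (1 / 8) (by norm_num) (by norm_num)) hT t
  have h2 := fej_tendsto hD1 hD2 (hD3 (1 / 8) (by norm_num) (by norm_num)) hT (-t)
  have h3 := h1.add h2
  have h4 : ∫ u : ℝ, (fej T (t - u) : ℂ) * (b u + D u) =
      (∫ u : ℝ, (fej T (t - u) : ℂ) * b u) + ∫ u : ℝ, (fej T (-t - u) : ℂ) * D (-u) := by
    rw [← fej_reflect, ← integral_add (fej_intg hb hbi hT t) (fej_intg hD hDi hT t)]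
    congr 1
    ext u
    ring
  have h5 := hlim.const_mul (1 / 2 : ℂ)
  have h6 : Tendsto (fun δ : ℝ => (1 / 2 : ℂ) * ∫ τ : ℝ, (tri T τ : ℂ) * Complex.exp (Complex.I * τ * t) *
        (W (δ + Complex.I * τ) - W (-δ + Complex.I * τ))) (𝓝[>] 0)
        (𝓝 ((∫ u : ℝ, (fej T (t - u) : ℂ) * b u) + ∫ u : ℝ, (fej T (-t - u) : ℂ) * D (-u))) := by
    refine h3.congr' ?_
    filter_upwards [hev] with δ hδ
    exact (aux_eq hδ.1 hδ.2 (hbe δ hδ.1 hδ.2) (hD3 δ hδ.1 hδ.2) hWm Lb LD hT t).2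
  rw [h4, tendsto_nhds_unique h6 h5, Finset.mul_sum]
  refine Finset.sum_congr rfl (fun γ _ => ?_)
  ring

/-- Recurrence of a trigonometric polynomial. -/
theorem trig_rec (Z : Finset ℝ) (r : ℝ → ℂ) {ε : ℝ} (hε : 0 < ε) (t₀ U : ℝ) : ∃ t : ℝ, U ≤ t ∧
    ‖(∑ γ ∈ Z, r γ * Complex.exp (Complex.I * γ * t)) - ∑ γ ∈ Z, r γ * Complex.exp (Complex.I * γ * t₀)‖ ≤ ε := by
  obtain ⟨m, hm⟩ := exists_nat_gt ((∑ γ ∈ Z, ‖r γ‖) * (2 * π) / ε)
  have hR : 0 ≤ ∑ γ ∈ Z, ‖r γ‖ := Finset.sum_nonneg fun _ _ => norm_nonneg _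
  have hm0 : (0 : ℝ) < m := lt_of_le_of_lt (by positivity) hm
  have hm1 : 0 < m := by exact_mod_cast hm0
  obtain ⟨s, hs1, -, hs3⟩ := dirichlet_simul Z hm1 (S₁ := |U| + |t₀| + 1) (by positivity)
  refine ⟨t₀ + s, ?_, ?_⟩
  · have := neg_abs_le t₀
    have := le_abs_self U
    linarith
  · rw [← Finset.sum_sub_distrib]
    refine (norm_sum_le _ _).trans ?_
    calc ∑ γ ∈ Z, ‖r γ * Complex.exp (Complex.I * γ * ((t₀ + s : ℝ) : ℂ)) - r γ * Complex.exp (Complex.I * γ * t₀)‖
        ≤ ∑ γ ∈ Z, ‖r γ‖ * (2 * π / m) := by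
          refine Finset.sum_le_sum fun γ hγ => ?_
          have e1 : r γ * Complex.exp (Complex.I * γ * ((t₀ + s : ℝ) : ℂ)) - r γ * Complex.exp (Complex.I * γ * t₀) =
              r γ * (Complex.exp (Complex.I * γ * t₀) * (Complex.exp (Complex.I * γ * s) - 1)) := by
            have : Complex.I * γ * ((t₀ + s : ℝ) : ℂ) =
              Complex.I * γ * t₀ + Complex.I * γ * s := by push_cast; ring
            rw [this, Complex.exp_add]; ring
          rw [e1, norm_mul, norm_mul, norm_exp_I_mul, one_mul]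
          exact mul_le_mul_of_nonneg_left (hs3 γ hγ) (norm_nonneg _)
      _ = (∑ γ ∈ Z, ‖r γ‖) * (2 * π) / m := by rw [← Finset.sum_mul]; ring
      _ ≤ ε := by
        rw [div_le_iff₀ hm0]
        rw [div_lt_iff₀ hε] at hm
        linarith

/-- upper limit of the Fejer means -/
theorem fej_limsup {g : ℝ → ℝ} (hg : Continuous g) (hi : Integrable (fun u : ℝ => g u * (1 + u ^ 2)⁻¹)) {β : ℝ}
    (hβ : ∀ᶠ t in atTop, g t ≤ β) {T : ℝ} (hT : 0 < T) {ε : ℝ} (hε : 0 < ε) :
    ∀ᶠ t in atTop, ∫ u : ℝ, fej T (t - u) * g u ≤ cphi * β + ε := by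
  obtain ⟨U, hU⟩ := eventually_atTop.1 hβ
  -- `k u = max (g u - β) 0` is integrable against the weight and vanishes for `u ≥ U`
  set k : ℝ → ℝ := fun u => max (g u - β) 0 with hk
  have hkc : Continuous k := by fun_prop
  have hk0 : ∀ u, 0 ≤ k u := fun u => le_max_right _ _
  have hw : Integrable (fun u : ℝ => (1 + u ^ 2)⁻¹) := integrable_inv_one_add_sq
  have hki : Integrable (fun u : ℝ => k u * (1 + u ^ 2)⁻¹) := by
    refine (hi.norm.add (hw.const_mul |β|)).mono' ?_ (ae_of_all _ fun u => ?_)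
    · refine (hkc.mul (Continuous.inv₀ (by fun_prop) fun u => by positivity)).aestronglyMeasurable
    · have hp : 0 ≤ (1 + u ^ 2)⁻¹ := by positivity
      simp only [Pi.add_apply]
      rw [Real.norm_eq_abs, abs_mul, abs_of_nonneg (hk0 u), abs_of_nonneg hp, Real.norm_eq_abs, abs_mul,
        abs_of_nonneg hp, ← add_mul]
      refine mul_le_mul_of_nonneg_right ?_ hp
      refine max_le ?_ (by positivity)
      have := le_abs_self (g u)
      have := neg_abs_le β
      linarith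
  have h1 : Tendsto (fun t : ℝ => ∫ u : ℝ, fej T (t - u) * k u) atTop (𝓝 (∫ _u : ℝ, (0 : ℝ))) := by
    apply tendsto_integral_filter_of_dominated_convergence
      (fun u => ((4 * T + 8 / T) * (2 * (1 + |U| ^ 2))) * (k u * (1 + u ^ 2)⁻¹))
    · filter_upwards with t
      have := continuous_fej hT
      exact Continuous.aestronglyMeasurable (by fun_prop)
    · filter_upwards [eventually_ge_atTop |U|] with t ht
      refine ae_of_all _ fun u => ?_
      rw [Real.norm_eq_abs, abs_mul, abs_of_nonneg (fej_nonneg hT _), abs_of_nonneg (hk0 u)]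
      rcases le_or_gt U u with hu | hu
      · have : k u = 0 := max_eq_right (by linarith [hU u hu])
        rw [this]
        simp
      · have hUa := le_abs_self U
        have h2 := fej_le_pow hT (t - u)
        have h3 : |U| - u ≤ |t - u| := by
          rw [abs_of_nonneg (show (0:ℝ) ≤ t - u by linarith)]
          linarith
        have hp : 0 < 1 + |t - u| := by positivity
        rw [Real.rpow_neg hp.le, Real.rpow_two] at h2
        have h4 : ((1 + |t - u|) ^ 2)⁻¹ ≤ 2 * (1 + |U| ^ 2) * (1 + u ^ 2)⁻¹ := by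
          rw [← div_eq_mul_inv, le_div_iff₀ (by positivity), ← div_eq_inv_mul, div_le_iff₀ (by positivity)]
          have h5 : 1 + (|U| - u) ^ 2 ≤ (1 + |t - u|) ^ 2 := by
            have h50 : (|U| - u) ^ 2 ≤ |t - u| ^ 2 := pow_le_pow_left₀ (by linarith) h3 2
            nlinarith [abs_nonneg (t - u)]
          have h6 : u ^ 2 ≤ 2 * |U| ^ 2 + 2 * (|U| - u) ^ 2 := by nlinarith [sq_nonneg (|U| + (|U| - u))]
          have h7 : 1 ≤ (1 + |t - u|) ^ 2 := one_le_pow₀ (by linarith [abs_nonneg (t - u)])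
          nlinarith [sq_nonneg |U|, mul_nonneg (sq_nonneg |U|) (sub_nonneg.2 h7)]
        calc fej T (t - u) * k u ≤ ((4 * T + 8 / T) * ((1 + |t - u|) ^ 2)⁻¹) * k u := by
              gcongr
          _ ≤ ((4 * T + 8 / T) * (2 * (1 + |U| ^ 2) * (1 + u ^ 2)⁻¹)) * k u := by
              gcongr
          _ = _ := by ring
    · exact hki.const_mul _
    · refine ae_of_all _ fun u => ?_
      have h2 : Tendsto (fun t : ℝ => fej T (t - u)) atTop (𝓝 0) := by
        have h3 : Tendsto (fun t : ℝ => 2 / (T * (t - u) ^ 2)) atTop (𝓝 0) := by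
          have h4 : Tendsto (fun t : ℝ => T * (t - u) ^ 2) atTop atTop :=
            ((tendsto_pow_atTop two_ne_zero).comp
              (tendsto_atTop_add_const_right _ _ tendsto_id)).const_mul_atTop hT
          exact h4.const_div_atTop 2
        refine tendsto_of_tendsto_of_tendsto_of_le_of_le' tendsto_const_nhds h3
          (Eventually.of_forall fun t => fej_nonneg hT _) ?_
        filter_upwards [eventually_gt_atTop u] with t ht
        exact fej_le_inv hT (by linarith : (0:ℝ) < t - u).ne'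
      simpa using h2.mul_const (k u)
  rw [integral_zero] at h1
  filter_upwards [h1.eventually (Iic_mem_nhds hε)] with t ht
  obtain ⟨c, hc, hc1⟩ := fej_le_inv_sq hT t
  have hfc : Continuous fun u : ℝ => fej T (t - u) := (continuous_fej hT).comp (by fun_prop)
  have hint : ∀ f : ℝ → ℝ, Continuous f → Integrable (fun u : ℝ => f u * (1 + u ^ 2)⁻¹) →
      Integrable (fun u : ℝ => fej T (t - u) * f u) := by
    intro f hf hfi
    refine (hfi.norm.const_mul c).mono' (hfc.mul hf).aestronglyMeasurable (ae_of_all _ fun u => ?_)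
    have hp : 0 ≤ (1 + u ^ 2)⁻¹ := by positivity
    rw [Real.norm_eq_abs, abs_mul, abs_of_nonneg (fej_nonneg hT _), Real.norm_eq_abs, abs_mul, abs_of_nonneg hp]
    calc fej T (t - u) * |f u| ≤ (c * (1 + u ^ 2)⁻¹) * |f u| := by gcongr; exact hc1 u
      _ = _ := by ring
  have h5 : ∫ u : ℝ, fej T (t - u) * g u ≤ ∫ u : ℝ, (fej T (t - u) * β + fej T (t - u) * k u) := by
    refine integral_mono (hint g hg hi) ?_ (fun u => ?_)
    · exact (((integrable_fej hT).comp_sub_left t).mul_const β).add (hint k hkc hki)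
    · simp only
      rw [← mul_add]
      refine mul_le_mul_of_nonneg_left ?_ (fej_nonneg hT _)
      have := le_max_left (g u - β) 0
      simp only [hk]
      linarith
  rw [integral_add (((integrable_fej hT).comp_sub_left t).mul_const β) (hint k hkc hki), integral_mul_const,
    integral_sub_left_eq_self (fej T) volume t, integral_fej hT] at h5
  have ht' : ∫ u : ℝ, fej T (t - u) * k u ≤ ε := ht
  linarith

/-- the Fejer means converge -/
theorem fej_approx {g : ℝ → ℝ} (hg : Continuous g) (hi : Integrable (fun u : ℝ => g u * (1 + u ^ 2)⁻¹)) (t : ℝ) :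
    Tendsto (fun T : ℝ => ∫ u : ℝ, fej T (t - u) * g u) atTop (𝓝 (cphi * g t)) := by
  -- split `g = g t + (g - g t)`; near `t` the second part is small, far away `fej T ≤ 2 / (T v^2)`
  rw [Metric.tendsto_atTop]
  intro ε hε
  have hc := cphi_pos
  obtain ⟨η, hη, hη1⟩ := Metric.continuousAt_iff.1 hg.continuousAt (ε / (2 * (cphi + 1))) (by positivity)
  have hw : Integrable (fun u : ℝ => (1 + u ^ 2)⁻¹) := integrable_inv_one_add_sq
  set J : ℝ := ∫ u : ℝ, (|g u * (1 + u ^ 2)⁻¹| + |g t| * (1 + u ^ 2)⁻¹) with hJ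
  have hJi : Integrable (fun u : ℝ => |g u * (1 + u ^ 2)⁻¹| + |g t| * (1 + u ^ 2)⁻¹) := hi.norm.add (hw.const_mul _)
  have hJ0 : 0 ≤ J := integral_nonneg fun u => by positivity
  -- for `|t - u| ≥ η`: `1 + u^2 ≤ A (t-u)^2`
  set A : ℝ := (1 + 2 * t ^ 2) / η ^ 2 + 2 with hA
  have hA0 : 0 < A := by positivity
  obtain ⟨T0, hT0⟩ := exists_nat_gt (2 * A * J / (ε / 4) + 1)
  refine ⟨T0, fun T hTT => ?_⟩
  have hT1 : 2 * A * J / (ε / 4) + 1 < T := lt_of_lt_of_le hT0 hTT
  have hT : 0 < T := lt_of_le_of_lt (by positivity) hT1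
  obtain ⟨c, hcc, hc1⟩ := fej_le_inv_sq hT t
  have hfc : Continuous fun u : ℝ => fej T (t - u) := (continuous_fej hT).comp (by fun_prop)
  have hint : Integrable (fun u : ℝ => fej T (t - u) * g u) := by
    refine (hi.norm.const_mul c).mono' (hfc.mul hg).aestronglyMeasurable (ae_of_all _ fun u => ?_)
    have hp : 0 ≤ (1 + u ^ 2)⁻¹ := by positivity
    rw [Real.norm_eq_abs, abs_mul, abs_of_nonneg (fej_nonneg hT _), Real.norm_eq_abs, abs_mul, abs_of_nonneg hp]
    calc fej T (t - u) * |g u| ≤ (c * (1 + u ^ 2)⁻¹) * |g u| := by gcongr; exact hc1 u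
      _ = _ := by ring
  have hint2 : Integrable (fun u : ℝ => fej T (t - u) * g t) := ((integrable_fej hT).comp_sub_left t).mul_const _
  have e1 : cphi * g t = ∫ u : ℝ, fej T (t - u) * g t := by
    rw [integral_mul_const, integral_sub_left_eq_self (fej T) volume t, integral_fej hT]
  rw [Real.dist_eq, e1, ← integral_sub hint hint2]
  have h1 : ∀ u : ℝ, ‖fej T (t - u) * g u - fej T (t - u) * g t‖ ≤
      fej T (t - u) * (ε / (2 * (cphi + 1))) + 2 * A / T * (|g u * (1 + u ^ 2)⁻¹| + |g t| * (1 + u ^ 2)⁻¹) := by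
    intro u
    have hp : 0 < (1 + u ^ 2)⁻¹ := by positivity
    have hf := fej_nonneg hT (t - u)
    rw [← mul_sub, norm_mul, Real.norm_eq_abs, abs_of_nonneg hf, Real.norm_eq_abs]
    rcases lt_or_ge |t - u| η with h2 | h2
    · have h3 := hη1 (show dist u t < η by rw [Real.dist_eq, abs_sub_comm]; exact h2)
      rw [Real.dist_eq] at h3
      have h4 : fej T (t - u) * |g u - g t| ≤ fej T (t - u) * (ε / (2 * (cphi + 1))) :=
        mul_le_mul_of_nonneg_left h3.le hf
      have h5 : 0 ≤ 2 * A / T * (|g u * (1 + u ^ 2)⁻¹| + |g t| * (1 + u ^ 2)⁻¹) := by positivity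
      linarith
    · have hne : t - u ≠ 0 := by
        intro h0
        rw [h0, abs_zero] at h2
        linarith
      have h3 := fej_le_inv hT hne
      have h4 : η ^ 2 ≤ (t - u) ^ 2 := by
        rw [← sq_abs (t - u)]
        exact pow_le_pow_left₀ hη.le h2 2
      have hsq : 0 < (t - u) ^ 2 := lt_of_lt_of_le (by positivity) h4
      have h5 : 1 + u ^ 2 ≤ A * (t - u) ^ 2 := by
        have h6 : u ^ 2 ≤ 2 * t ^ 2 + 2 * (t - u) ^ 2 := by nlinarith [sq_nonneg (t + (t - u))]
        have h7 : 1 + 2 * t ^ 2 ≤ (1 + 2 * t ^ 2) / η ^ 2 * (t - u) ^ 2 := by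
          rw [div_mul_eq_mul_div, le_div_iff₀ (by positivity)]
          exact mul_le_mul_of_nonneg_left h4 (by positivity)
        rw [hA, add_mul]
        linarith
      have h8 : fej T (t - u) ≤ 2 * A / T * (1 + u ^ 2)⁻¹ := by
        refine h3.trans ?_
        rw [div_mul_eq_mul_div, ← div_eq_mul_inv, div_div, div_le_div_iff₀ (by positivity) (by positivity)]
        nlinarith [mul_le_mul_of_nonneg_left h5 hT.le]
      have h9 : |g u - g t| ≤ |g u| + |g t| := abs_sub _ _
      have h10 : 0 ≤ fej T (t - u) * (ε / (2 * (cphi + 1))) := by positivity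
      calc fej T (t - u) * |g u - g t| ≤ (2 * A / T * (1 + u ^ 2)⁻¹) * (|g u| + |g t|) := by
            gcongr
        _ = 2 * A / T * (|g u * (1 + u ^ 2)⁻¹| + |g t| * (1 + u ^ 2)⁻¹) := by
            rw [abs_mul, abs_of_pos hp]
            ring
        _ ≤ _ := by linarith
  have h2 := norm_integral_le_of_norm_le
    ((((integrable_fej hT).comp_sub_left t).mul_const (ε / (2 * (cphi + 1)))).add (hJi.const_mul (2 * A / T)))
    (ae_of_all _ h1)
  simp only [Pi.add_apply] at h2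
  rw [integral_add (((integrable_fej hT).comp_sub_left t).mul_const _) (hJi.const_mul _), integral_mul_const,
    integral_sub_left_eq_self (fej T) volume t, integral_fej hT, integral_const_mul, ← hJ, Real.norm_eq_abs] at h2
  have h3 : cphi * (ε / (2 * (cphi + 1))) ≤ ε / 2 := by
    rw [← mul_div_assoc, div_le_div_iff₀ (by positivity) (by positivity)]
    nlinarith
  have h4 : 2 * A / T * J < ε / 4 := by
    have h5 : 2 * A * J / (ε / 4) < T := by linarith
    rw [div_lt_iff₀ (by positivity)] at h5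
    rw [div_mul_eq_mul_div, div_lt_iff₀ hT]
    linarith
  linarith

/-- **Block QT1.** -/
theorem gl {χ : DirichletCharacter ℂ q} (hχ : χ ≠ 1)
    (hsimple : ∀ γ : ℝ, LFunction χ (1 / 2 + Complex.I * γ) = 0 →
      deriv (fun z : ℂ => LFunction χ (1 / 2 + z)) (Complex.I * γ) ≠ 0)
    {N : ℂ → ℂ} (hN : ∀ z : ℂ, |z.re| < 1 / 4 → DifferentiableAt ℂ N z) (hNm : Measurable N)
    {b D : ℝ → ℂ} (hb : Continuous b) (hD : Continuous D)
    (hbi : Integrable (fun u : ℝ => b u * (((1 + u ^ 2)⁻¹ : ℝ) : ℂ)))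
    (hDi : Integrable (fun u : ℝ => D u * (((1 + u ^ 2)⁻¹ : ℝ) : ℂ)))
    (hbe : ∀ δ : ℝ, 0 < δ → δ < 1 / 4 → Integrable (fun u : ℝ => Complex.exp (-δ * u) * b u))
    (hDe : ∀ δ : ℝ, 0 < δ → δ < 1 / 4 → Integrable (fun u : ℝ => Complex.exp (δ * u) * D u))
    (Lb : ∀ z : ℂ, 0 < z.re → z.re < 1 / 4 → ∫ t : ℝ, Complex.exp (-z * t) * b t = N z / LFunction χ (1 / 2 + z))
    (LD : ∀ z : ℂ, -(1 / 4) < z.re → z.re < 0 →
      ∫ t : ℝ, Complex.exp (-z * t) * D t = -(N z / LFunction χ (1 / 2 + z)))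
    {β : ℝ} (hβ : ∀ᶠ t in atTop, (b t).re ≤ β) (hD0 : Tendsto D atTop (𝓝 0)) (t : ℝ) : (b t + D t).re ≤ β := by
  have hc := cphi_pos
  set g : ℝ → ℝ := fun u => (b u + D u).re with hg
  have hgc : Continuous g := Complex.continuous_re.comp (hb.add hD)
  have hgi : Integrable (fun u : ℝ => g u * (1 + u ^ 2)⁻¹) := by
    have := (hbi.add hDi).re
    refine this.congr (ae_of_all _ fun u => ?_)
    simp only [Pi.add_apply, hg]
    rw [← add_mul]
    exact Complex.re_mul_ofReal _ _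
  -- it is enough to bound the Fejer means
  have key : ∀ T : ℝ, 0 < T → ∀ ε : ℝ, 0 < ε → ∫ u : ℝ, fej T (t - u) * g u ≤ cphi * (β + ε) + ε + ε := by
    intro T hT ε hε
    obtain ⟨Z, r, hZ⟩ := pt_form hχ hsimple hN hNm hb hD hbi hDi hbe hDe Lb LD hT
    have hre : ∀ t : ℝ, ∫ u : ℝ, fej T (t - u) * g u = (∑ γ ∈ Z, r γ * Complex.exp (Complex.I * γ * t)).re := by
      intro t
      rw [← hZ]
      have h1 : Integrable fun u : ℝ => (fej T (t - u) : ℂ) * (b u + D u) := by
        refine ((fej_intg hb hbi hT t).add (fej_intg hD hDi hT t)).congr (ae_of_all _ fun u => ?_)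
        simp only [Pi.add_apply]
        ring
      have h2 := Complex.reCLM.integral_comp_comm h1
      simp only [Complex.reCLM_apply] at h2
      rw [← h2]
      congr 1
      ext u
      rw [Complex.re_ofReal_mul]
    have hβ' : ∀ᶠ t in atTop, g t ≤ β + ε := by
      have h1 := (Complex.continuous_re.tendsto _).comp hD0
      rw [Complex.zero_re] at h1
      filter_upwards [hβ, h1.eventually (Iic_mem_nhds hε)] with t h2 h3
      simp only [hg, Complex.add_re]
      have h3' : (D t).re ≤ ε := h3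
      linarith
    obtain ⟨U, hU⟩ := eventually_atTop.1 (fej_limsup hgc hgi hβ' hT hε)
    obtain ⟨s, hs1, hs2⟩ := trig_rec Z r hε t U
    have h5 := hU s hs1
    rw [hre] at h5 ⊢
    have h6 := (abs_le.1 ((Complex.abs_re_le_norm _).trans hs2)).1
    rw [Complex.sub_re] at h6
    linarith
  have hlim := fej_approx hgc hgi t
  have h7 : ∀ ε : ℝ, 0 < ε → cphi * g t ≤ cphi * (β + ε) + ε + ε := by
    intro ε hε
    refine le_of_tendsto hlim ?_
    filter_upwards [eventually_gt_atTop 0] with T hT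
    exact key T hT ε hε
  have h9 : cphi * g t ≤ cphi * β := by
    refine le_of_forall_pos_le_add fun ε hε => ?_
    have h10 := h7 (ε / (cphi + 2)) (by positivity)
    have h11 : cphi * (β + ε / (cphi + 2)) + ε / (cphi + 2) + ε / (cphi + 2) = cphi * β + ε := by
      field_simp
      ring
    linarith
  exact le_of_mul_le_mul_left h9 hc

end Pool.Agent.QT
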