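import Pool.Agent.H62.Rec
import Pool.Agent.H62.FejAB
import Pool.Agent.Helper96.QT.GL

/-!
Block QTL7.  The general lemma with the Jackson kernel (functions of polynomial growth) and a general denominator.
-/

namespace Pool.Agent.QT

open Real Filter Topology MeasureTheory Set DirichletCharacter Pool.Agent.H62

/-! ### The Jackson kernel -/

/-- the transform of the kernel: `(1/2T) tri T * tri T` -/
noncomputable def psj (T τ : ℝ) : ℝ := (2 * T)⁻¹ * ∫ s : ℝ, tri T s * tri T (τ - s)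

/-- the kernel -/
noncomputable def jac (T v : ℝ) : ℝ := T⁻¹ * fej T v ^ 2

theorem psj_nonneg {T : ℝ} (hT : 0 < T) (τ : ℝ) : 0 ≤ psj T τ :=
  mul_nonneg (by positivity) (integral_nonneg fun s => mul_nonneg (tri_nonneg _ _) (tri_nonneg _ _))

theorem psj_zero {T : ℝ} (hT : 0 < T) {τ : ℝ} (h : 2 * T ≤ |τ|) : psj T τ = 0 := by
  unfold psj
  have h1 : ∀ s : ℝ, tri T s * tri T (τ - s) = 0 := by
    intro s
    by_cases h2 : T ≤ |s|
    · rw [tri_eq_zero hT h2, zero_mul]
    · push Not at h2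
      have h3 : T ≤ |τ - s| := by
        have := abs_sub_abs_le_abs_sub τ s
        linarith
      rw [tri_eq_zero hT h3, mul_zero]
  simp_rw [h1]
  simp

theorem psj_cont {T : ℝ} (hT : 0 < T) : Continuous (psj T) := by
  unfold psj
  refine continuous_const.mul ?_
  apply continuous_of_dominated (bound := tri T)
  · intro τ
    have := continuous_tri T
    exact Continuous.aestronglyMeasurable (by fun_prop)
  · intro τ
    refine ae_of_all _ fun s => ?_
    rw [Real.norm_eq_abs, abs_mul, abs_of_nonneg (tri_nonneg _ _), abs_of_nonneg (tri_nonneg _ _)]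
    exact mul_le_of_le_one_right (tri_nonneg _ _) (tri_le_one hT _)
  · exact integrable_tri hT
  · refine ae_of_all _ fun s => ?_
    have := continuous_tri T
    fun_prop

theorem psj_le_one {T : ℝ} (hT : 0 < T) (τ : ℝ) : psj T τ ≤ 1 := by
  have h1 : ∫ s : ℝ, tri T s * tri T (τ - s) ≤ ∫ s : ℝ, tri T s := by
    refine integral_mono_of_nonneg (ae_of_all _ fun s => mul_nonneg (tri_nonneg _ _) (tri_nonneg _ _))
      (integrable_tri hT) (ae_of_all _ fun s => ?_)
    exact mul_le_of_le_one_right (tri_nonneg _ _) (tri_le_one hT _)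
  have h2 : ∫ s : ℝ, tri T s ≤ 2 * T := by
    have h3 : ∀ s, tri T s ≤ (Icc (-T) T).indicator (fun _ => (1 : ℝ)) s := by
      intro s
      by_cases hs : s ∈ Icc (-T) T
      · rw [indicator_of_mem hs]
        exact tri_le_one hT s
      · rw [indicator_of_notMem hs]
        rw [mem_Icc, ← abs_le] at hs
        push Not at hs
        exact (tri_eq_zero hT hs.le).le
    have h4 : Integrable ((Icc (-T) T).indicator (fun _ => (1 : ℝ))) :=
      (integrable_indicator_iff measurableSet_Icc).2 (by simp)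
    have h5 := integral_mono (integrable_tri hT) h4 h3
    rw [integral_indicator measurableSet_Icc] at h5
    simp only [integral_const, MeasurableSet.univ, measureReal_restrict_apply, univ_inter, smul_eq_mul, mul_one] at h5
    rw [Real.volume_real_Icc_of_le (by linarith)] at h5
    linarith
  unfold psj
  rw [inv_mul_le_iff₀ (by positivity)]
  linarith

theorem psj_integrable {T : ℝ} (hT : 0 < T) : Integrable (psj T) := by
  refine (psj_cont hT).integrable_of_hasCompactSupport ?_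
  apply HasCompactSupport.of_support_subset_isCompact (isCompact_Icc (a := -(2 * T)) (b := 2 * T))
  intro x hx
  by_contra h
  apply hx
  apply psj_zero hT
  rw [mem_Icc, ← abs_le] at h
  push Not at h
  exact h.le

theorem psj_neg (T τ : ℝ) : psj T (-τ) = psj T τ := by
  unfold psj
  congr 1
  rw [← integral_neg_eq_self]
  congr 1
  ext s
  rw [tri_neg, show -τ - -s = -(τ - s) by ring, tri_neg]

theorem jac_neg (T v : ℝ) : jac T (-v) = jac T v := by unfold jac; rw [fej_neg]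

theorem jac_nonneg {T : ℝ} (hT : 0 < T) (v : ℝ) : 0 ≤ jac T v := by unfold jac; positivity

theorem jac_cont {T : ℝ} (hT : 0 < T) : Continuous (jac T) := by
  have := continuous_fej hT
  unfold jac
  fun_prop

theorem jac_scale {T : ℝ} (hT : 0 < T) (v : ℝ) : jac T v = T * jac 1 (T * v) := by
  unfold jac
  rw [fej_scale hT]
  field_simp

/-- decay -/
theorem jac_le {T : ℝ} (hT : 0 < T) (v : ℝ) : jac T v ≤ T⁻¹ * (4 * T + 8 / T) ^ 2 * ((1 + |v|) ^ 4)⁻¹ := by
  unfold jac
  have h1 := fej_le_pow hT v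
  have hp : 0 < 1 + |v| := by positivity
  rw [Real.rpow_neg hp.le, Real.rpow_two] at h1
  rw [mul_assoc]
  refine mul_le_mul_of_nonneg_left ?_ (by positivity)
  calc fej T v ^ 2 ≤ ((4 * T + 8 / T) * ((1 + |v|) ^ 2)⁻¹) ^ 2 := pow_le_pow_left₀ (fej_nonneg hT v) h1 2
    _ = _ := by
      rw [mul_pow, inv_pow, ← pow_mul]

theorem jac_integrable {T : ℝ} (hT : 0 < T) : Integrable (jac T) := by
  refine (((integrable_fej hT).const_mul T).const_mul T⁻¹).mono' (jac_cont hT).aestronglyMeasurable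
    (ae_of_all _ fun v => ?_)
  rw [Real.norm_eq_abs, abs_of_nonneg (jac_nonneg hT v)]
  unfold jac
  refine mul_le_mul_of_nonneg_left ?_ (by positivity)
  rw [sq]
  exact mul_le_mul_of_nonneg_right (fej_le_T hT v) (fej_nonneg hT v)

/-- total mass -/
noncomputable def cjac : ℝ := ∫ v : ℝ, jac 1 v

theorem integral_jac {T : ℝ} (hT : 0 < T) : ∫ v : ℝ, jac T v = cjac := by
  simp_rw [jac_scale hT]
  rw [integral_const_mul, Measure.integral_comp_mul_left (fun x => jac 1 x) T, abs_of_pos (inv_pos.mpr hT),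
    smul_eq_mul, ← mul_assoc, mul_inv_cancel₀ hT.ne', one_mul]
  rfl

theorem cjac_pos : 0 < cjac := by
  unfold cjac
  rw [integral_pos_iff_support_of_nonneg (fun v => jac_nonneg one_pos v) (jac_integrable one_pos)]
  have : Ioo (0:ℝ) 1 ⊆ Function.support (jac 1) := by
    intro v hv
    rw [Function.mem_support]
    unfold jac
    rw [fej_eq one_pos hv.1.ne']
    have h1 : Real.cos (1 * v) < 1 := by
      rw [one_mul, ← Real.cos_zero]
      exact Real.cos_lt_cos_of_nonneg_of_le_pi le_rfl (by linarith [hv.2, Real.pi_gt_three]) hv.1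
    have h2 : 0 < (1 - Real.cos (1 * v)) / (1 * v ^ 2) := div_pos (by linarith) (by have := hv.1; positivity)
    positivity
  refine lt_of_lt_of_le ?_ (measure_mono this)
  simp

/-- Fourier representation -/
theorem jac_rep {T : ℝ} (hT : 0 < T) (v : ℝ) :
    ((jac T v : ℝ) : ℂ) = (1 / 2) * ∫ τ : ℝ, (psj T τ : ℂ) * Complex.exp (Complex.I * τ * v) := by
  set f : ℝ → ℂ := fun s => (tri T s : ℂ) * Complex.exp (Complex.I * s * v) with hf
  have hfi : Integrable f := by
    have hb1 : Integrable (fun τ : ℝ => ((tri T τ : ℝ) : ℂ)) := (integrable_tri hT).ofReal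
    refine hb1.mul_bdd (c := 1) (by fun_prop) (ae_of_all _ fun τ => ?_)
    rw [norm_exp_I_mul]
  have h1 := integral_convolution (L := ContinuousLinearMap.mul ℝ ℂ) (μ := volume) (ν := volume) hfi hfi
  have h2 : ∀ τ : ℝ, MeasureTheory.convolution f f (ContinuousLinearMap.mul ℝ ℂ) volume τ =
      (2 * T : ℂ) * ((psj T τ : ℂ) * Complex.exp (Complex.I * τ * v)) := by
    intro τ
    unfold psj MeasureTheory.convolution
    simp only [hf, ContinuousLinearMap.mul_apply']
    have h3 : ∀ s : ℝ, (tri T s : ℂ) * Complex.exp (Complex.I * s * v) *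
        ((tri T (τ - s) : ℂ) * Complex.exp (Complex.I * ((τ - s : ℝ) : ℂ) * v)) =
        ((tri T s * tri T (τ - s) : ℝ) : ℂ) * Complex.exp (Complex.I * τ * v) := by
      intro s
      have h4 : Complex.exp (Complex.I * s * v) * Complex.exp (Complex.I * ((τ - s : ℝ) : ℂ) * v) =
          Complex.exp (Complex.I * τ * v) := by
        rw [← Complex.exp_add]
        congr 1
        push_cast
        ring
      rw [← h4]
      push_cast
      ring
    simp_rw [h3]
    rw [integral_mul_const, integral_complex_ofReal]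
    push_cast
    have : (T : ℂ) ≠ 0 := by exact_mod_cast hT.ne'
    field_simp
  simp_rw [h2] at h1
  rw [integral_const_mul, ContinuousLinearMap.mul_apply'] at h1
  have h5 := fej_complex hT v
  have h6 : ((jac T v : ℝ) : ℂ) = (T : ℂ)⁻¹ * ((fej T v : ℝ) : ℂ) ^ 2 := by
    unfold jac
    push_cast
    ring
  have hT0 : (T : ℂ) ≠ 0 := by exact_mod_cast hT.ne'
  have hf2 : (∫ x : ℝ, f x) = ∫ τ : ℝ, (tri T τ : ℂ) * Complex.exp (Complex.I * τ * v) := rfl
  rw [hf2] at h1
  rw [h6, h5]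
  generalize (∫ τ : ℝ, (psj T τ : ℂ) * Complex.exp (Complex.I * τ * v)) = P at h1 ⊢
  generalize (∫ τ : ℝ, (tri T τ : ℂ) * Complex.exp (Complex.I * τ * v)) = J at h1 ⊢
  have h7 : (T : ℂ)⁻¹ * (1 / 2 * J) ^ 2 = (T : ℂ)⁻¹ * (1 / 4) * (J * J) := by ring
  rw [h7, ← h1]
  field_simp
  ring

/-- Fubini: convolution with the kernel in terms of the Laplace transform. -/
theorem jac_conv {T : ℝ} (hT : 0 < T) (t : ℝ) (h : ℝ → ℂ) (δ : ℝ) (hint : Integrable
    (fun u : ℝ => Complex.exp (-δ * u) * h u)) :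
    ∫ u : ℝ, (jac T (t - u) : ℂ) * (Complex.exp (-δ * u) * h u) =
      (1 / 2) * ∫ τ : ℝ, (psj T τ : ℂ) * Complex.exp (Complex.I * τ * t) *
        ∫ u : ℝ, Complex.exp (-(δ + Complex.I * τ) * u) * h u := by
  have h1 : ∀ u : ℝ, (jac T (t - u) : ℂ) * (Complex.exp (-δ * u) * h u) =
      (1 / 2) * ∫ τ : ℝ, (psj T τ : ℂ) * Complex.exp (Complex.I * τ * (t - u)) *
        (Complex.exp (-δ * u) * h u) := by
    intro u
    rw [jac_rep hT, integral_mul_const]
    push_cast
    ring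
  simp_rw [h1]
  rw [integral_const_mul]
  congr 1
  rw [integral_integral_swap]
  · congr 1
    ext τ
    rw [← integral_const_mul]
    congr 1
    ext u
    have e1 : Complex.exp (Complex.I * τ * (t - u)) * Complex.exp (-δ * u)
        = Complex.exp (Complex.I * τ * t) * Complex.exp (-(δ + Complex.I * τ) * u) := by
      rw [← Complex.exp_add, ← Complex.exp_add]
      congr 1
      ring
    calc (psj T τ : ℂ) * Complex.exp (Complex.I * τ * (t - u)) * (Complex.exp (-δ * u) * h u)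
        = (psj T τ : ℂ) * (Complex.exp (Complex.I * τ * (t - u)) * Complex.exp (-δ * u)) * h u := by
          ring
      _ = _ := by rw [e1]; ring
  · have hi : Integrable (fun τ : ℝ => ((psj T τ : ℝ) : ℂ)) := (psj_integrable hT).ofReal
    have hm := hint.mul_prod hi
    have hb := hm.bdd_mul (c := 1)
      (f := fun z : ℝ × ℝ => Complex.exp (Complex.I * z.2 * (t - z.1))) (by fun_prop)
      (ae_of_all _ fun z => by
        have : Complex.I * z.2 * (t - z.1) = ((z.2 * (t - z.1) : ℝ) : ℂ) * Complex.I := by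
          push_cast; ring
        rw [this, Complex.norm_exp_ofReal_mul_I])
    refine hb.congr (ae_of_all _ fun z => ?_)
    simp only [Function.uncurry]
    push_cast
    ring

theorem psi_limit {W : ℂ → ℂ} {T : ℝ} (hT : 0 < T) {Z : Finset ℝ} {r : ℝ → ℂ} {F : ℝ → ℂ → ℂ}
    (hZc : ∀ γ ∈ Z, ContinuousAt (F γ) (Complex.I * γ))
    (hZ : ∀ γ ∈ Z, ∀ᶠ z in 𝓝[≠] (Complex.I * (γ : ℂ)), W z = r γ / (z - Complex.I * γ) + F γ z)
    (hW : ∀ τ ∈ Icc (-(2 * T)) (2 * T), τ ∉ Z → ContinuousAt W (Complex.I * τ)) (t : ℝ)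
    (hint : ∀ᶠ δ : ℝ in 𝓝[>] 0, Integrable (fun τ : ℝ =>
      (psj T τ : ℂ) * Complex.exp (Complex.I * τ * t) *
        (W (δ + Complex.I * τ) - W (-δ + Complex.I * τ)))) :
    Tendsto (fun δ : ℝ => ∫ τ : ℝ, (psj T τ : ℂ) * Complex.exp (Complex.I * τ * t) *
        (W (δ + Complex.I * τ) - W (-δ + Complex.I * τ))) (𝓝[>] 0)
      (𝓝 (∑ γ ∈ Z, r γ * (2 * π * ((psj T γ : ℂ) * Complex.exp (Complex.I * γ * t))))) := by
  set ψ : ℝ → ℂ := fun τ => (psj T τ : ℂ) * Complex.exp (Complex.I * τ * t) with hψ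
  have hψc : Continuous ψ := by
    have := psj_cont hT
    fun_prop
  have hexp : ∀ τ : ℝ, ‖Complex.exp (Complex.I * τ * t)‖ = 1 := by
    intro τ
    have : Complex.I * τ * t = ((τ * t : ℝ) : ℂ) * Complex.I := by push_cast; ring
    rw [this, Complex.norm_exp_ofReal_mul_I]
  have hψn : ∀ τ, ‖ψ τ‖ = psj T τ := by
    intro τ
    rw [hψ]
    simp only
    rw [norm_mul, hexp, mul_one, Complex.norm_real, Real.norm_eq_abs,
      abs_of_nonneg (psj_nonneg hT τ)]
  have hψb : ∀ τ, ‖ψ τ‖ ≤ 1 := fun τ => (hψn τ).trans_le (psj_le_one hT τ)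
  have hpole : Tendsto (fun δ : ℝ => ∑ γ ∈ Z, r γ * ∫ τ : ℝ, ψ τ *
      ((2 * δ / (δ ^ 2 + (τ - γ) ^ 2) : ℝ) : ℂ)) (𝓝[>] 0)
      (𝓝 (∑ γ ∈ Z, r γ * (2 * π * ψ γ))) := by
    refine tendsto_finsetSum _ (fun γ _ => ?_)
    exact (poisson_tendsto hψc hψb γ).const_mul _
  -- difference tends to zero
  have hdiff : Tendsto (fun δ : ℝ => (∫ τ : ℝ, ψ τ *
        (W (δ + Complex.I * τ) - W (-δ + Complex.I * τ))) -
        ∑ γ ∈ Z, r γ * ∫ τ : ℝ, ψ τ * ((2 * δ / (δ ^ 2 + (τ - γ) ^ 2) : ℝ) : ℂ)) (𝓝[>] 0)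
        (𝓝 0) := by
    rw [Metric.tendsto_nhds]
    intro ε hε
    have hI : 0 ≤ ∫ τ, psj T τ := integral_nonneg (psj_nonneg hT)
    set I0 := ∫ τ, psj T τ with hI0
    set ε' := ε / (4 * (I0 + 1)) with hε'
    have hε'0 : 0 < ε' := by positivity
    have hu := Hreg_uniform (r := r) (F := F) hZc hZ hW hε'0
    have hu1 : ∀ᶠ δ : ℝ in 𝓝[>] 0, ∀ τ ∈ Icc (-(2 * T)) (2 * T),
        ‖Hreg W Z r F (δ + Complex.I * τ) - Hreg W Z r F (Complex.I * τ)‖ < ε' :=
      hu.filter_mono nhdsWithin_le_nhds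
    have hu2 : ∀ᶠ δ : ℝ in 𝓝[>] 0, ∀ τ ∈ Icc (-(2 * T)) (2 * T),
        ‖Hreg W Z r F (-δ + Complex.I * τ) - Hreg W Z r F (Complex.I * τ)‖ < ε' := by
      have hneg : Tendsto (fun δ : ℝ => -δ) (𝓝[>] 0) (𝓝 0) := by
        have : Tendsto (fun δ : ℝ => -δ) (𝓝 0) (𝓝 (-0)) := continuous_neg.tendsto 0
        rw [neg_zero] at this
        exact this.mono_left nhdsWithin_le_nhds
      have := hneg.eventually hu
      filter_upwards [this] with δ hδ τ hτ
      have h := hδ τ hτ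
      push_cast at h
      exact h
    filter_upwards [hint, hu1, hu2, self_mem_nhdsWithin] with δ hδint hδ1 hδ2 hδ0
    have hδ0' : (0:ℝ) < δ := hδ0
    rw [dist_zero_right]
    have hker : ∀ γ : ℝ, Integrable (fun τ : ℝ => ψ τ *
        ((2 * δ / (δ ^ 2 + (τ - γ) ^ 2) : ℝ) : ℂ)) := by
      intro γ
      apply Continuous.integrable_of_hasCompactSupport
      · refine hψc.mul (Complex.continuous_ofReal.comp ?_)
        refine Continuous.div (by fun_prop) (by fun_prop) (fun τ => by positivity)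
      · apply HasCompactSupport.mul_right
        apply HasCompactSupport.of_support_subset_isCompact (isCompact_Icc (a := -(2 * T)) (b := 2 * T))
        intro x hx
        by_contra h
        apply hx
        rw [← norm_eq_zero, hψn]
        apply psj_zero hT
        rw [mem_Icc, ← abs_le] at h
        push Not at h
        exact h.le
    have hrw : (∫ τ : ℝ, ψ τ * (W (δ + Complex.I * τ) - W (-δ + Complex.I * τ))) -
        ∑ γ ∈ Z, r γ * ∫ τ : ℝ, ψ τ * ((2 * δ / (δ ^ 2 + (τ - γ) ^ 2) : ℝ) : ℂ) =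
        ∫ τ : ℝ, ψ τ * (Hreg W Z r F (δ + Complex.I * τ) - Hreg W Z r F (-δ + Complex.I * τ)) := by
      simp_rw [← integral_const_mul]
      rw [← integral_finsetSum _ (fun γ _ => (hker γ).const_mul _), ← integral_sub hδint
        (integrable_finsetSum _ (fun γ _ => (hker γ).const_mul _))]
      congr 1
      ext τ
      rw [Hreg_of_re (by simp; exact hδ0'.ne'), Hreg_of_re (by simp; exact hδ0'.ne')]
      have : ∀ γ ∈ Z, r γ * (ψ τ * ((2 * δ / (δ ^ 2 + (τ - γ) ^ 2) : ℝ) : ℂ)) =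
          ψ τ * (r γ / ((δ : ℂ) + Complex.I * τ - Complex.I * γ) -
            r γ / (-(δ : ℂ) + Complex.I * τ - Complex.I * γ)) := by
        intro γ _
        rw [pole_diff hδ0' τ γ (r γ)]
        ring
      rw [Finset.sum_congr rfl this, ← Finset.mul_sum, Finset.sum_sub_distrib]
      ring
    rw [hrw]
    have hbound : ‖∫ τ : ℝ, ψ τ * (Hreg W Z r F (δ + Complex.I * τ) -
        Hreg W Z r F (-δ + Complex.I * τ))‖ ≤ ∫ τ : ℝ, psj T τ * (2 * ε') := by
      apply norm_integral_le_of_norm_le ((psj_integrable hT).mul_const _)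
      refine ae_of_all _ fun τ => ?_
      rw [norm_mul, hψn]
      by_cases hτ : τ ∈ Icc (-(2 * T)) (2 * T)
      · apply mul_le_mul_of_nonneg_left _ (psj_nonneg hT τ)
        have e1 := hδ1 τ hτ
        have e2 := hδ2 τ hτ
        calc ‖Hreg W Z r F (δ + Complex.I * τ) - Hreg W Z r F (-δ + Complex.I * τ)‖
            = ‖(Hreg W Z r F (δ + Complex.I * τ) - Hreg W Z r F (Complex.I * τ)) -
              (Hreg W Z r F (-δ + Complex.I * τ) - Hreg W Z r F (Complex.I * τ))‖ := by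
              congr 1; ring
          _ ≤ _ := norm_sub_le _ _
          _ ≤ 2 * ε' := by linarith
      · rw [mem_Icc, ← abs_le] at hτ
        push Not at hτ
        rw [psj_zero hT hτ.le]
        simp
    refine hbound.trans_lt ?_
    rw [integral_mul_const, ← hI0, hε']
    rw [show I0 * (2 * (ε / (4 * (I0 + 1)))) = ε * (I0 / (2 * (I0 + 1))) by field_simp; ring]
    have : I0 / (2 * (I0 + 1)) < 1 := by
      rw [div_lt_one (by positivity)]
      linarith
    nlinarith
  have := hdiff.add hpole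
  rw [zero_add] at this
  refine this.congr (fun δ => ?_)
  simp only [sub_add_cancel, hψ]


theorem jac_le_T {T : ℝ} (hT : 0 < T) (v : ℝ) : jac T v ≤ T := by
  unfold jac
  have h1 := pow_le_pow_left₀ (fej_nonneg hT v) (fej_le_T hT v) 2
  calc T⁻¹ * fej T v ^ 2 ≤ T⁻¹ * T ^ 2 := mul_le_mul_of_nonneg_left h1 (by positivity)
    _ = T := by field_simp

private theorem integrable_inv_sq : Integrable (fun u : ℝ => ((1 + u ^ 2) ^ 2)⁻¹) := by
  refine integrable_inv_one_add_sq.mono' ?_ (ae_of_all _ fun u => ?_)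
  · exact (Continuous.inv₀ (by fun_prop) fun u => by positivity).aestronglyMeasurable
  · rw [Real.norm_eq_abs, abs_of_nonneg (by positivity)]
    apply inv_anti₀ (by positivity)
    nlinarith [sq_nonneg u]

/-- the kernel is at most a constant times `1 / (1 + u^2)^2` -/
private lemma fej_le_inv_sq {T : ℝ} (hT : 0 < T) (t : ℝ) : ∃ c : ℝ, 0 ≤ c ∧ ∀ u : ℝ, jac T (t - u) ≤ c * ((1 + u ^ 2) ^ 2)⁻¹ := by
  refine ⟨T⁻¹ * (4 * T + 8 / T) ^ 2 * (2 * (1 + t ^ 2)) ^ 2, by positivity, fun u => ?_⟩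
  refine (jac_le hT (t - u)).trans ?_
  rw [mul_assoc (T⁻¹ * (4 * T + 8 / T) ^ 2)]
  refine mul_le_mul_of_nonneg_left ?_ (by positivity)
  have h3 : u ^ 2 ≤ 2 * t ^ 2 + 2 * (t - u) ^ 2 := by nlinarith [sq_nonneg (t + (t - u))]
  have h4 : 1 + (t - u) ^ 2 ≤ (1 + |t - u|) ^ 2 := by
    rw [← sq_abs (t - u)]
    nlinarith [abs_nonneg (t - u)]
  have h5 : 1 ≤ (1 + |t - u|) ^ 2 := one_le_pow₀ (by linarith [abs_nonneg (t - u)])
  have h6 : 1 + u ^ 2 ≤ 2 * (1 + t ^ 2) * (1 + |t - u|) ^ 2 := by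
    nlinarith [sq_nonneg t, mul_nonneg (sq_nonneg t) (sub_nonneg.2 h5)]
  have h7 : (1 + u ^ 2) ^ 2 ≤ (2 * (1 + t ^ 2)) ^ 2 * (1 + |t - u|) ^ 4 := by
    calc (1 + u ^ 2) ^ 2 ≤ (2 * (1 + t ^ 2) * (1 + |t - u|) ^ 2) ^ 2 := pow_le_pow_left₀ (by positivity) h6 2
      _ = _ := by ring
  rw [← div_eq_mul_inv, le_div_iff₀ (by positivity), ← div_eq_inv_mul, div_le_iff₀ (by positivity)]
  exact h7

private lemma fej_intg {g : ℝ → ℂ} (hg : Continuous g) (hi : Integrable (fun u : ℝ => g u * ((((1 + u ^ 2) ^ 2)⁻¹ : ℝ) : ℂ)))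
    {T : ℝ} (hT : 0 < T) (t : ℝ) : Integrable (fun u : ℝ => (jac T (t - u) : ℂ) * g u) := by
  obtain ⟨c, hc, hc1⟩ := fej_le_inv_sq hT t
  refine (hi.norm.const_mul c).mono' ?_ (ae_of_all _ fun u => ?_)
  · have := jac_cont hT
    exact Continuous.aestronglyMeasurable (by fun_prop)
  · have hp : 0 ≤ ((1 + u ^ 2) ^ 2)⁻¹ := by positivity
    rw [norm_mul, norm_mul, Complex.norm_real, Complex.norm_real, Real.norm_eq_abs, Real.norm_eq_abs,
      abs_of_nonneg (jac_nonneg hT _), abs_of_nonneg hp]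
    calc jac T (t - u) * ‖g u‖ ≤ (c * ((1 + u ^ 2) ^ 2)⁻¹) * ‖g u‖ := by gcongr; exact hc1 u
      _ = _ := by ring

private lemma fej_tendsto {g : ℝ → ℂ} (hg : Continuous g)
    (hi : Integrable (fun u : ℝ => g u * ((((1 + u ^ 2) ^ 2)⁻¹ : ℝ) : ℂ)))
    (h0 : Integrable (fun u : ℝ => Complex.exp (-((1 / 8 : ℝ) : ℂ) * u) * g u)) {T : ℝ} (hT : 0 < T) (t : ℝ) :
    Tendsto (fun δ : ℝ => ∫ u : ℝ, (jac T (t - u) : ℂ) * (Complex.exp (-δ * u) * g u))
      (𝓝[>] 0) (𝓝 (∫ u : ℝ, (jac T (t - u) : ℂ) * g u)) := by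
  have hev : ∀ᶠ δ : ℝ in 𝓝[>] 0, 0 < δ ∧ δ ≤ 1 / 8 := by
    have h1 : ∀ᶠ δ : ℝ in 𝓝[>] 0, δ ∈ Ioo (0:ℝ) (1 / 8) := Ioo_mem_nhdsGT (by norm_num)
    filter_upwards [h1] with δ hδ
    exact ⟨hδ.1, hδ.2.le⟩
  apply tendsto_integral_filter_of_dominated_convergence
    (fun u => ‖(jac T (t - u) : ℂ) * g u‖ + T * ‖Complex.exp (-((1 / 8 : ℝ) : ℂ) * u) * g u‖)
  · filter_upwards with δ
    have := jac_cont hT
    exact Continuous.aestronglyMeasurable (by fun_prop)
  · filter_upwards [hev] with δ hδ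
    refine ae_of_all _ fun u => ?_
    rw [norm_mul, norm_mul, norm_mul, norm_mul, Complex.norm_real, Real.norm_eq_abs, abs_of_nonneg (jac_nonneg hT _),
      Complex.norm_exp, Complex.norm_exp]
    have hre : ∀ x : ℝ, (-(x:ℂ) * u).re = -x * u := by
      intro x
      rw [← Complex.ofReal_neg, ← Complex.ofReal_mul, Complex.ofReal_re]
    rw [hre, hre]
    have hf := jac_nonneg hT (t - u)
    have hf' := jac_le_T hT (t - u)
    have hg0 := norm_nonneg (g u)
    rcases le_or_gt 0 u with hu | hu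
    · have e1 : Real.exp (-δ * u) ≤ 1 := by rw [Real.exp_le_one_iff]; nlinarith
      have : jac T (t - u) * (Real.exp (-δ * u) * ‖g u‖) ≤ jac T (t - u) * (1 * ‖g u‖) := by gcongr
      have h2 : 0 ≤ T * (Real.exp (-(1 / 8) * u) * ‖g u‖) := by positivity
      linarith
    · have e1 : Real.exp (-δ * u) ≤ Real.exp (-(1 / 8) * u) := by
        apply Real.exp_le_exp.mpr
        nlinarith
      have : jac T (t - u) * (Real.exp (-δ * u) * ‖g u‖) ≤ T * (Real.exp (-(1 / 8) * u) * ‖g u‖) := by gcongr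
      have h2 : 0 ≤ jac T (t - u) * ‖g u‖ := by positivity
      linarith
  · exact (fej_intg hg hi hT t).norm.add (h0.norm.const_mul T)
  · refine ae_of_all _ fun u => ?_
    refine tendsto_const_nhds.mul ?_
    have : Tendsto (fun δ : ℝ => Complex.exp (-(δ:ℂ) * u) * g u) (𝓝 0)
        (𝓝 (Complex.exp (-((0:ℝ):ℂ) * u) * g u)) := by
      apply Continuous.tendsto
      fun_prop
    simp only [Complex.ofReal_zero, neg_zero, zero_mul, Complex.exp_zero, one_mul] at this
    exact this.mono_left nhdsWithin_le_nhds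

private lemma fej_reflect (f : ℝ → ℂ) (T t : ℝ) : (∫ u : ℝ, (jac T (t - u) : ℂ) * f u) =
    ∫ u : ℝ, (jac T (-t - u) : ℂ) * f (-u) := by
  rw [← integral_neg_eq_self]
  congr 1
  ext u
  congr 2
  rw [← jac_neg]; congr 1; ring

/-- For fixed `δ`: the two Fejer convolutions in terms of `W`. -/
private lemma aux_eq {W : ℂ → ℂ} {b D : ℝ → ℂ} {δ : ℝ} (h1 : 0 < δ) (h2 : δ < 1 / 4)
    (hi : Integrable (fun u : ℝ => Complex.exp (-δ * u) * b u))
    (hi' : Integrable (fun u : ℝ => Complex.exp (-δ * u) * D (-u))) (hWm : Measurable W)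
    (Lb : ∀ z : ℂ, 0 < z.re → z.re < 1 / 4 → ∫ t : ℝ, Complex.exp (-z * t) * b t = W z)
    (LD : ∀ z : ℂ, -(1 / 4) < z.re → z.re < 0 → ∫ t : ℝ, Complex.exp (-z * t) * D t = -W z)
    {T : ℝ} (hT : 0 < T) (t : ℝ) :
    Integrable (fun τ : ℝ => (psj T τ : ℂ) * Complex.exp (Complex.I * τ * t) *
        (W (δ + Complex.I * τ) - W (-δ + Complex.I * τ))) ∧
    (∫ u : ℝ, (jac T (t - u) : ℂ) * (Complex.exp (-δ * u) * b u)) +
      (∫ u : ℝ, (jac T (-t - u) : ℂ) * (Complex.exp (-δ * u) * D (-u))) =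
      (1 / 2) * ∫ τ : ℝ, (psj T τ : ℂ) * Complex.exp (Complex.I * τ * t) *
        (W (δ + Complex.I * τ) - W (-δ + Complex.I * τ)) := by
  have e1 := jac_conv hT t b δ hi
  have e2 := jac_conv hT (-t) (fun u => D (-u)) δ hi'
  have hW1 : ∀ τ : ℝ, (∫ u : ℝ, Complex.exp (-(δ + Complex.I * τ) * u) * b u) = W (δ + Complex.I * τ) := by
    intro τ
    exact Lb _ (by simpa using h1) (by simpa using h2)
  have hW2 : ∀ τ : ℝ, (∫ u : ℝ, Complex.exp (-(δ + Complex.I * τ) * u) * D (-u)) =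
      -W (-δ + Complex.I * (-τ : ℝ)) := by
    intro τ
    rw [← LD (-δ + Complex.I * (-τ : ℝ)) (by simpa using h2) (by simpa using h1),
      ← integral_neg_eq_self]
    congr 1
    ext u
    rw [neg_neg]
    congr 2
    push_cast
    ring
  have hI1 : Integrable (fun τ : ℝ => (psj T τ : ℂ) * Complex.exp (Complex.I * τ * t) *
      W (δ + Complex.I * τ)) := by
    have hb1 : Integrable (fun τ : ℝ => ((psj T τ : ℝ) : ℂ)) := (psj_integrable hT).ofReal
    have hmeas : Measurable (fun τ : ℝ => Complex.exp (Complex.I * τ * t) *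
        W (δ + Complex.I * τ)) :=
      (show Measurable (fun τ : ℝ => Complex.exp (Complex.I * τ * t)) by fun_prop).mul
        (hWm.comp (show Measurable (fun τ : ℝ => (δ : ℂ) + Complex.I * τ) by fun_prop))
    have := hb1.mul_bdd (c := ∫ u : ℝ, ‖Complex.exp (-δ * u) * b u‖)
      hmeas.aestronglyMeasurable (ae_of_all _ fun τ => by
        rw [norm_mul, norm_exp_I_mul, one_mul, ← hW1]
        exact norm_laplace_le δ τ)
    refine this.congr (ae_of_all _ fun τ => ?_)
    simp only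
    ring
  have hI2 : Integrable (fun τ : ℝ => (psj T τ : ℂ) * Complex.exp (Complex.I * τ * t) *
      W (-δ + Complex.I * τ)) := by
    have hb1 : Integrable (fun τ : ℝ => ((psj T τ : ℝ) : ℂ)) := (psj_integrable hT).ofReal
    have hmeas : Measurable (fun τ : ℝ => Complex.exp (Complex.I * τ * t) *
        W (-δ + Complex.I * τ)) :=
      (show Measurable (fun τ : ℝ => Complex.exp (Complex.I * τ * t)) by fun_prop).mul
        (hWm.comp (show Measurable (fun τ : ℝ => -(δ : ℂ) + Complex.I * τ) by fun_prop))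
    have := hb1.mul_bdd (c := ∫ u : ℝ, ‖Complex.exp (-δ * u) * D (-u)‖)
      hmeas.aestronglyMeasurable (ae_of_all _ fun τ => by
        have h5 := hW2 (-τ)
        rw [neg_neg] at h5
        rw [norm_mul, norm_exp_I_mul, one_mul, ← norm_neg, ← h5]
        exact norm_laplace_le δ (-τ))
    refine this.congr (ae_of_all _ fun τ => ?_)
    simp only
    ring
  constructor
  · refine (hI1.sub hI2).congr (ae_of_all _ fun τ => ?_)
    simp only [Pi.sub_apply]
    ring
  · rw [e1, e2]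
    simp_rw [hW1]
    have e4 : ((1 / 2) * ∫ τ : ℝ, (psj T τ : ℂ) *
        Complex.exp (Complex.I * τ * ((-t : ℝ) : ℂ)) *
          ∫ u : ℝ, Complex.exp (-(δ + Complex.I * τ) * u) * D (-u)) =
        -((1 / 2) * ∫ τ : ℝ, (psj T τ : ℂ) * Complex.exp (Complex.I * τ * t) *
          W (-δ + Complex.I * τ)) := by
      rw [← mul_neg, ← integral_neg]
      congr 1
      rw [← integral_neg_eq_self]
      congr 1
      ext τ
      have := hW2 (-τ)
      rw [neg_neg] at this
      rw [this, psj_neg, mul_neg]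
      congr 3
      push_cast
      ring
    rw [e4, ← sub_eq_add_neg, ← mul_sub]
    congr 1
    rw [← integral_sub hI1 hI2]
    congr 1
    ext τ
    ring


/-- The Fejer mean of `b + D` is a trigonometric polynomial. -/
theorem pt_form2 {f : ℂ → ℂ} (hfd : Differentiable ℂ f) (hfin : ∀ T : ℝ, {γ : ℝ | |γ| ≤ T ∧ f (Complex.I * γ) = 0}.Finite)
    (hsimple : ∀ γ : ℝ, f (Complex.I * γ) = 0 → deriv f (Complex.I * γ) ≠ 0)
    {N : ℂ → ℂ} (hN : ∀ z : ℂ, |z.re| < 1 / 4 → DifferentiableAt ℂ N z) (hNm : Measurable N)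
    {b D : ℝ → ℂ} (hb : Continuous b) (hD : Continuous D)
    (hbi : Integrable (fun u : ℝ => b u * ((((1 + u ^ 2) ^ 2)⁻¹ : ℝ) : ℂ)))
    (hDi : Integrable (fun u : ℝ => D u * ((((1 + u ^ 2) ^ 2)⁻¹ : ℝ) : ℂ)))
    (hbe : ∀ δ : ℝ, 0 < δ → δ < 1 / 4 → Integrable (fun u : ℝ => Complex.exp (-δ * u) * b u))
    (hDe : ∀ δ : ℝ, 0 < δ → δ < 1 / 4 → Integrable (fun u : ℝ => Complex.exp (δ * u) * D u))
    (Lb : ∀ z : ℂ, 0 < z.re → z.re < 1 / 4 → ∫ t : ℝ, Complex.exp (-z * t) * b t = N z / f z)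
    (LD : ∀ z : ℂ, -(1 / 4) < z.re → z.re < 0 → ∫ t : ℝ, Complex.exp (-z * t) * D t = -(N z / f z))
    {T : ℝ} (hT : 0 < T) : ∃ (Z : Finset ℝ) (r : ℝ → ℂ), ∀ t : ℝ,
      ∫ u : ℝ, (jac T (t - u) : ℂ) * (b u + D u) = ∑ γ ∈ Z, r γ * Complex.exp (Complex.I * γ * t) := by
  set W : ℂ → ℂ := fun z => N z / f z with hWdef
  have mem_Z : ∀ γ : ℝ, γ ∈ (hfin (2 * T)).toFinset ↔ |γ| ≤ 2 * T ∧ f (Complex.I * γ) = 0 := fun γ => by
    rw [Set.Finite.mem_toFinset]
    rfl
  have hWm : Measurable W := hNm.div hfd.continuous.measurable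
  have hD1 : Continuous fun u => D (-u) := hD.comp continuous_neg
  have hD2 : Integrable (fun u : ℝ => D (-u) * ((((1 + u ^ 2) ^ 2)⁻¹ : ℝ) : ℂ)) := by
    have := hDi.comp_neg
    simpa using this
  have hD3 : ∀ δ : ℝ, 0 < δ → δ < 1 / 4 → Integrable (fun u : ℝ => Complex.exp (-δ * u) * D (-u)) := by
    intro δ h1 h2
    have := (hDe δ h1 h2).comp_neg
    refine this.congr (ae_of_all _ fun u => ?_)
    simp only
    congr 2
    push_cast
    ring
  have hpd : ∀ γ ∈ (hfin (2 * T)).toFinset, ContinuousAt (dslope (fun z => N z / dslope f (Complex.I * γ) z)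
      (Complex.I * γ)) (Complex.I * γ) ∧
      ∀ᶠ z in 𝓝[≠] (Complex.I * (γ : ℂ)), N z / f z =
        (N (Complex.I * γ) / deriv f (Complex.I * γ)) / (z - Complex.I * γ) +
        dslope (fun z => N z / dslope f (Complex.I * γ) z) (Complex.I * γ) z := by
    intro γ hγ
    have hγ2 := (mem_Z _).mp hγ
    apply polar_decomp hfd
    · have hopen : IsOpen {z : ℂ | |z.re| < 1 / 4} :=
        isOpen_lt (continuous_abs.comp Complex.continuous_re) continuous_const
      have hmem : Complex.I * (γ : ℂ) ∈ {z : ℂ | |z.re| < 1 / 4} := by simp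
      filter_upwards [hopen.mem_nhds hmem] with z hz
      exact hN z hz
    · exact hγ2.2
    · exact hsimple γ hγ2.2
  refine ⟨(hfin (2 * T)).toFinset, fun γ => N (Complex.I * γ) / deriv f (Complex.I * γ) * (π * (psj T γ : ℂ)), fun t => ?_⟩
  have hev : ∀ᶠ δ : ℝ in 𝓝[>] 0, δ ∈ Ioo (0:ℝ) (1 / 4) := Ioo_mem_nhdsGT (by norm_num)
  have hlim := psi_limit (W := W) (Z := (hfin (2 * T)).toFinset) (r := fun γ => N (Complex.I * γ) / deriv f (Complex.I * γ))
    (F := fun γ => dslope (fun z => N z / dslope f (Complex.I * γ) z) (Complex.I * γ))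
    hT (fun γ hγ => (hpd γ hγ).1) (fun γ hγ => (hpd γ hγ).2) (fun τ hτ hτZ => by
      have hτ' : |τ| ≤ 2 * T := by
        rw [abs_le]; exact hτ
      have hne : f (Complex.I * τ) ≠ 0 := by
        intro h
        exact hτZ ((mem_Z _).mpr ⟨hτ', h⟩)
      have hG : DifferentiableAt ℂ N (Complex.I * τ) := hN _ (by simp)
      exact hG.continuousAt.div (hfd _).continuousAt hne) t (by
      filter_upwards [hev] with δ hδ
      exact (aux_eq hδ.1 hδ.2 (hbe δ hδ.1 hδ.2) (hD3 δ hδ.1 hδ.2) hWm Lb LD hT t).1)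
  have h1 := fej_tendsto hb hbi (hbe (1 / 8) (by norm_num) (by norm_num)) hT t
  have h2 := fej_tendsto hD1 hD2 (hD3 (1 / 8) (by norm_num) (by norm_num)) hT (-t)
  have h3 := h1.add h2
  have h4 : ∫ u : ℝ, (jac T (t - u) : ℂ) * (b u + D u) =
      (∫ u : ℝ, (jac T (t - u) : ℂ) * b u) + ∫ u : ℝ, (jac T (-t - u) : ℂ) * D (-u) := by
    rw [← fej_reflect, ← integral_add (fej_intg hb hbi hT t) (fej_intg hD hDi hT t)]
    congr 1
    ext u
    ring
  have h5 := hlim.const_mul (1 / 2 : ℂ)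
  have h6 : Tendsto (fun δ : ℝ => (1 / 2 : ℂ) * ∫ τ : ℝ, (psj T τ : ℂ) * Complex.exp (Complex.I * τ * t) *
        (W (δ + Complex.I * τ) - W (-δ + Complex.I * τ))) (𝓝[>] 0)
        (𝓝 ((∫ u : ℝ, (jac T (t - u) : ℂ) * b u) + ∫ u : ℝ, (jac T (-t - u) : ℂ) * D (-u))) := by
    refine h3.congr' ?_
    filter_upwards [hev] with δ hδ
    exact (aux_eq hδ.1 hδ.2 (hbe δ hδ.1 hδ.2) (hD3 δ hδ.1 hδ.2) hWm Lb LD hT t).2
  rw [h4, tendsto_nhds_unique h6 h5, Finset.mul_sum]
  refine Finset.sum_congr rfl (fun γ _ => ?_)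
  ring

/-- upper limit of the Fejer means -/
theorem jac_limsup {g : ℝ → ℝ} (hg : Continuous g) (hi : Integrable (fun u : ℝ => g u * ((1 + u ^ 2) ^ 2)⁻¹)) {β : ℝ}
    (hβ : ∀ᶠ t in atTop, g t ≤ β) {T : ℝ} (hT : 0 < T) {ε : ℝ} (hε : 0 < ε) :
    ∀ᶠ t in atTop, ∫ u : ℝ, jac T (t - u) * g u ≤ cjac * β + ε := by
  obtain ⟨U, hU⟩ := eventually_atTop.1 hβ
  -- `k u = max (g u - β) 0` is integrable against the weight and vanishes for `u ≥ U`
  set k : ℝ → ℝ := fun u => max (g u - β) 0 with hk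
  have hkc : Continuous k := by fun_prop
  have hk0 : ∀ u, 0 ≤ k u := fun u => le_max_right _ _
  have hw : Integrable (fun u : ℝ => ((1 + u ^ 2) ^ 2)⁻¹) := integrable_inv_sq
  have hki : Integrable (fun u : ℝ => k u * ((1 + u ^ 2) ^ 2)⁻¹) := by
    refine (hi.norm.add (hw.const_mul |β|)).mono' ?_ (ae_of_all _ fun u => ?_)
    · refine (hkc.mul (Continuous.inv₀ (by fun_prop) fun u => by positivity)).aestronglyMeasurable
    · have hp : 0 ≤ ((1 + u ^ 2) ^ 2)⁻¹ := by positivity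
      simp only [Pi.add_apply]
      rw [Real.norm_eq_abs, abs_mul, abs_of_nonneg (hk0 u), abs_of_nonneg hp, Real.norm_eq_abs, abs_mul,
        abs_of_nonneg hp, ← add_mul]
      refine mul_le_mul_of_nonneg_right ?_ hp
      refine max_le ?_ (by positivity)
      have := le_abs_self (g u)
      have := neg_abs_le β
      linarith
  have h1 : Tendsto (fun t : ℝ => ∫ u : ℝ, jac T (t - u) * k u) atTop (𝓝 (∫ _u : ℝ, (0 : ℝ))) := by
    apply tendsto_integral_filter_of_dominated_convergence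
      (fun u => (T⁻¹ * (4 * T + 8 / T) ^ 2 * (2 * (1 + |U| ^ 2)) ^ 2) * (k u * ((1 + u ^ 2) ^ 2)⁻¹))
    · filter_upwards with t
      have := jac_cont hT
      exact Continuous.aestronglyMeasurable (by fun_prop)
    · filter_upwards [eventually_ge_atTop |U|] with t ht
      refine ae_of_all _ fun u => ?_
      rw [Real.norm_eq_abs, abs_mul, abs_of_nonneg (jac_nonneg hT _), abs_of_nonneg (hk0 u)]
      rcases le_or_gt U u with hu | hu
      · have : k u = 0 := max_eq_right (by linarith [hU u hu])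
        rw [this]
        simp
      · have hUa := le_abs_self U
        have h2 := jac_le hT (t - u)
        have h3 : |U| - u ≤ |t - u| := by
          rw [abs_of_nonneg (show (0:ℝ) ≤ t - u by linarith)]
          linarith
        have hp : 0 < 1 + |t - u| := by positivity
        have h4 : ((1 + |t - u|) ^ 4)⁻¹ ≤ (2 * (1 + |U| ^ 2)) ^ 2 * ((1 + u ^ 2) ^ 2)⁻¹ := by
          have h5 : 1 + (|U| - u) ^ 2 ≤ (1 + |t - u|) ^ 2 := by
            have h50 : (|U| - u) ^ 2 ≤ |t - u| ^ 2 := pow_le_pow_left₀ (by linarith) h3 2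
            nlinarith [abs_nonneg (t - u)]
          have h6 : u ^ 2 ≤ 2 * |U| ^ 2 + 2 * (|U| - u) ^ 2 := by nlinarith [sq_nonneg (|U| + (|U| - u))]
          have h7 : 1 ≤ (1 + |t - u|) ^ 2 := one_le_pow₀ (by linarith [abs_nonneg (t - u)])
          have h8 : 1 + u ^ 2 ≤ 2 * (1 + |U| ^ 2) * (1 + |t - u|) ^ 2 := by
            nlinarith [sq_nonneg |U|, mul_nonneg (sq_nonneg |U|) (sub_nonneg.2 h7)]
          have h9 : (1 + u ^ 2) ^ 2 ≤ (2 * (1 + |U| ^ 2)) ^ 2 * (1 + |t - u|) ^ 4 := by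
            calc (1 + u ^ 2) ^ 2 ≤ (2 * (1 + |U| ^ 2) * (1 + |t - u|) ^ 2) ^ 2 := pow_le_pow_left₀ (by positivity) h8 2
              _ = _ := by ring
          rw [← div_eq_mul_inv, le_div_iff₀ (by positivity), ← div_eq_inv_mul, div_le_iff₀ (by positivity)]
          exact h9
        calc jac T (t - u) * k u ≤ (T⁻¹ * (4 * T + 8 / T) ^ 2 * ((1 + |t - u|) ^ 4)⁻¹) * k u := by
              gcongr
          _ ≤ (T⁻¹ * (4 * T + 8 / T) ^ 2 * ((2 * (1 + |U| ^ 2)) ^ 2 * ((1 + u ^ 2) ^ 2)⁻¹)) * k u := by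
              gcongr
          _ = _ := by ring
    · exact hki.const_mul _
    · refine ae_of_all _ fun u => ?_
      have h20 : Tendsto (fun t : ℝ => fej T (t - u)) atTop (𝓝 0) := by
        have h3 : Tendsto (fun t : ℝ => 2 / (T * (t - u) ^ 2)) atTop (𝓝 0) := by
          have h4 : Tendsto (fun t : ℝ => T * (t - u) ^ 2) atTop atTop :=
            ((tendsto_pow_atTop two_ne_zero).comp
              (tendsto_atTop_add_const_right _ _ tendsto_id)).const_mul_atTop hT
          exact h4.const_div_atTop 2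
        refine tendsto_of_tendsto_of_tendsto_of_le_of_le' tendsto_const_nhds h3
          (Eventually.of_forall fun t => fej_nonneg hT _) ?_
        filter_upwards [eventually_gt_atTop u] with t ht
        exact fej_le_inv hT (by linarith : (0:ℝ) < t - u).ne'
      have h2 : Tendsto (fun t : ℝ => jac T (t - u)) atTop (𝓝 0) := by
        have := (h20.pow 2).const_mul T⁻¹
        simpa [jac] using this
      simpa using h2.mul_const (k u)
  rw [integral_zero] at h1
  filter_upwards [h1.eventually (Iic_mem_nhds hε)] with t ht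
  obtain ⟨c, hc, hc1⟩ := fej_le_inv_sq hT t
  have hfc : Continuous fun u : ℝ => jac T (t - u) := (jac_cont hT).comp (by fun_prop)
  have hint : ∀ f : ℝ → ℝ, Continuous f → Integrable (fun u : ℝ => f u * ((1 + u ^ 2) ^ 2)⁻¹) →
      Integrable (fun u : ℝ => jac T (t - u) * f u) := by
    intro f hf hfi
    refine (hfi.norm.const_mul c).mono' (hfc.mul hf).aestronglyMeasurable (ae_of_all _ fun u => ?_)
    have hp : 0 ≤ ((1 + u ^ 2) ^ 2)⁻¹ := by positivity
    rw [Real.norm_eq_abs, abs_mul, abs_of_nonneg (jac_nonneg hT _), Real.norm_eq_abs, abs_mul, abs_of_nonneg hp]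
    calc jac T (t - u) * |f u| ≤ (c * ((1 + u ^ 2) ^ 2)⁻¹) * |f u| := by gcongr; exact hc1 u
      _ = _ := by ring
  have h5 : ∫ u : ℝ, jac T (t - u) * g u ≤ ∫ u : ℝ, (jac T (t - u) * β + jac T (t - u) * k u) := by
    refine integral_mono (hint g hg hi) ?_ (fun u => ?_)
    · exact (((jac_integrable hT).comp_sub_left t).mul_const β).add (hint k hkc hki)
    · simp only
      rw [← mul_add]
      refine mul_le_mul_of_nonneg_left ?_ (jac_nonneg hT _)
      have := le_max_left (g u - β) 0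
      simp only [hk]
      linarith
  rw [integral_add (((jac_integrable hT).comp_sub_left t).mul_const β) (hint k hkc hki), integral_mul_const,
    integral_sub_left_eq_self (jac T) volume t, integral_jac hT] at h5
  have ht' : ∫ u : ℝ, jac T (t - u) * k u ≤ ε := ht
  linarith

/-- the Fejer means converge -/
theorem jac_approx {g : ℝ → ℝ} (hg : Continuous g) (hi : Integrable (fun u : ℝ => g u * ((1 + u ^ 2) ^ 2)⁻¹)) (t : ℝ) :
    Tendsto (fun T : ℝ => ∫ u : ℝ, jac T (t - u) * g u) atTop (𝓝 (cjac * g t)) := by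
  -- split `g = g t + (g - g t)`; near `t` the second part is small, far away `jac T ≤ 2 / (T v^2)`
  rw [Metric.tendsto_atTop]
  intro ε hε
  have hc := cjac_pos
  obtain ⟨η, hη, hη1⟩ := Metric.continuousAt_iff.1 hg.continuousAt (ε / (2 * (cjac + 1))) (by positivity)
  have hw : Integrable (fun u : ℝ => ((1 + u ^ 2) ^ 2)⁻¹) := integrable_inv_sq
  set J : ℝ := ∫ u : ℝ, (|g u * ((1 + u ^ 2) ^ 2)⁻¹| + |g t| * ((1 + u ^ 2) ^ 2)⁻¹) with hJ
  have hJi : Integrable (fun u : ℝ => |g u * ((1 + u ^ 2) ^ 2)⁻¹| + |g t| * ((1 + u ^ 2) ^ 2)⁻¹) := hi.norm.add (hw.const_mul _)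
  have hJ0 : 0 ≤ J := integral_nonneg fun u => by positivity
  -- for `|t - u| ≥ η`: `1 + u^2 ≤ A (t-u)^2`
  set A : ℝ := (1 + 2 * t ^ 2) / η ^ 2 + 2 with hA
  have hA0 : 0 < A := by positivity
  obtain ⟨T0, hT0⟩ := exists_nat_gt (4 * A ^ 2 * J / (ε / 4) + 1)
  refine ⟨T0, fun T hTT => ?_⟩
  have hT1 : 4 * A ^ 2 * J / (ε / 4) + 1 < T := lt_of_lt_of_le hT0 hTT
  have hT1' : 1 ≤ T := by
    have : 0 ≤ 4 * A ^ 2 * J / (ε / 4) := by positivity
    linarith
  have hT : 0 < T := by linarith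
  obtain ⟨c, hcc, hc1⟩ := fej_le_inv_sq hT t
  have hfc : Continuous fun u : ℝ => jac T (t - u) := (jac_cont hT).comp (by fun_prop)
  have hint : Integrable (fun u : ℝ => jac T (t - u) * g u) := by
    refine (hi.norm.const_mul c).mono' (hfc.mul hg).aestronglyMeasurable (ae_of_all _ fun u => ?_)
    have hp : 0 ≤ ((1 + u ^ 2) ^ 2)⁻¹ := by positivity
    rw [Real.norm_eq_abs, abs_mul, abs_of_nonneg (jac_nonneg hT _), Real.norm_eq_abs, abs_mul, abs_of_nonneg hp]
    calc jac T (t - u) * |g u| ≤ (c * ((1 + u ^ 2) ^ 2)⁻¹) * |g u| := by gcongr; exact hc1 u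
      _ = _ := by ring
  have hint2 : Integrable (fun u : ℝ => jac T (t - u) * g t) := ((jac_integrable hT).comp_sub_left t).mul_const _
  have e1 : cjac * g t = ∫ u : ℝ, jac T (t - u) * g t := by
    rw [integral_mul_const, integral_sub_left_eq_self (jac T) volume t, integral_jac hT]
  rw [Real.dist_eq, e1, ← integral_sub hint hint2]
  have h1 : ∀ u : ℝ, ‖jac T (t - u) * g u - jac T (t - u) * g t‖ ≤
      jac T (t - u) * (ε / (2 * (cjac + 1))) + 4 * A ^ 2 / T * (|g u * ((1 + u ^ 2) ^ 2)⁻¹| + |g t| * ((1 + u ^ 2) ^ 2)⁻¹) := by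
    intro u
    have hp : 0 < ((1 + u ^ 2) ^ 2)⁻¹ := by positivity
    have hf := jac_nonneg hT (t - u)
    rw [← mul_sub, norm_mul, Real.norm_eq_abs, abs_of_nonneg hf, Real.norm_eq_abs]
    rcases lt_or_ge |t - u| η with h2 | h2
    · have h3 := hη1 (show dist u t < η by rw [Real.dist_eq, abs_sub_comm]; exact h2)
      rw [Real.dist_eq] at h3
      have h4 : jac T (t - u) * |g u - g t| ≤ jac T (t - u) * (ε / (2 * (cjac + 1))) :=
        mul_le_mul_of_nonneg_left h3.le hf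
      have h5 : 0 ≤ 4 * A ^ 2 / T * (|g u * ((1 + u ^ 2) ^ 2)⁻¹| + |g t| * ((1 + u ^ 2) ^ 2)⁻¹) := by positivity
      linarith
    · have hne : t - u ≠ 0 := by
        intro h0
        rw [h0, abs_zero] at h2
        linarith
      have h3 := fej_le_inv hT hne
      have h4 : η ^ 2 ≤ (t - u) ^ 2 := by
        rw [← sq_abs (t - u)]
        exact pow_le_pow_left₀ hη.le h2 2
      have hsq : 0 < (t - u) ^ 2 := lt_of_lt_of_le (by positivity) h4
      have h5 : 1 + u ^ 2 ≤ A * (t - u) ^ 2 := by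
        have h6 : u ^ 2 ≤ 2 * t ^ 2 + 2 * (t - u) ^ 2 := by nlinarith [sq_nonneg (t + (t - u))]
        have h7 : 1 + 2 * t ^ 2 ≤ (1 + 2 * t ^ 2) / η ^ 2 * (t - u) ^ 2 := by
          rw [div_mul_eq_mul_div, le_div_iff₀ (by positivity)]
          exact mul_le_mul_of_nonneg_left h4 (by positivity)
        rw [hA, add_mul]
        linarith
      have h8 : jac T (t - u) ≤ 4 * A ^ 2 / T * ((1 + u ^ 2) ^ 2)⁻¹ := by
        have h80 : jac T (t - u) ≤ T⁻¹ * (2 / (T * (t - u) ^ 2)) ^ 2 := by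
          unfold jac
          exact mul_le_mul_of_nonneg_left (pow_le_pow_left₀ (fej_nonneg hT _) h3 2) (by positivity)
        refine h80.trans ?_
        have h81 : (1 + u ^ 2) ^ 2 ≤ A ^ 2 * (t - u) ^ 4 := by
          calc (1 + u ^ 2) ^ 2 ≤ (A * (t - u) ^ 2) ^ 2 := pow_le_pow_left₀ (by positivity) h5 2
            _ = _ := by ring
        have h82 : T⁻¹ * (2 / (T * (t - u) ^ 2)) ^ 2 = 4 / (T ^ 3 * (t - u) ^ 4) := by
          field_simp
          ring
        have hu4 : 0 < (t - u) ^ 4 := by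
          have : (t - u) ^ 4 = ((t - u) ^ 2) ^ 2 := by ring
          rw [this]
          positivity
        have hT3 : T ≤ T ^ 3 := by nlinarith [sq_nonneg T, mul_nonneg (sub_nonneg.2 hT1') (sub_nonneg.2 hT1')]
        rw [h82, div_mul_eq_mul_div, ← div_eq_mul_inv, div_div, div_le_div_iff₀ (by positivity) (by positivity)]
        calc 4 * ((1 + u ^ 2) ^ 2 * T) ≤ 4 * ((A ^ 2 * (t - u) ^ 4) * T ^ 3) := by gcongr
          _ = 4 * A ^ 2 * (T ^ 3 * (t - u) ^ 4) := by ring
      have h9 : |g u - g t| ≤ |g u| + |g t| := abs_sub _ _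
      have h10 : 0 ≤ jac T (t - u) * (ε / (2 * (cjac + 1))) := by positivity
      calc jac T (t - u) * |g u - g t| ≤ (4 * A ^ 2 / T * ((1 + u ^ 2) ^ 2)⁻¹) * (|g u| + |g t|) := by
            gcongr
        _ = 4 * A ^ 2 / T * (|g u * ((1 + u ^ 2) ^ 2)⁻¹| + |g t| * ((1 + u ^ 2) ^ 2)⁻¹) := by
            rw [abs_mul, abs_of_pos hp]
            ring
        _ ≤ _ := by linarith
  have h2 := norm_integral_le_of_norm_le
    ((((jac_integrable hT).comp_sub_left t).mul_const (ε / (2 * (cjac + 1)))).add (hJi.const_mul (4 * A ^ 2 / T)))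
    (ae_of_all _ h1)
  simp only [Pi.add_apply] at h2
  rw [integral_add (((jac_integrable hT).comp_sub_left t).mul_const _) (hJi.const_mul _), integral_mul_const,
    integral_sub_left_eq_self (jac T) volume t, integral_jac hT, integral_const_mul, ← hJ, Real.norm_eq_abs] at h2
  have h3 : cjac * (ε / (2 * (cjac + 1))) ≤ ε / 2 := by
    rw [← mul_div_assoc, div_le_div_iff₀ (by positivity) (by positivity)]
    nlinarith
  have h4 : 4 * A ^ 2 / T * J < ε / 4 := by
    have h5 : 4 * A ^ 2 * J / (ε / 4) < T := by linarith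
    rw [div_lt_iff₀ (by positivity)] at h5
    rw [div_mul_eq_mul_div, div_lt_iff₀ hT]
    linarith
  linarith

/-- **Block QTL7.** -/
theorem gl2 {f : ℂ → ℂ} (hfd : Differentiable ℂ f) (hfin : ∀ T : ℝ, {γ : ℝ | |γ| ≤ T ∧ f (Complex.I * γ) = 0}.Finite)
    (hsimple : ∀ γ : ℝ, f (Complex.I * γ) = 0 → deriv f (Complex.I * γ) ≠ 0)
    {N : ℂ → ℂ} (hN : ∀ z : ℂ, |z.re| < 1 / 4 → DifferentiableAt ℂ N z) (hNm : Measurable N)
    {b D : ℝ → ℂ} (hb : Continuous b) (hD : Continuous D)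
    (hbi : Integrable (fun u : ℝ => b u * ((((1 + u ^ 2) ^ 2)⁻¹ : ℝ) : ℂ)))
    (hDi : Integrable (fun u : ℝ => D u * ((((1 + u ^ 2) ^ 2)⁻¹ : ℝ) : ℂ)))
    (hbe : ∀ δ : ℝ, 0 < δ → δ < 1 / 4 → Integrable (fun u : ℝ => Complex.exp (-δ * u) * b u))
    (hDe : ∀ δ : ℝ, 0 < δ → δ < 1 / 4 → Integrable (fun u : ℝ => Complex.exp (δ * u) * D u))
    (Lb : ∀ z : ℂ, 0 < z.re → z.re < 1 / 4 → ∫ t : ℝ, Complex.exp (-z * t) * b t = N z / f z)
    (LD : ∀ z : ℂ, -(1 / 4) < z.re → z.re < 0 → ∫ t : ℝ, Complex.exp (-z * t) * D t = -(N z / f z))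
    {β : ℝ} (hβ : ∀ᶠ t in atTop, (b t).re ≤ β) (hD0 : Tendsto D atTop (𝓝 0)) (t : ℝ) : (b t + D t).re ≤ β := by
  have hc := cjac_pos
  set g : ℝ → ℝ := fun u => (b u + D u).re with hg
  have hgc : Continuous g := Complex.continuous_re.comp (hb.add hD)
  have hgi : Integrable (fun u : ℝ => g u * ((1 + u ^ 2) ^ 2)⁻¹) := by
    have := (hbi.add hDi).re
    refine this.congr (ae_of_all _ fun u => ?_)
    simp only [Pi.add_apply, hg]
    rw [← add_mul]
    exact Complex.re_mul_ofReal _ _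
  -- it is enough to bound the Fejer means
  have key : ∀ T : ℝ, 0 < T → ∀ ε : ℝ, 0 < ε → ∫ u : ℝ, jac T (t - u) * g u ≤ cjac * (β + ε) + ε + ε := by
    intro T hT ε hε
    obtain ⟨Z, r, hZ⟩ := pt_form2 hfd hfin hsimple hN hNm hb hD hbi hDi hbe hDe Lb LD hT
    have hre : ∀ t : ℝ, ∫ u : ℝ, jac T (t - u) * g u = (∑ γ ∈ Z, r γ * Complex.exp (Complex.I * γ * t)).re := by
      intro t
      rw [← hZ]
      have h1 : Integrable fun u : ℝ => (jac T (t - u) : ℂ) * (b u + D u) := by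
        refine ((fej_intg hb hbi hT t).add (fej_intg hD hDi hT t)).congr (ae_of_all _ fun u => ?_)
        simp only [Pi.add_apply]
        ring
      have h2 := Complex.reCLM.integral_comp_comm h1
      simp only [Complex.reCLM_apply] at h2
      rw [← h2]
      congr 1
      ext u
      rw [Complex.re_ofReal_mul]
    have hβ' : ∀ᶠ t in atTop, g t ≤ β + ε := by
      have h1 := (Complex.continuous_re.tendsto _).comp hD0
      rw [Complex.zero_re] at h1
      filter_upwards [hβ, h1.eventually (Iic_mem_nhds hε)] with t h2 h3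
      simp only [hg, Complex.add_re]
      have h3' : (D t).re ≤ ε := h3
      linarith
    obtain ⟨U, hU⟩ := eventually_atTop.1 (jac_limsup hgc hgi hβ' hT hε)
    obtain ⟨s, hs1, hs2⟩ := trig_rec Z r hε t U
    have h5 := hU s hs1
    rw [hre] at h5 ⊢
    have h6 := (abs_le.1 ((Complex.abs_re_le_norm _).trans hs2)).1
    rw [Complex.sub_re] at h6
    linarith
  have hlim := jac_approx hgc hgi t
  have h7 : ∀ ε : ℝ, 0 < ε → cjac * g t ≤ cjac * (β + ε) + ε + ε := by
    intro ε hε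
    refine le_of_tendsto hlim ?_
    filter_upwards [eventually_gt_atTop 0] with T hT
    exact key T hT ε hε
  have h9 : cjac * g t ≤ cjac * β := by
    refine le_of_forall_pos_le_add fun ε hε => ?_
    have h10 := h7 (ε / (cjac + 2)) (by positivity)
    have h11 : cjac * (β + ε / (cjac + 2)) + ε / (cjac + 2) + ε / (cjac + 2) = cjac * β + ε := by
      field_simp
      ring
    linarith
  exact le_of_mul_le_mul_left h9 hc

end Pool.Agent.QT
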