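import Pool.Agent.Helper96.QT.DefL

/-!
Block QTL5.  A primitive of the kernel of `conv_pole`: its transform is the transform of the kernel divided by `z`.
-/

namespace Pool.Agent.QT

open Real Filter Topology MeasureTheory Set DirichletCharacter

/-- `e^{-δ |y|}` is integrable. -/
private theorem int_abs {δ : ℝ} (hδ : 0 < δ) : Integrable fun y : ℝ => Real.exp (-(δ * |y|)) := by
  have h1 : IntegrableOn (fun y : ℝ => Real.exp (-(δ * |y|))) (Ioi 0) := by
    refine (integrableOn_exp_mul_Ioi (a := -δ) (by linarith) 0).congr_fun (fun y hy => ?_) measurableSet_Ioi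
    simp only [abs_of_pos (mem_Ioi.1 hy), neg_mul]
  have h2 : IntegrableOn (fun y : ℝ => Real.exp (-(δ * |y|))) (Iic 0) := by
    refine (integrableOn_exp_mul_Iic (a := δ) hδ 0).congr_fun (fun y hy => ?_) measurableSet_Iic
    simp only [abs_of_nonpos (mem_Iic.1 hy), mul_neg, neg_neg]
  rw [← integrableOn_univ, ← Iic_union_Ioi (a := (0 : ℝ))]
  exact h2.union h1

/-- from `conv_pole`: `k` has the transform `K`, then `h y = - int_y^infty k` has the transform `K z / z` for `re z < 0`. -/
theorem int_pole {k : ℝ → ℂ} (hk : Continuous k) {B₀ B₁ : ℂ} {c : ℝ} (h1 : ∀ y, ‖k y‖ ≤ c * Real.exp (-(|y| / 4)))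
    (h2 : ∀ y : ℝ, 0 ≤ y → ‖k y - Complex.exp (-(y / 2)) * (B₀ * y + B₁)‖ ≤ c * Real.exp (-y)) {K : ℂ → ℂ}
    (hK : ∀ z : ℂ, |z.re| < 1 / 4 → ∫ y : ℝ, Complex.exp (-z * y) * k y = K z) :
    ∃ (h : ℝ → ℂ) (A₀ A₁ : ℂ) (c' : ℝ), Continuous h ∧ (∀ y, ‖h y‖ ≤ c') ∧
      (∀ y : ℝ, 0 ≤ y → ‖h y‖ ≤ c' * Real.exp (-(y / 4))) ∧
      (∀ y : ℝ, 0 ≤ y → ‖h y - Complex.exp (-(y / 2)) * (A₀ * y + A₁)‖ ≤ c' * Real.exp (-y)) ∧
      ∀ z : ℂ, -(1 / 4) < z.re → z.re < 0 → ∫ y : ℝ, Complex.exp (-z * y) * h y = K z / z := by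
  have hc0 : 0 ≤ c := by
    have := h1 0
    have h3 := norm_nonneg (k 0)
    simp at this
    linarith
  have hki : Integrable k := by
    refine ((int_abs (δ := 1 / 4) (by norm_num)).const_mul c).mono' hk.aestronglyMeasurable (Eventually.of_forall fun y => ?_)
    refine (h1 y).trans (le_of_eq ?_)
    congr 2
    ring
  set h : ℝ → ℂ := fun y => (∫ v in (0 : ℝ)..y, k v) - ∫ v in Ioi (0 : ℝ), k v with hh
  have hyi : ∀ y : ℝ, h y = -∫ v in Ioi y, k v := by
    intro y
    have h3 := intervalIntegral.integral_interval_add_Ioi (μ := volume) (f := k) (a := 0) (b := y) hki.integrableOn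
      hki.integrableOn
    rw [hh]
    simp only
    rw [← h3]
    ring
  have hder : ∀ y : ℝ, HasDerivAt h (k y) y := by
    intro y
    exact (hk.integral_hasStrictDerivAt 0 y).hasDerivAt.sub_const _
  have hcont : Continuous h := continuous_iff_continuousAt.2 fun y => (hder y).continuousAt
  have hint_tot : ∀ y : ℝ, ‖h y‖ ≤ ∫ v, ‖k v‖ := by
    intro y
    rw [hyi, norm_neg]
    refine (norm_integral_le_integral_norm _).trans ?_
    exact setIntegral_le_integral hki.norm (Eventually.of_forall fun v => norm_nonneg _)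
  have hpos : ∀ y : ℝ, 0 ≤ y → ‖h y‖ ≤ 4 * c * Real.exp (-(y / 4)) := by
    intro y hy
    rw [hyi, norm_neg]
    have hE : IntegrableOn (fun v : ℝ => c * Real.exp (-(1 / 4) * v)) (Ioi y) :=
      (integrableOn_exp_mul_Ioi (a := -(1 / 4)) (by norm_num) y).const_mul c
    refine (norm_integral_le_integral_norm _).trans ((setIntegral_mono_on hki.norm.integrableOn hE measurableSet_Ioi
      fun v hv => ?_).trans (le_of_eq ?_))
    · refine (h1 v).trans (le_of_eq ?_)
      rw [abs_of_nonneg (hy.trans (mem_Ioi.1 hv).le)]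
      congr 2
      ring
    · rw [integral_const_mul, integral_exp_mul_Ioi (by norm_num)]
      have : -(1 / 4) * y = -(y / 4) := by ring
      rw [this]
      ring
  -- the expansion
  have hexp : ∀ y : ℝ, 0 ≤ y → ‖h y - Complex.exp (-(y / 2)) * (-2 * B₀ * y + -(4 * B₀ + 2 * B₁))‖ ≤ c * Real.exp (-y) := by
    intro y hy
    have hgd : ∀ v : ℝ, HasDerivAt (fun v : ℝ => Complex.exp (-(v / 2)) * (-2 * B₀ * v + -(4 * B₀ + 2 * B₁)))
        (Complex.exp (-(v / 2)) * (B₀ * v + B₁)) v := by
      intro v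
      have h4 : HasDerivAt (fun v : ℂ => Complex.exp (-(v / 2)) * (-2 * B₀ * v + -(4 * B₀ + 2 * B₁)))
          (Complex.exp (-(v / 2)) * (B₀ * v + B₁)) v := by
        have h5 : HasDerivAt (fun v : ℂ => Complex.exp (-(v / 2))) (Complex.exp (-(v / 2)) * (-(1 / 2))) v :=
          (((hasDerivAt_id (v : ℂ)).div_const 2).neg).cexp
        have h6 : HasDerivAt (fun v : ℂ => -2 * B₀ * v + -(4 * B₀ + 2 * B₁)) (-2 * B₀ * 1) v :=
          (((hasDerivAt_id (v : ℂ)).const_mul (-2 * B₀)).add_const _)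
        refine (h5.mul h6).congr_deriv ?_
        ring
      exact h4.comp_ofReal
    have hlim : Tendsto (fun v : ℝ => Complex.exp (-(v / 2)) * (-2 * B₀ * v + -(4 * B₀ + 2 * B₁))) atTop (𝓝 0) := by
      have e1 : Tendsto (fun v : ℝ => v ^ 1 * Real.exp (-v)) atTop (𝓝 0) := Real.tendsto_pow_mul_exp_neg_atTop_nhds_zero 1
      have e2 : Tendsto (fun v : ℝ => v / 2) atTop atTop := tendsto_id.atTop_div_const (by norm_num)
      have e3 : Tendsto (fun v : ℝ => (v / 2) ^ 1 * Real.exp (-(v / 2))) atTop (𝓝 0) := e1.comp e2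
      have e4 : Tendsto (fun v : ℝ => Real.exp (-(v / 2))) atTop (𝓝 0) := Real.tendsto_exp_neg_atTop_nhds_zero.comp e2
      have e5 : Tendsto (fun v : ℝ => (4 * ‖B₀‖) * ((v / 2) ^ 1 * Real.exp (-(v / 2))) +
          ‖4 * B₀ + 2 * B₁‖ * Real.exp (-(v / 2))) atTop (𝓝 0) := by
        simpa using (e3.const_mul (4 * ‖B₀‖)).add (e4.const_mul ‖4 * B₀ + 2 * B₁‖)
      refine squeeze_zero_norm' ?_ e5
      filter_upwards [eventually_ge_atTop (0 : ℝ)] with v hv
      rw [norm_mul, Complex.norm_exp]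
      have e6 : (-((v : ℂ) / 2)).re = -(v / 2) := by simp
      rw [e6]
      have e7 : ‖-2 * B₀ * (v : ℂ) + -(4 * B₀ + 2 * B₁)‖ ≤ 2 * ‖B₀‖ * v + ‖4 * B₀ + 2 * B₁‖ := by
        refine (norm_add_le _ _).trans ?_
        rw [norm_neg, norm_mul, norm_mul, norm_neg, Complex.norm_real, Real.norm_of_nonneg hv]
        simp
      calc Real.exp (-(v / 2)) * ‖-2 * B₀ * (v : ℂ) + -(4 * B₀ + 2 * B₁)‖
          ≤ Real.exp (-(v / 2)) * (2 * ‖B₀‖ * v + ‖4 * B₀ + 2 * B₁‖) :=
            mul_le_mul_of_nonneg_left e7 (Real.exp_pos _).le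
        _ = _ := by ring
    have hgi : IntegrableOn (fun v : ℝ => Complex.exp (-(v / 2)) * (B₀ * v + B₁)) (Ioi y) := by
      -- the difference with `k` is bounded by `c e^{-v}`
      have hE : IntegrableOn (fun v : ℝ => c * Real.exp (-1 * v)) (Ioi y) :=
        (integrableOn_exp_mul_Ioi (a := -1) (by norm_num) y).const_mul c
      have h5 : IntegrableOn (fun v : ℝ => k v - Complex.exp (-(v / 2)) * (B₀ * v + B₁)) (Ioi y) := by
        refine hE.mono' ?_ ?_
        · exact (by fun_prop : Continuous fun v : ℝ => k v - Complex.exp (-(v / 2)) * (B₀ * v + B₁)).aestronglyMeasurable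
        · rw [ae_restrict_iff' measurableSet_Ioi]
          refine Eventually.of_forall fun v hv => (h2 v (hy.trans (mem_Ioi.1 hv).le)).trans (le_of_eq ?_)
          congr 2
          ring
      have h6 := (hki.integrableOn (s := Ioi y)).sub h5
      refine h6.congr_fun (fun v _ => ?_) measurableSet_Ioi
      simp only [Pi.sub_apply]
      ring
    have hval := integral_Ioi_of_hasDerivAt_of_tendsto (a := y) (hgd y).continuousAt.continuousWithinAt
      (fun v _ => hgd v) hgi hlim
    have h7 : h y - Complex.exp (-(y / 2)) * (-2 * B₀ * y + -(4 * B₀ + 2 * B₁)) =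
        -∫ v in Ioi y, (k v - Complex.exp (-(v / 2)) * (B₀ * v + B₁)) := by
      rw [integral_sub hki.integrableOn hgi, hval, hyi]
      ring
    rw [h7, norm_neg]
    have hE : IntegrableOn (fun v : ℝ => c * Real.exp (-1 * v)) (Ioi y) :=
      (integrableOn_exp_mul_Ioi (a := -1) (by norm_num) y).const_mul c
    refine (norm_integral_le_integral_norm _).trans ((setIntegral_mono_on (hki.integrableOn.sub hgi).norm hE
      measurableSet_Ioi fun v hv => ?_).trans (le_of_eq ?_))
    · refine (h2 v (hy.trans (mem_Ioi.1 hv).le)).trans (le_of_eq ?_)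
      congr 2
      ring
    · rw [integral_const_mul, integral_exp_mul_Ioi (by norm_num)]
      rw [neg_one_mul]
      ring
  set c' : ℝ := 4 * c + ∫ v, ‖k v‖ with hc'
  have hI0 : 0 ≤ ∫ v, ‖k v‖ := integral_nonneg fun v => norm_nonneg _
  refine ⟨h, -2 * B₀, -(4 * B₀ + 2 * B₁), c', hcont, fun y => (hint_tot y).trans (by linarith), fun y hy => ?_,
    fun y hy => ?_, fun z hz1 hz2 => ?_⟩
  · exact (hpos y hy).trans (mul_le_mul_of_nonneg_right (by linarith) (Real.exp_pos _).le)
  · exact (hexp y hy).trans (mul_le_mul_of_nonneg_right (by linarith) (Real.exp_pos _).le)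
  -- the transform
  have hz0 : z ≠ 0 := by
    intro h0
    rw [h0] at hz2
    simp at hz2
  have hnorm : ∀ y : ℝ, ‖Complex.exp (-z * y)‖ = Real.exp (-z.re * y) := by
    intro y
    rw [Complex.norm_exp]
    congr 1
    simp
  obtain ⟨δ, hδ, hδ1, hδ2⟩ : ∃ δ : ℝ, 0 < δ ∧ δ ≤ -z.re ∧ δ ≤ 1 / 4 + z.re :=
    ⟨min (-z.re) (1 / 4 + z.re), lt_min (by linarith) (by linarith), min_le_left _ _, min_le_right _ _⟩
  have hb : ∀ y : ℝ, ‖Complex.exp (-z * y) * h y‖ ≤ c' * Real.exp (-(δ * |y|)) := by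
    intro y
    rw [norm_mul, hnorm]
    rcases le_total 0 y with hy | hy
    · rw [abs_of_nonneg hy]
      calc Real.exp (-z.re * y) * ‖h y‖ ≤ Real.exp (-z.re * y) * (c' * Real.exp (-(y / 4))) :=
            mul_le_mul_of_nonneg_left ((hpos y hy).trans
              (mul_le_mul_of_nonneg_right (by linarith) (Real.exp_pos _).le)) (Real.exp_pos _).le
        _ = c' * Real.exp (-z.re * y + -(y / 4)) := by rw [Real.exp_add]; ring
        _ ≤ c' * Real.exp (-(δ * y)) := by
            refine mul_le_mul_of_nonneg_left (Real.exp_le_exp.2 ?_) (by linarith)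
            nlinarith
    · rw [abs_of_nonpos hy]
      calc Real.exp (-z.re * y) * ‖h y‖ ≤ Real.exp (-z.re * y) * c' :=
            mul_le_mul_of_nonneg_left ((hint_tot y).trans (by linarith)) (Real.exp_pos _).le
        _ = c' * Real.exp (-z.re * y) := by ring
        _ ≤ c' * Real.exp (-(δ * -y)) := by
            refine mul_le_mul_of_nonneg_left (Real.exp_le_exp.2 ?_) (by linarith)
            nlinarith
  have hih : Integrable fun y : ℝ => Complex.exp (-z * y) * h y := by
    refine ((int_abs hδ).const_mul c').mono' ?_ (Eventually.of_forall hb)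
    exact (by fun_prop : Continuous fun y : ℝ => Complex.exp (-z * y) * h y).aestronglyMeasurable
  have hik : Integrable fun y : ℝ => Complex.exp (-z * y) * k y := by
    refine ((int_abs hδ).const_mul c).mono' ?_ (Eventually.of_forall fun y => ?_)
    · exact (by fun_prop : Continuous fun y : ℝ => Complex.exp (-z * y) * k y).aestronglyMeasurable
    · rw [norm_mul, hnorm]
      calc Real.exp (-z.re * y) * ‖k y‖ ≤ Real.exp (-z.re * y) * (c * Real.exp (-(|y| / 4))) :=
            mul_le_mul_of_nonneg_left (h1 y) (Real.exp_pos _).le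
        _ = c * Real.exp (-z.re * y + -(|y| / 4)) := by rw [Real.exp_add]; ring
        _ ≤ c * Real.exp (-(δ * |y|)) := by
            refine mul_le_mul_of_nonneg_left (Real.exp_le_exp.2 ?_) hc0
            have h5 : -z.re * y ≤ -z.re * |y| := mul_le_mul_of_nonneg_left (le_abs_self y) (by linarith)
            have h6 : δ * |y| ≤ (1 / 4 + z.re) * |y| := mul_le_mul_of_nonneg_right hδ2 (abs_nonneg y)
            nlinarith
  have hlim0 : ∀ l : Filter ℝ, Tendsto (fun y : ℝ => |y|) l atTop →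
      Tendsto (fun y : ℝ => -(Complex.exp (-z * y) * h y) / z) l (𝓝 0) := by
    intro l hl
    have e1 : Tendsto (fun y : ℝ => Real.exp (-(δ * |y|))) l (𝓝 0) :=
      Real.tendsto_exp_neg_atTop_nhds_zero.comp (hl.const_mul_atTop hδ)
    have e2 : Tendsto (fun y : ℝ => Complex.exp (-z * y) * h y) l (𝓝 0) := by
      refine squeeze_zero_norm hb ?_
      simpa using e1.const_mul c'
    simpa using (e2.neg).div_const z
  have hder2 : ∀ y : ℝ, HasDerivAt (fun y : ℝ => -(Complex.exp (-z * y) * h y) / z)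
      (Complex.exp (-z * y) * h y - Complex.exp (-z * y) * k y / z) y := by
    intro y
    have e1 : HasDerivAt (fun y : ℝ => Complex.exp (-z * y)) (Complex.exp (-z * y) * (-z)) y := by
      have e2 : HasDerivAt (fun w : ℂ => Complex.exp (-z * w)) (Complex.exp (-z * y) * (-z * 1)) (y : ℂ) :=
        ((hasDerivAt_id (y : ℂ)).const_mul (-z)).cexp
      rw [mul_one] at e2
      exact e2.comp_ofReal
    refine (((e1.mul (hder y)).neg).div_const z).congr_deriv ?_
    field_simp
    ring
  have hfin := integral_of_hasDerivAt_of_tendsto hder2 (hih.sub (hik.div_const z)) (hlim0 _ tendsto_abs_atBot_atTop)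
    (hlim0 _ tendsto_abs_atTop_atTop)
  rw [integral_sub hih (hik.div_const z), integral_div, hK z (by rw [abs_of_neg hz2]; linarith), sub_zero, sub_eq_zero] at hfin
  exact hfin

end Pool.Agent.QT
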