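import Pool.Agent.Helper12.QT.LapF
import Pool.Agent.Helper4.QT.Land
import Pool.Agent.Helper33.QT.Mean
import Pool.Agent.Helper1.QT.Gam
import Pool.Agent.Helper31.QT.Fe
import Pool.Agent.Helper85.QT.InvTr
import Pool.Agent.Helper8.QT.Pole
import Pool.Agent.Helper22.QT.Dual
import Pool.Agent.Helper58.QT.Bb
import Pool.Agent.Helper16.QT.BEval
import Pool.Agent.Helper31.QT.LOne

/-!
Block QT11.  The recurrence, assembled.
-/

namespace Pool.Agent.QT

open Real Filter Topology MeasureTheory Set DirichletCharacter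

/-- The derivative of a Laplace transform at `1/2`. -/
theorem laplace_deriv {F : ℝ → ℝ} (hm : Measurable F) (h0 : ∀ t < 0, F t = 0)
    (hFi : ∀ x : ℝ, 0 < x → Integrable (fun t : ℝ => Real.exp (-(x * t)) * F t)) :
    HasDerivAt (fun z : ℂ => ∫ t : ℝ, Complex.exp (-z * t) * (F t : ℂ))
      (-∫ t : ℝ, ((Real.exp (-(t / 2)) * (t * F t) : ℝ) : ℂ)) (1 / 2 : ℂ) := by
  have key := hasDerivAt_integral_of_dominated_loc_of_deriv_le (𝕜 := ℂ) (μ := volume)
    (F := fun (z : ℂ) (t : ℝ) => Complex.exp (-z * t) * (F t : ℂ))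
    (F' := fun (z : ℂ) (t : ℝ) => -(t : ℂ) * Complex.exp (-z * t) * (F t : ℂ)) (x₀ := (1 / 2 : ℂ))
    (s := Metric.ball (1 / 2 : ℂ) (1 / 8)) (bound := fun t : ℝ => 8 * |Real.exp (-(1 / 4 * t)) * F t|)
    (Metric.ball_mem_nhds _ (by norm_num)) ?_ ?_ ?_ ?_ ?_ ?_
  · have h1 := key.2
    have h2 : (∫ t : ℝ, -(t : ℂ) * Complex.exp (-(1 / 2 : ℂ) * t) * (F t : ℂ)) =
        -∫ t : ℝ, ((Real.exp (-(t / 2)) * (t * F t) : ℝ) : ℂ) := by
      rw [← integral_neg]
      congr 1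
      ext t
      push_cast
      rw [show -(1 / 2 : ℂ) * t = -(t / 2) by ring]
      ring
    rw [h2] at h1
    exact h1
  · refine Eventually.of_forall fun z => ?_
    have : Measurable fun t : ℝ => Complex.exp (-z * t) * (F t : ℂ) := by fun_prop
    exact this.aestronglyMeasurable
  · have h5 : Integrable (fun t : ℝ => ((Real.exp (-(1 / 2 * t)) * F t : ℝ) : ℂ)) := (hFi (1 / 2) (by norm_num)).ofReal
    refine h5.congr (ae_of_all _ fun t => ?_)
    simp only
    push_cast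
    congr 2
    ring
  · have : Measurable fun t : ℝ => -(t : ℂ) * Complex.exp (-(1 / 2 : ℂ) * t) * (F t : ℂ) := by fun_prop
    exact this.aestronglyMeasurable
  · refine ae_of_all _ fun t z hz => ?_
    rcases lt_or_ge t 0 with ht | ht
    · rw [h0 t ht]
      simp
    · have hre : 3 / 8 ≤ z.re := by
        rw [Metric.mem_ball, dist_eq_norm] at hz
        have h1 := (abs_le.1 ((Complex.abs_re_le_norm (z - 1 / 2)).trans hz.le)).1
        have h2 : (z - 1 / 2 : ℂ).re = z.re - 1 / 2 := by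
          rw [Complex.sub_re]
          norm_num
        rw [h2] at h1
        linarith
      rw [norm_mul, norm_mul, norm_neg, Complex.norm_real, Complex.norm_real, Complex.norm_exp]
      have h3 : (-z * (t : ℂ)).re = -(z.re * t) := by
        rw [neg_mul, Complex.neg_re, Complex.re_mul_ofReal]
      rw [h3, abs_mul, abs_of_pos (Real.exp_pos _), Real.norm_eq_abs, Real.norm_eq_abs, abs_of_nonneg ht, ← mul_assoc]
      refine mul_le_mul_of_nonneg_right ?_ (abs_nonneg _)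
      have h4 : t ≤ 8 * Real.exp (1 / 8 * t) := by
        have := Real.add_one_le_exp (1 / 8 * t)
        linarith
      calc t * Real.exp (-(z.re * t)) ≤ (8 * Real.exp (1 / 8 * t)) * Real.exp (-(3 / 8 * t)) := by
            refine mul_le_mul h4 (Real.exp_le_exp.2 ?_) (Real.exp_pos _).le (by positivity)
            nlinarith
        _ = 8 * Real.exp (-(1 / 4 * t)) := by
            rw [mul_assoc, ← Real.exp_add]
            congr 2
            ring
  · exact (hFi (1 / 4) (by norm_num)).norm.const_mul 8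
  · refine ae_of_all _ fun t z _ => ?_
    have h1 : HasDerivAt (fun z : ℂ => -z * (t : ℂ)) (-1 * (t : ℂ)) z := ((hasDerivAt_id z).neg).mul_const _
    have h2 := (h1.cexp).mul_const (F t : ℂ)
    refine h2.congr_deriv ?_
    ring

/-- the transforms at `1/2` -/
private theorem at_half {q : ℕ} [NeZero q] {χ : DirichletCharacter ℂ q} {a : ℕ → ℝ} {σ C : ℝ} (h : Hyp χ a σ C) :
    |∫ t : ℝ, Real.exp (-(t / 2)) * FF a t| = ‖GG χ (1 / 2)‖ ∧
      |∫ t : ℝ, Real.exp (-(t / 2)) * (t * FF a t)| = ‖deriv (GG χ) (1 / 2)‖ := by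
  obtain ⟨hFi, hL, -⟩ := landau h
  have hm := measurable_FF a
  have h0 : ∀ t < 0, FF a t = 0 := fun t ht => by unfold FF; rw [if_neg (not_le.2 ht)]
  constructor
  · rw [← (hL (1 / 2) (by norm_num)).2, ← Real.norm_eq_abs, ← Complex.norm_real]
    congr 1
    rw [← integral_complex_ofReal]
    congr 1
    ext t
    push_cast
    congr 2
    ring
  · have h1 := laplace_deriv hm h0 hFi
    have h2 : (fun z : ℂ => ∫ t : ℝ, Complex.exp (-z * t) * (FF a t : ℂ)) =ᶠ[𝓝 (1 / 2 : ℂ)] GG χ := by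
      have hopen : IsOpen {z : ℂ | 0 < z.re} := isOpen_lt continuous_const Complex.continuous_re
      filter_upwards [hopen.mem_nhds (show (1 / 2 : ℂ) ∈ {z : ℂ | 0 < z.re} by norm_num)] with z hz
      exact (hL z hz).2
    rw [(h1.congr_of_eventuallyEq h2.symm).deriv, norm_neg, integral_complex_ofReal, Complex.norm_real, Real.norm_eq_abs]

/-- value at `log (n + 1/2)` -/
theorem FF_at (a : ℕ → ℝ) (n : ℕ) (hn : 1 ≤ n) :
    FF a (Real.log (n + 1 / 2)) * Real.sqrt (n + 1 / 2) = mS a n := by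
  have hn1 : (1 : ℝ) ≤ n := by exact_mod_cast hn
  have hp : (0 : ℝ) < n + 1 / 2 := by linarith
  have hl : 0 ≤ Real.log ((n : ℝ) + 1 / 2) := Real.log_nonneg (by linarith)
  unfold FF
  rw [if_pos hl, Real.exp_log hp]
  have h1 : Real.exp (-(Real.log ((n : ℝ) + 1 / 2) / 2)) * Real.sqrt (n + 1 / 2) = 1 := by
    rw [Real.exp_neg, Real.exp_half, Real.exp_log hp, inv_mul_cancel₀ (Real.sqrt_pos.2 hp).ne']
  have h2 : mS a ((n : ℝ) + 1 / 2) = mS a n := by
    unfold mS
    have h3 : ⌊(n : ℝ) + 1 / 2⌋₊ = n := by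
      rw [Nat.floor_eq_iff hp.le]
      constructor
      · linarith
      · linarith
    rw [h3, Nat.floor_natCast]
  rw [h2, mul_right_comm, h1, one_mul]

private theorem ue_le (u : ℝ) : u * Real.exp (-(u / 2)) ≤ 1 := by
  have h1 := Real.add_one_le_exp (u / 2 - 1)
  have h2 : u / 2 ≤ Real.exp (u / 2 - 1) := by linarith
  have h3 : u * Real.exp (-(u / 2)) ≤ 2 * Real.exp (-1) := by
    calc u * Real.exp (-(u / 2)) = 2 * (u / 2 * Real.exp (-(u / 2))) := by ring
      _ ≤ 2 * (Real.exp (u / 2 - 1) * Real.exp (-(u / 2))) := by gcongr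
      _ = 2 * Real.exp (-1) := by rw [← Real.exp_add]; congr 2; ring
  have h4 : 2 * Real.exp (-1) ≤ 1 := by
    have h5 := Real.add_one_le_exp (1 : ℝ)
    have h6 : Real.exp (-1) * Real.exp 1 = 1 := by rw [← Real.exp_add]; simp
    nlinarith [Real.exp_pos (-1 : ℝ)]
  linarith

/-- The dual side for one parity: kernel, constants. -/
private theorem kern (ev : Bool) {d : ℝ} (hd : 0 < d) : ∃ (h : ℝ → ℂ) (A₀ A₁ : ℂ) (c : ℝ), Continuous h ∧
    (∀ y, ‖h y‖ ≤ c * Real.exp (-(|y| / 4))) ∧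
      (∀ y : ℝ, 0 ≤ y → ‖h y - Complex.exp (-(y / 2)) * (A₀ * y + A₁)‖ ≤ c * Real.exp (-y)) ∧
      ∀ z : ℂ, |z.re| < 1 / 4 → ∫ y : ℝ, Complex.exp (-z * y) * h y = SS ev d z / (1 / 2 + z) ^ 2 := by
  obtain ⟨c, hc⟩ := SS_bound ev hd
  obtain ⟨s, hs, hs1, hs2⟩ := inv_tr (fun z hz => SS_diff ev d hz) hc
  exact conv_pole hs hs1 hs2

/-- **Block QT11.** -/
theorem recur (C η : ℝ) (hη : 0 < η) (X : ℕ) : ∃ q₀ : ℕ, ∀ (q : ℕ) [NeZero q], q₀ ≤ q →
    ∀ (χ : DirichletCharacter ℂ q) (a : ℕ → ℝ) (σ : ℝ), Hyp χ a σ C →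
      ∀ n : ℕ, 1 ≤ n → n ≤ X → σ * mS a n ≤ (C + η) * Real.sqrt (n + 1 / 2) := by
  obtain ⟨d, hd, hbe⟩ := b_eval X (η := η / 4) (by positivity)
  choose h A₀ A₁ c hc h1 h2 h3 using fun ev => kern ev hd
  -- a common bound for the constants
  have hc0 : ∀ ev, 0 ≤ c ev := fun ev => by
    have := (norm_nonneg _).trans (h1 ev 0)
    simpa using this
  obtain ⟨K, hK⟩ : ∃ K : ℝ, K = 1 + ∑ ev : Bool, (‖A₀ ev‖ + ‖A₁ ev‖ + c ev) := ⟨_, rfl⟩
  have hKe : ∀ ev, ‖A₀ ev‖ + ‖A₁ ev‖ + c ev ≤ K := by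
    intro ev
    have := Finset.single_le_sum (f := fun ev : Bool => ‖A₀ ev‖ + ‖A₁ ev‖ + c ev)
      (fun i _ => add_nonneg (add_nonneg (norm_nonneg _) (norm_nonneg _)) (hc0 i)) (Finset.mem_univ ev)
    rw [hK]
    linarith
  have hK0 : 0 < K := by
    rw [hK]
    have : 0 ≤ ∑ ev : Bool, (‖A₀ ev‖ + ‖A₁ ev‖ + c ev) :=
      Finset.sum_nonneg fun i _ => add_nonneg (add_nonneg (norm_nonneg _) (norm_nonneg _)) (hc0 i)
    linarith
  obtain ⟨q₁, hq₁⟩ := L1 (η := η / (16 * K)) (by positivity)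
  obtain ⟨q₂, hq₂⟩ := exists_nat_gt (16 * K / η)
  refine ⟨max q₁ q₂, fun q _ hq χ a σ hyp n hn hnX => ?_⟩
  have hL1 := hq₁ q ((le_max_left _ _).trans hq) χ hyp.dat.sq hyp.dat.ne
  have hqr : 16 * K / η < (q : ℝ) := hq₂.trans_le (by exact_mod_cast (le_max_right _ _).trans hq)
  have hq0 : (0 : ℝ) < q := lt_of_le_of_lt (by positivity) hqr
  have hq1 : (1 : ℝ) ≤ q := by
    have : 0 < q := by exact_mod_cast hq0
    exact_mod_cast this
  have hΛ : 0 ≤ Real.log q := Real.log_nonneg hq1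
  have hm := measurable_FF a
  have h0 : ∀ t < 0, FF a t = 0 := fun t ht => by unfold FF; rw [if_neg (not_le.2 ht)]
  have hF := abs_FF_le hyp.dat
  obtain ⟨hFi, hL, -⟩ := landau hyp
  obtain ⟨hFw, hsimple⟩ := mean hyp
  obtain ⟨hI0, hI1⟩ := at_half hyp
  obtain ⟨ε, ev, hε, hfe⟩ := fe hyp.dat
  obtain ⟨hDc, hDi, hDe, hDL, hDb⟩ := D_props hm h0 hF hFi hFw (hc ev) (h1 ev) (h2 ev) hΛ
  obtain ⟨hbc, hbi, hbx, hbL, hbl⟩ := b_props hm h0 hF hFi hFw hd
  have hσ : |σ| = 1 := by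
    rcases hyp.sg with h | h <;> simp [h]
  have hσc : ‖(σ : ℂ)‖ = 1 := by rw [Complex.norm_real]; exact hσ
  have hDb' : ∀ u : ℝ, 0 ≤ u → ‖DD (h ev) (Real.log q) (FF a) u‖ ≤ η / 2 := by
    intro u hu
    refine (hDb u hu).trans ?_
    rw [hI0, hI1]
    have e1 : Real.exp (-((u + Real.log q) / 2)) = Real.exp (-(u / 2)) * (q : ℝ) ^ (-(1 / 2) : ℝ) := by
      rw [Real.rpow_def_of_pos hq0, ← Real.exp_add]
      congr 1
      ring
    have e2 : Real.exp (-(u + Real.log q)) ≤ 1 / q := by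
      rw [neg_add, Real.exp_add, Real.exp_neg (Real.log q), Real.exp_log hq0, one_div]
      have : Real.exp (-u) ≤ 1 := by rw [Real.exp_le_one_iff]; linarith
      have h5 : 0 ≤ (q : ℝ)⁻¹ := by positivity
      nlinarith
    have e3 := ue_le u
    have e4 : Real.exp (-(u / 2)) ≤ 1 := by rw [Real.exp_le_one_iff]; linarith
    have e5 := Real.exp_pos (-(u / 2))
    have hK1 := hKe ev
    have n0 := norm_nonneg (A₀ ev)
    have n1 := norm_nonneg (A₁ ev)
    have n2 := hc0 ev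
    have hqp : 0 < (q : ℝ) ^ (-(1 / 2) : ℝ) := by positivity
    have g0 := norm_nonneg (GG χ (1 / 2))
    have g1 := norm_nonneg (deriv (GG χ) (1 / 2))
    have f1 : Real.exp (-(u / 2)) * (‖A₀ ev‖ * (u + Real.log q) + ‖A₁ ev‖) ≤ 2 * K * (Real.log q + 1) := by
      have f2 : Real.exp (-(u / 2)) * (u + Real.log q) ≤ 1 + Real.log q := by nlinarith
      have f3 : Real.exp (-(u / 2)) * (‖A₀ ev‖ * (u + Real.log q) + ‖A₁ ev‖) =
          ‖A₀ ev‖ * (Real.exp (-(u / 2)) * (u + Real.log q)) + ‖A₁ ev‖ * Real.exp (-(u / 2)) := by ring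
      rw [f3]
      have f4 : ‖A₀ ev‖ * (Real.exp (-(u / 2)) * (u + Real.log q)) ≤ K * (1 + Real.log q) :=
        mul_le_mul (by linarith) f2 (by positivity) hK0.le
      have f5 : ‖A₁ ev‖ * Real.exp (-(u / 2)) ≤ K * 1 := mul_le_mul (by linarith) e4 e5.le hK0.le
      nlinarith
    have f6 : Real.exp (-(u / 2)) * ‖A₀ ev‖ ≤ K := by nlinarith
    have f7 : 2 * K * (Real.log q + 1) * ((q : ℝ) ^ (-(1 / 2) : ℝ) * ‖GG χ (1 / 2)‖) ≤ η / 8 := by
      have := hL1.1
      rw [le_div_iff₀ (by positivity)] at this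
      nlinarith
    have f8 : K * ((q : ℝ) ^ (-(1 / 2) : ℝ) * ‖deriv (GG χ) (1 / 2)‖) ≤ η / 16 := by
      have := hL1.2
      rw [le_div_iff₀ (by positivity)] at this
      nlinarith
    have f9 : 2 * c ev * Real.exp (-(u + Real.log q)) ≤ η / 8 := by
      have f10 : K / q ≤ η / 16 := by
        rw [div_le_div_iff₀ hq0 (by norm_num)]
        rw [div_lt_iff₀ hη] at hqr
        linarith
      calc 2 * c ev * Real.exp (-(u + Real.log q)) ≤ 2 * K * (1 / q) := by
            refine mul_le_mul (by linarith) e2 (Real.exp_pos _).le (by positivity)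
        _ = 2 * (K / q) := by ring
        _ ≤ η / 8 := by linarith
    rw [e1]
    have f11 : Real.exp (-(u / 2)) * (q : ℝ) ^ (-(1 / 2) : ℝ) *
        ((‖A₀ ev‖ * (u + Real.log q) + ‖A₁ ev‖) * ‖GG χ (1 / 2)‖ + ‖A₀ ev‖ * ‖deriv (GG χ) (1 / 2)‖) =
        (Real.exp (-(u / 2)) * (‖A₀ ev‖ * (u + Real.log q) + ‖A₁ ev‖)) * ((q : ℝ) ^ (-(1 / 2) : ℝ) * ‖GG χ (1 / 2)‖) +
          (Real.exp (-(u / 2)) * ‖A₀ ev‖) * ((q : ℝ) ^ (-(1 / 2) : ℝ) * ‖deriv (GG χ) (1 / 2)‖) := by ring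
    rw [f11]
    have f12 := mul_le_mul_of_nonneg_right f1 (by positivity : 0 ≤ (q : ℝ) ^ (-(1 / 2) : ℝ) * ‖GG χ (1 / 2)‖)
    have f13 := mul_le_mul_of_nonneg_right f6 (by positivity : 0 ≤ (q : ℝ) ^ (-(1 / 2) : ℝ) * ‖deriv (GG χ) (1 / 2)‖)
    linarith
  -- decay at infinity
  have hD0 : Tendsto (DD (h ev) (Real.log q) (FF a)) atTop (𝓝 0) := by
    obtain ⟨B, hB⟩ : ∃ B : ℝ, B = (‖A₀ ev‖ + ‖A₁ ev‖) * |∫ t : ℝ, Real.exp (-(t / 2)) * FF a t| +
        ‖A₀ ev‖ * |∫ t : ℝ, Real.exp (-(t / 2)) * (t * FF a t)| + 2 * c ev := ⟨_, rfl⟩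
    have hlim : Tendsto (fun u : ℝ => B * ((u + Real.log q + 1) * Real.exp (-((u + Real.log q) / 2)))) atTop (𝓝 (B * 0)) := by
      refine Tendsto.const_mul B ?_
      have k1 : Tendsto (fun v : ℝ => (2 * v + 1) * Real.exp (-v)) atTop (𝓝 0) := by
        have k2 := (Real.tendsto_pow_mul_exp_neg_atTop_nhds_zero 1).const_mul 2
        have k3 := k2.add (Real.tendsto_exp_neg_atTop_nhds_zero)
        simp only [mul_zero, add_zero, pow_one] at k3
        refine k3.congr fun v => ?_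
        ring
      have k4 : Tendsto (fun u : ℝ => (u + Real.log q) / 2) atTop atTop :=
        (tendsto_atTop_add_const_right _ _ tendsto_id).atTop_div_const (by norm_num)
      refine (k1.comp k4).congr fun u => ?_
      simp only [Function.comp]
      congr 1
      ring
    rw [mul_zero] at hlim
    rw [tendsto_zero_iff_norm_tendsto_zero]
    refine tendsto_of_tendsto_of_tendsto_of_le_of_le' tendsto_const_nhds hlim
      (Eventually.of_forall fun u => norm_nonneg _) ?_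
    filter_upwards [eventually_ge_atTop 0] with u hu
    refine (hDb u hu).trans ?_
    have hv : 0 ≤ u + Real.log q := by linarith
    have e1 : Real.exp (-(u + Real.log q)) ≤ (u + Real.log q + 1) * Real.exp (-((u + Real.log q) / 2)) := by
      calc Real.exp (-(u + Real.log q)) ≤ Real.exp (-((u + Real.log q) / 2)) := by
            apply Real.exp_le_exp.2
            linarith
        _ ≤ _ := le_mul_of_one_le_left (Real.exp_pos _).le (by linarith)
    have e2 : ‖A₀ ev‖ * (u + Real.log q) + ‖A₁ ev‖ ≤ (‖A₀ ev‖ + ‖A₁ ev‖) * (u + Real.log q + 1) := by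
      nlinarith [norm_nonneg (A₀ ev), norm_nonneg (A₁ ev), mul_nonneg (norm_nonneg (A₁ ev)) hv]
    have e3 : ‖A₀ ev‖ ≤ ‖A₀ ev‖ * (u + Real.log q + 1) := le_mul_of_one_le_right (norm_nonneg _) (by linarith)
    have g0 := abs_nonneg (∫ t : ℝ, Real.exp (-(t / 2)) * FF a t)
    have g1 := abs_nonneg (∫ t : ℝ, Real.exp (-(t / 2)) * (t * FF a t))
    have e4 := Real.exp_pos (-((u + Real.log q) / 2))
    have e5 := mul_le_mul_of_nonneg_right e2 g0
    have e6 := mul_le_mul_of_nonneg_right e3 g1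
    have e7 := mul_le_mul_of_nonneg_left (add_le_add e5 e6) e4.le
    have e8 := mul_le_mul_of_nonneg_left e1 (by linarith [hc0 ev] : 0 ≤ 2 * c ev)
    rw [hB]
    calc _ ≤ Real.exp (-((u + Real.log q) / 2)) *
          ((‖A₀ ev‖ + ‖A₁ ev‖) * (u + Real.log q + 1) * |∫ t : ℝ, Real.exp (-(t / 2)) * FF a t| +
            ‖A₀ ev‖ * (u + Real.log q + 1) * |∫ t : ℝ, Real.exp (-(t / 2)) * (t * FF a t)|) +
          2 * c ev * ((u + Real.log q + 1) * Real.exp (-((u + Real.log q) / 2))) := add_le_add e7 e8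
      _ = _ := by ring
  -- the general lemma
  have hgl := gl hyp.dat.ne hsimple
    (N := fun z => (σ : ℂ) * (Complex.exp ((d : ℂ) ^ 2 * z ^ 2 / 2) / (1 / 2 + z)))
    (b := fun u => (σ : ℂ) * (bb d (FF a) u : ℂ)) (D := fun u => -((σ : ℂ) * ε) * DD (h ev) (Real.log q) (FF a) u)
    (β := C + η / 4) ?_ ?_ ?_ ?_ ?_ ?_ ?_ ?_ ?_ ?_ ?_ ?_ (Real.log (n + 1 / 2))
  · have hn1 : (1 : ℝ) ≤ n := by exact_mod_cast hn
    have hl : 0 ≤ Real.log ((n : ℝ) + 1 / 2) := Real.log_nonneg (by linarith)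
    have hp : (0 : ℝ) < n + 1 / 2 := by linarith
    have e1 := hbe a (fun m => by
      have h5 : ‖(a m : ℂ)‖ ≤ 1 := by
        rw [hyp.dat.eq m, norm_mul]
        refine mul_le_one₀ (DirichletCharacter.norm_le_one χ _) (norm_nonneg _) ?_
        exact Pool.Agent.H62.norm_moebius_le m
      rwa [Complex.norm_real, Real.norm_eq_abs] at h5) n hn hnX
    have e2 := hDb' _ hl
    have e3 : (-((σ : ℂ) * ε) * DD (h ev) (Real.log q) (FF a) (Real.log (n + 1 / 2))).re ≥ -(η / 2) := by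
      have e4 := (abs_le.1 (Complex.abs_re_le_norm (-((σ : ℂ) * ε) * DD (h ev) (Real.log q) (FF a) (Real.log (n + 1 / 2))))).1
      rw [norm_mul, norm_neg, norm_mul, hσc, hε, one_mul, one_mul] at e4
      linarith
    have e5 : ((σ : ℂ) * (bb d (FF a) (Real.log (n + 1 / 2)) : ℂ)).re = σ * bb d (FF a) (Real.log (n + 1 / 2)) := by
      rw [Complex.re_ofReal_mul, Complex.ofReal_re]
    simp only [Complex.add_re] at hgl
    rw [e5] at hgl
    have e6 : σ * FF a (Real.log (n + 1 / 2)) ≤ σ * bb d (FF a) (Real.log (n + 1 / 2)) + η / 4 := by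
      have e7 : |σ * (bb d (FF a) (Real.log (n + 1 / 2)) - FF a (Real.log (n + 1 / 2)))| ≤ η / 4 := by
        rw [abs_mul, hσ, one_mul]
        exact e1
      have := (abs_le.1 e7).1
      linarith
    have e8 : σ * FF a (Real.log (n + 1 / 2)) ≤ C + η := by linarith
    rw [← FF_at a n hn, ← mul_assoc]
    exact mul_le_mul_of_nonneg_right e8 (Real.sqrt_nonneg _)
  · intro z hz
    have hne : (1 / 2 + z : ℂ) ≠ 0 := by
      intro h5
      have := congrArg Complex.re h5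
      rw [Complex.add_re, Complex.zero_re] at this
      norm_num at this
      rw [abs_lt] at hz
      linarith
    fun_prop (disch := exact hne)
  · fun_prop
  · fun_prop
  · exact continuous_const.mul hDc
  · have h5 : Integrable (fun u : ℝ => ((bb d (FF a) u * (1 + u ^ 2)⁻¹ : ℝ) : ℂ)) := hbi.ofReal
    refine (h5.const_mul (σ : ℂ)).congr (ae_of_all _ fun u => ?_)
    simp only
    push_cast
    ring
  · refine (hDi.const_mul (-((σ : ℂ) * ε))).congr (ae_of_all _ fun u => ?_)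
    simp only
    ring
  · intro δ hδ _
    have h5 : Integrable (fun u : ℝ => ((Real.exp (-(δ * u)) * bb d (FF a) u : ℝ) : ℂ)) := (hbx δ hδ).ofReal
    refine (h5.const_mul (σ : ℂ)).congr (ae_of_all _ fun u => ?_)
    simp only
    push_cast
    rw [show -(δ : ℂ) * u = -(δ * u) by ring]
    ring
  · intro δ hδ hδ2
    refine ((hDe δ hδ hδ2).const_mul (-((σ : ℂ) * ε))).congr (ae_of_all _ fun u => ?_)
    simp only
    ring
  · intro z hz _
    have e1 : (fun t : ℝ => Complex.exp (-z * t) * ((σ : ℂ) * (bb d (FF a) t : ℂ))) =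
        fun t : ℝ => (σ : ℂ) * (Complex.exp (-z * t) * (bb d (FF a) t : ℂ)) := by
      ext t
      ring
    rw [e1, integral_const_mul, hbL z hz, (hL z hz).2]
    unfold GG
    rw [one_div, mul_inv]
    ring
  · intro z hz1 hz2
    have hz3 : |z.re| < 1 / 4 := by rw [abs_lt]; constructor <;> linarith
    have e1 : (fun t : ℝ => Complex.exp (-z * t) * (-((σ : ℂ) * ε) * DD (h ev) (Real.log q) (FF a) t)) =
        fun t : ℝ => (-((σ : ℂ) * ε)) * (Complex.exp (-z * t) * DD (h ev) (Real.log q) (FF a) t) := by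
      ext t
      ring
    have e2 : (∫ t : ℝ, Complex.exp (z * t) * (FF a t : ℂ)) = GG χ (-z) := by
      rw [← (hL (-z) (by rw [Complex.neg_re]; linarith)).2]
      congr 1
      ext t
      rw [neg_neg]
    rw [e1, integral_const_mul, hDL z hz1 hz2, e2, h3 ev z hz3, mul_div_assoc,
      hfe d z (hz3.trans (by norm_num))]
    ring
  · filter_upwards [hbl σ C (η / 4) (by positivity) hyp.bd] with u hu
    rw [Complex.re_ofReal_mul, Complex.ofReal_re]
    exact hu
  · have := hD0.const_mul (-((σ : ℂ) * ε))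
    rwa [mul_zero] at this

end Pool.Agent.QT
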