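import Pool.Agent.Helper96.QT.Rec
import Pool.Agent.Helper74.QT.FinModel
import Pool.Agent.Helper79.QT.QChar
import Pool.Agent.Helper95.QT.Patt

/-!
Block QT15.  From the recurrence, the random model and the equidistribution of the patterns to the density statement.
-/

namespace Pool.Agent.QT

open Real Filter Topology MeasureTheory Set DirichletCharacter

/-- `a n = mu(n) (n/q)` -/
noncomputable def aq (q n : ℕ) : ℝ := (ArithmeticFunction.moebius n : ℝ) * (jacobiSym n q : ℝ)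

/-- the property of `q` that holds for almost all primes -/
def Good (C : ℝ) (q : ℕ) : Prop :=
  (∀ x₀ : ℝ, ∃ x : ℝ, x₀ ≤ x ∧ C * Real.sqrt x < mS (aq q) x) ∧
    ((∀ x₀ : ℝ, ∃ x : ℝ, x₀ ≤ x ∧ mS (aq q) x < -(C * Real.sqrt x)) ∨
      ∃ (_ : NeZero q) (χ : DirichletCharacter ℂ q) (β : ℝ), (∀ n : ℕ, χ n = (jacobiSym n q : ℂ)) ∧
        1 / 2 ≤ β ∧ β < 1 ∧ LFunction χ β = 0)

/-- If `σ M(x) ≤ C √x` fails for arbitrarily large `t`, it fails for arbitrarily large `x`. -/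
theorem unbdd {a : ℕ → ℝ} {σ C : ℝ} (h : ¬∃ t₁ : ℝ, ∀ t : ℝ, t₁ ≤ t → σ * FF a t ≤ C) (x₀ : ℝ) :
    ∃ x : ℝ, x₀ ≤ x ∧ C * Real.sqrt x < σ * mS a x := by
  push Not at h
  obtain ⟨t, ht, h1⟩ := h (max 0 (Real.log (max x₀ 1)))
  have ht0 : 0 ≤ t := (le_max_left _ _).trans ht
  have ht1 : Real.log (max x₀ 1) ≤ t := (le_max_right _ _).trans ht
  refine ⟨Real.exp t, ?_, ?_⟩
  · have h2 : (0 : ℝ) < max x₀ 1 := lt_of_lt_of_le one_pos (le_max_right _ _)
    calc x₀ ≤ max x₀ 1 := le_max_left _ _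
      _ = Real.exp (Real.log (max x₀ 1)) := (Real.exp_log h2).symm
      _ ≤ Real.exp t := Real.exp_le_exp.2 ht1
  · unfold FF at h1
    rw [if_pos ht0] at h1
    have h3 : Real.sqrt (Real.exp t) = Real.exp (t / 2) := by rw [← Real.exp_half]
    rw [h3]
    have h4 : σ * mS a (Real.exp t) = (σ * (Real.exp (-(t / 2)) * mS a (Real.exp t))) * Real.exp (t / 2) := by
      have h5 : Real.exp (-(t / 2)) * Real.exp (t / 2) = 1 := by rw [← Real.exp_add]; simp
      calc σ * mS a (Real.exp t) = σ * mS a (Real.exp t) * 1 := (mul_one _).symm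
        _ = σ * mS a (Real.exp t) * (Real.exp (-(t / 2)) * Real.exp (t / 2)) := by rw [h5]
        _ = _ := by ring
    rw [h4]
    exact mul_lt_mul_of_pos_right h1 (Real.exp_pos _)

/-- A prime whose pattern reaches `± C' √n` in the squarefree model is good. -/
private theorem good_of {C : ℝ} (hC : 0 ≤ C) {X q : ℕ} (hq : q.Prime) (hq2 : 2 < q) (hXq : X < q)
    (hrec : ∀ [NeZero q] (χ : DirichletCharacter ℂ q) (a : ℕ → ℝ) (σ : ℝ), Hyp χ a σ C →
      ∀ n : ℕ, 1 ≤ n → n ≤ X → σ * mS a n ≤ (C + 1) * Real.sqrt (n + 1 / 2))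
    (h1 : ∃ n ∈ Finset.Icc 1 X, 2 * (C + 1) * Real.sqrt n ≤ ∑ m ∈ Finset.Icc 1 n, PM (pat X q) m)
    (h2 : ∃ n ∈ Finset.Icc 1 X, ∑ m ∈ Finset.Icc 1 n, PM (pat X q) m ≤ -(2 * (C + 1) * Real.sqrt n)) : Good C q := by
  obtain ⟨hne, χ, hdat, hχ⟩ := quad_char q hq hq2
  have hdat' : Dat χ (aq q) := hdat
  have hsum : ∀ n ∈ Finset.Icc 1 X, ∑ m ∈ Finset.Icc 1 n, PM (pat X q) m = mS (aq q) n := by
    intro n hn
    unfold mS
    rw [Nat.floor_natCast]
    refine Finset.sum_congr rfl fun m hm => ?_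
    exact PM_eq X q hq hXq m (Finset.mem_Icc.1 hm).1 ((Finset.mem_Icc.1 hm).2.trans (Finset.mem_Icc.1 hn).2)
  -- `(C+1) √(n+1/2) < 2 (C+1) √n`
  have hsq : ∀ n : ℕ, 1 ≤ n → (C + 1) * Real.sqrt (n + 1 / 2) < 2 * (C + 1) * Real.sqrt n := by
    intro n hn
    have hn1 : (1 : ℝ) ≤ n := by exact_mod_cast hn
    have h3 : Real.sqrt ((n : ℝ) + 1 / 2) < 2 * Real.sqrt n := by
      rw [show 2 * Real.sqrt (n : ℝ) = Real.sqrt (4 * n) by
        rw [Real.sqrt_mul (by norm_num), show (4 : ℝ) = 2 ^ 2 by norm_num, Real.sqrt_sq (by norm_num)]]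
      apply Real.sqrt_lt_sqrt (by linarith)
      linarith
    nlinarith
  have hnot : ∀ σ : ℝ, (σ = 1 ∨ σ = -1) → (∃ n ∈ Finset.Icc 1 X, 2 * (C + 1) * Real.sqrt n ≤ σ * mS (aq q) n) →
      ¬Hyp χ (aq q) σ C := by
    intro σ _ ⟨n, hn, h4⟩ hyp
    have h5 := hrec χ (aq q) σ hyp n (Finset.mem_Icc.1 hn).1 (Finset.mem_Icc.1 hn).2
    have h6 := hsq n (Finset.mem_Icc.1 hn).1
    linarith
  constructor
  · intro x₀
    have h3 := hnot 1 (Or.inl rfl) (by
      obtain ⟨n, hn, h4⟩ := h1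
      rw [hsum n hn] at h4
      exact ⟨n, hn, by rw [one_mul]; exact h4⟩)
    have h4 : ¬∃ t₁ : ℝ, ∀ t : ℝ, t₁ ≤ t → 1 * FF (aq q) t ≤ C := by
      intro h5
      exact h3 ⟨hdat', Or.inl rfl, fun h => absurd h (by norm_num), h5⟩
    obtain ⟨x, hx, h5⟩ := unbdd h4 x₀
    exact ⟨x, hx, by rwa [one_mul] at h5⟩
  · by_cases hz : ∀ β : ℝ, 1 / 2 ≤ β → β < 1 → LFunction χ β ≠ 0
    · left
      intro x₀
      have h3 := hnot (-1) (Or.inr rfl) (by
        obtain ⟨n, hn, h4⟩ := h2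
        rw [hsum n hn] at h4
        exact ⟨n, hn, by linarith⟩)
      have h4 : ¬∃ t₁ : ℝ, ∀ t : ℝ, t₁ ≤ t → (-1) * FF (aq q) t ≤ C := by
        intro h5
        exact h3 ⟨hdat', Or.inr rfl, fun _ => hz, h5⟩
      obtain ⟨x, hx, h5⟩ := unbdd h4 x₀
      exact ⟨x, hx, by linarith⟩
    · right
      push Not at hz
      obtain ⟨β, hβ1, hβ2, hβ3⟩ := hz
      exact ⟨hne, χ, β, hχ, hβ1, hβ2, hβ3⟩

private def reach (C : ℝ) (X : ℕ) (T : Finset ℕ) : Prop :=
  (∃ n ∈ Finset.Icc 1 X, C * Real.sqrt n ≤ ∑ m ∈ Finset.Icc 1 n, PM T m) ∧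
      ∃ n ∈ Finset.Icc 1 X, ∑ m ∈ Finset.Icc 1 n, PM T m ≤ -(C * Real.sqrt n)

private theorem finite_model' (C η : ℝ) (hη : 0 < η) : ∃ X : ℕ, ∃ B : Finset (Finset ℕ), B ⊆ (PX X).powerset ∧
    (∀ T ∈ (PX X).powerset, T ∉ B → (∃ n ∈ Finset.Icc 1 X, C * Real.sqrt n ≤ ∑ m ∈ Finset.Icc 1 n, PM T m) ∧
      ∃ n ∈ Finset.Icc 1 X, ∑ m ∈ Finset.Icc 1 n, PM T m ≤ -(C * Real.sqrt n)) ∧
      (B.card : ℝ) ≤ η * 2 ^ (PX X).card := by
  classical
  obtain ⟨X, hX⟩ := finite_model C η hη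
  obtain ⟨B, hB1, hB2, hB3⟩ : ∃ B : Finset (Finset ℕ), B ⊆ (PX X).powerset ∧
      (∀ T ∈ (PX X).powerset, T ∉ B → reach C X T) ∧ (B.card : ℝ) ≤ η * 2 ^ (PX X).card := by
    refine ⟨(PX X).powerset.filter fun T => ¬reach C X T, Finset.filter_subset _ _,
      fun T hT hTB => by_contra fun h => hTB (Finset.mem_filter.2 ⟨hT, h⟩), ?_⟩
    refine le_trans (le_of_eq ?_) hX
    unfold reach
    congr!
  exact ⟨X, B, hB1, hB2, hB3⟩


/-- the number of the primes up to `Q` -/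
theorem pi_eq (Q : ℕ) : Nat.primeCounting Q = ((Finset.Icc 1 Q).filter Nat.Prime).card := by
  rw [Nat.primeCounting, Nat.primeCounting', Nat.count_eq_card_filter_range]
  congr 1
  ext p
  simp only [Finset.mem_filter, Finset.mem_range, Finset.mem_Icc]
  constructor
  · rintro ⟨h1, h2⟩
    exact ⟨⟨h2.one_lt.le, by omega⟩, h2⟩
  · rintro ⟨⟨_, h1⟩, h2⟩
    exact ⟨by omega, h2⟩

open Classical in
/-- Density one from the patterns. -/
theorem density_gen (P : ℕ → Prop) (h : ∀ η : ℝ, 0 < η → ∃ (X m : ℕ) (B : Finset (Finset ℕ)), B ⊆ (PX X).powerset ∧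
    (B.card : ℝ) ≤ η * 2 ^ (PX X).card ∧ ∀ q : ℕ, q.Prime → m ≤ q → pat X q ∉ B → P q) :
    Tendsto (fun Q : ℕ => (((Finset.Icc 1 Q).filter fun q => q.Prime ∧ P q).card : ℝ) / (Nat.primeCounting Q : ℝ))
      atTop (𝓝 1) := by
  have hle : ∀ Q : ℕ, (((Finset.Icc 1 Q).filter fun q => q.Prime ∧ P q).card : ℝ) / (Nat.primeCounting Q : ℝ) ≤ 1 := by
    intro Q
    refine div_le_one_of_le₀ ?_ (Nat.cast_nonneg _)
    rw [pi_eq]
    exact_mod_cast Finset.card_le_card fun q hq => by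
      rw [Finset.mem_filter] at hq ⊢
      exact ⟨hq.1, hq.2.1⟩
  have hpt : Tendsto (fun Q : ℕ => (Nat.primeCounting Q : ℝ)) atTop atTop :=
    tendsto_natCast_atTop_atTop.comp Nat.tendsto_primeCounting
  rw [tendsto_order]
  refine ⟨fun r hr => ?_, fun r hr => Eventually.of_forall fun Q => lt_of_le_of_lt (hle Q) hr⟩
  obtain ⟨η, hη, hηr⟩ : ∃ η : ℝ, 0 < η ∧ r + 2 * η < 1 := ⟨(1 - r) / 4, by linarith, by linarith⟩
  obtain ⟨X, m, B, hB1, hB2, hB3⟩ := h η hη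
  -- all primes up to `Q`: good, or small, or with a pattern in `B`
  have hcov : ∀ Q : ℕ, ((Finset.Icc 1 Q).filter Nat.Prime).card ≤
      ((Finset.Icc 1 Q).filter fun q => q.Prime ∧ P q).card + m +
        ∑ T ∈ B, ((Finset.Icc 1 Q).filter fun q => q.Prime ∧ pat X q = T).card := by
    intro Q
    have h1 : (Finset.Icc 1 Q).filter Nat.Prime ⊆
        ((Finset.Icc 1 Q).filter fun q => q.Prime ∧ P q) ∪ Finset.range m ∪
          B.biUnion fun T => (Finset.Icc 1 Q).filter fun q => q.Prime ∧ pat X q = T := by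
      intro q hq
      rw [Finset.mem_filter] at hq
      rw [Finset.mem_union, Finset.mem_union]
      by_cases h2 : q < m
      · left; right
        exact Finset.mem_range.2 h2
      · by_cases h3 : pat X q ∈ B
        · right
          rw [Finset.mem_biUnion]
          exact ⟨pat X q, h3, Finset.mem_filter.2 ⟨hq.1, hq.2, rfl⟩⟩
        · left; left
          exact Finset.mem_filter.2 ⟨hq.1, hq.2, hB3 q hq.2 (not_lt.1 h2) h3⟩
    refine (Finset.card_le_card h1).trans ((Finset.card_union_le _ _).trans (add_le_add ?_ Finset.card_biUnion_le))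
    refine (Finset.card_union_le _ _).trans ?_
    rw [Finset.card_range]
  -- limits
  have hlim : Tendsto (fun Q : ℕ => (m : ℝ) / (Nat.primeCounting Q : ℝ) +
      ∑ T ∈ B, (((Finset.Icc 1 Q).filter fun q => q.Prime ∧ pat X q = T).card : ℝ) / (Nat.primeCounting Q : ℝ)) atTop
      (𝓝 (0 + ∑ T ∈ B, (1 / 2 ^ (PX X).card : ℝ))) := by
    refine (hpt.const_div_atTop _).add (tendsto_finsetSum _ fun T hT => ?_)
    exact eq_patterns X T (Finset.mem_powerset.1 (hB1 hT))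
  have hval : (0 : ℝ) + ∑ T ∈ B, (1 / 2 ^ (PX X).card : ℝ) < 2 * η := by
    rw [zero_add, Finset.sum_const, nsmul_eq_mul, mul_one_div, div_lt_iff₀ (by positivity)]
    have : (0 : ℝ) < η * 2 ^ (PX X).card := by positivity
    linarith
  filter_upwards [hlim.eventually (gt_mem_nhds hval), hpt.eventually_gt_atTop 0] with Q h1 h2
  have h3 : (Nat.primeCounting Q : ℝ) ≤ ((((Finset.Icc 1 Q).filter fun q => q.Prime ∧ P q).card : ℝ)) + m +
        ∑ T ∈ B, (((Finset.Icc 1 Q).filter fun q => q.Prime ∧ pat X q = T).card : ℝ) := by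
    rw [pi_eq]
    exact_mod_cast hcov Q
  have h4 : (m : ℝ) / (Nat.primeCounting Q : ℝ) +
      ∑ T ∈ B, (((Finset.Icc 1 Q).filter fun q => q.Prime ∧ pat X q = T).card : ℝ) / (Nat.primeCounting Q : ℝ) =
      (m + ∑ T ∈ B, (((Finset.Icc 1 Q).filter fun q => q.Prime ∧ pat X q = T).card : ℝ)) / (Nat.primeCounting Q : ℝ) := by
    rw [add_div, Finset.sum_div]
  rw [h4, div_lt_iff₀ h2] at h1
  rw [lt_div_iff₀ h2]
  nlinarith

open Classical in
/-- The intersection of two sets of primes of density one. -/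
theorem density_and (P R : ℕ → Prop)
    (hP : Tendsto (fun Q : ℕ => (((Finset.Icc 1 Q).filter fun q => q.Prime ∧ P q).card : ℝ) / (Nat.primeCounting Q : ℝ))
      atTop (𝓝 1))
    (hR : Tendsto (fun Q : ℕ => (((Finset.Icc 1 Q).filter fun q => q.Prime ∧ R q).card : ℝ) / (Nat.primeCounting Q : ℝ))
      atTop (𝓝 1)) :
    Tendsto (fun Q : ℕ => (((Finset.Icc 1 Q).filter fun q => q.Prime ∧ (P q ∧ R q)).card : ℝ) / (Nat.primeCounting Q : ℝ))
      atTop (𝓝 1) := by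
  have hpt : Tendsto (fun Q : ℕ => (Nat.primeCounting Q : ℝ)) atTop atTop :=
    tendsto_natCast_atTop_atTop.comp Nat.tendsto_primeCounting
  have h1 : Tendsto (fun Q : ℕ => (((Finset.Icc 1 Q).filter fun q => q.Prime ∧ P q).card : ℝ) / (Nat.primeCounting Q : ℝ) +
      (((Finset.Icc 1 Q).filter fun q => q.Prime ∧ R q).card : ℝ) / (Nat.primeCounting Q : ℝ) - 1) atTop (𝓝 1) := by
    have := (hP.add hR).sub_const 1
    rwa [show (1 : ℝ) + 1 - 1 = 1 by norm_num] at this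
  refine tendsto_of_tendsto_of_tendsto_of_le_of_le' h1 tendsto_const_nhds ?_ ?_
  · filter_upwards [hpt.eventually_gt_atTop 0] with Q h2
    have h3 : ((Finset.Icc 1 Q).filter fun q => q.Prime ∧ P q).card + ((Finset.Icc 1 Q).filter fun q => q.Prime ∧ R q).card ≤
        ((Finset.Icc 1 Q).filter fun q => q.Prime ∧ (P q ∧ R q)).card + Nat.primeCounting Q := by
      rw [← Finset.card_union_add_card_inter, pi_eq, add_comm]
      refine add_le_add (Finset.card_le_card fun q hq => ?_) (Finset.card_le_card fun q hq => ?_)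
      · rw [Finset.mem_inter, Finset.mem_filter, Finset.mem_filter] at hq
        exact Finset.mem_filter.2 ⟨hq.1.1, hq.1.2.1, hq.1.2.2, hq.2.2.2⟩
      · rw [Finset.mem_union, Finset.mem_filter, Finset.mem_filter] at hq
        rcases hq with hq | hq
        · exact Finset.mem_filter.2 ⟨hq.1, hq.2.1⟩
        · exact Finset.mem_filter.2 ⟨hq.1, hq.2.1⟩
    have h4 : (((Finset.Icc 1 Q).filter fun q => q.Prime ∧ P q).card : ℝ) +
        (((Finset.Icc 1 Q).filter fun q => q.Prime ∧ R q).card : ℝ) ≤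
        (((Finset.Icc 1 Q).filter fun q => q.Prime ∧ (P q ∧ R q)).card : ℝ) + (Nat.primeCounting Q : ℝ) := by
      exact_mod_cast h3
    rw [← add_div, le_div_iff₀ h2, sub_mul, div_mul_cancel₀ _ h2.ne']
    linarith
  · filter_upwards with Q
    refine div_le_one_of_le₀ ?_ (Nat.cast_nonneg _)
    rw [pi_eq]
    exact_mod_cast Finset.card_le_card fun q hq => by
      rw [Finset.mem_filter] at hq ⊢
      exact ⟨hq.1, hq.2.1⟩

open Classical in
/-- **Density one, the Moebius side.** -/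
theorem density (C : ℝ) :
    Tendsto (fun Q : ℕ => (((Finset.Icc 1 Q).filter fun q => q.Prime ∧ Good C q).card : ℝ) / (Nat.primeCounting Q : ℝ))
      atTop (𝓝 1) := by
  -- it is enough to treat `C ≥ 0`
  have hmono : ∀ C' : ℝ, C ≤ C' → ∀ q, Good C' q → Good C q := by
    intro C' hC q hg
    refine ⟨fun x₀ => ?_, ?_⟩
    · obtain ⟨x, hx, h⟩ := hg.1 x₀
      exact ⟨x, hx, lt_of_le_of_lt (mul_le_mul_of_nonneg_right hC (Real.sqrt_nonneg _)) h⟩
    · rcases hg.2 with h | h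
      · left
        intro x₀
        obtain ⟨x, hx, h1⟩ := h x₀
        exact ⟨x, hx, lt_of_lt_of_le h1 (neg_le_neg (mul_le_mul_of_nonneg_right hC (Real.sqrt_nonneg _)))⟩
      · exact Or.inr h
  have hC0 : 0 ≤ max C 0 := le_max_right _ _
  refine density_gen _ fun η hη => ?_
  obtain ⟨X, B, hB1, hB2, hB3⟩ := finite_model' (2 * (max C 0 + 1)) η hη
  obtain ⟨q₀, hq₀⟩ := recur (max C 0) 1 one_pos X
  refine ⟨X, q₀ + X + 3, B, hB1, hB3, fun q hq hm hpq => hmono (max C 0) (le_max_left _ _) q ?_⟩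
  have h4 : pat X q ∈ (PX X).powerset := Finset.mem_powerset.2 (Finset.filter_subset _ _)
  have h5 := hB2 _ h4 hpq
  refine good_of hC0 hq (by omega) (by omega) (X := X) ?_ h5.1 h5.2
  intro _ χ a σ hyp n hn hnX
  exact hq₀ q (by omega) χ a σ hyp n hn hnX

end Pool.Agent.QT
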