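import Pool.Agent.Helper96.QT.RecL
import Pool.Agent.Helper22.QT.FinModelL
import Pool.Agent.Helper96.QT.Fin

/-!
Block QTL15.  The density statement for the sums of `chi lambda`.
-/

namespace Pool.Agent.QT

open Real Filter Topology MeasureTheory Set DirichletCharacter

/-- `l n = lambda(n) (n/q)` -/
noncomputable def lq (q n : ℕ) : ℝ := ((lam n : ℤ) : ℝ) * (jacobiSym n q : ℝ)

/-- the property of `q` on the Liouville side -/
def GoodL (C : ℝ) (q : ℕ) : Prop :=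
  (∀ x₀ : ℝ, ∃ x : ℝ, x₀ ≤ x ∧ C * Real.sqrt x < mS (lq q) x) ∧
    ((∀ x₀ : ℝ, ∃ x : ℝ, x₀ ≤ x ∧ mS (lq q) x < -(C * Real.sqrt x)) ∨
      ∃ (_ : NeZero q) (χ : DirichletCharacter ℂ q) (β : ℝ), (∀ n : ℕ, χ n = (jacobiSym n q : ℂ)) ∧
        1 / 2 ≤ β ∧ β < 1 ∧ LFunction χ β = 0)

private theorem good_ofL {C : ℝ} (hC : 0 ≤ C) {X q : ℕ} (hq : q.Prime) (hq2 : 2 < q) (hXq : X < q)
    (hrec : ∀ [NeZero q] (χ : DirichletCharacter ℂ q) (a l : ℕ → ℝ) (σ : ℝ), HypL χ a l σ C →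
      ∀ n : ℕ, 1 ≤ n → n ≤ X → σ * mS l n ≤ (C + 1) * Real.sqrt (n + 1 / 2))
    (h1 : ∃ n ∈ Finset.Icc 1 X, 2 * (C + 1) * Real.sqrt n ≤ ∑ m ∈ Finset.Icc 1 n, CM (pat X q) m)
    (h2 : ∃ n ∈ Finset.Icc 1 X, ∑ m ∈ Finset.Icc 1 n, CM (pat X q) m ≤ -(2 * (C + 1) * Real.sqrt n)) : GoodL C q := by
  obtain ⟨hne, χ, hdat, hχ⟩ := quad_char q hq hq2
  have hdat' : DatL χ (aq q) (lq q) := by
    refine ⟨hdat, fun n => ?_⟩
    rw [hχ n]
    unfold lq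
    push_cast
    ring
  have hsum : ∀ n ∈ Finset.Icc 1 X, ∑ m ∈ Finset.Icc 1 n, CM (pat X q) m = mS (lq q) n := by
    intro n hn
    unfold mS
    rw [Nat.floor_natCast]
    refine Finset.sum_congr rfl fun m hm => ?_
    exact CM_eq X q hq hXq m (Finset.mem_Icc.1 hm).1 ((Finset.mem_Icc.1 hm).2.trans (Finset.mem_Icc.1 hn).2)
  have hsq : ∀ n : ℕ, 1 ≤ n → (C + 1) * Real.sqrt (n + 1 / 2) < 2 * (C + 1) * Real.sqrt n := by
    intro n hn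
    have hn1 : (1 : ℝ) ≤ n := by exact_mod_cast hn
    have h3 : Real.sqrt ((n : ℝ) + 1 / 2) < 2 * Real.sqrt n := by
      rw [show 2 * Real.sqrt (n : ℝ) = Real.sqrt (4 * n) by
        rw [Real.sqrt_mul (by norm_num), show (4 : ℝ) = 2 ^ 2 by norm_num, Real.sqrt_sq (by norm_num)]]
      apply Real.sqrt_lt_sqrt (by linarith)
      linarith
    nlinarith
  have hnot : ∀ σ : ℝ, (σ = 1 ∨ σ = -1) → (∃ n ∈ Finset.Icc 1 X, 2 * (C + 1) * Real.sqrt n ≤ σ * mS (lq q) n) →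
      ¬HypL χ (aq q) (lq q) σ C := by
    intro σ _ ⟨n, hn, h4⟩ hyp
    have h5 := hrec χ (aq q) (lq q) σ hyp n (Finset.mem_Icc.1 hn).1 (Finset.mem_Icc.1 hn).2
    have h6 := hsq n (Finset.mem_Icc.1 hn).1
    linarith
  constructor
  · intro x₀
    have h3 := hnot 1 (Or.inl rfl) (by
      obtain ⟨n, hn, h4⟩ := h1
      rw [hsum n hn] at h4
      exact ⟨n, hn, by rw [one_mul]; exact h4⟩)
    have h4 : ¬∃ t₁ : ℝ, ∀ t : ℝ, t₁ ≤ t → 1 * FF (lq q) t ≤ C := by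
      intro h5
      exact h3 ⟨hdat', Or.inl rfl, fun h => absurd h (by norm_num), h5⟩
    obtain ⟨x, hx, h5⟩ := unbdd h4 x₀
    exact ⟨x, hx, by rwa [one_mul] at h5⟩
  · by_cases hz : ∀ β : ℝ, 1 / 2 ≤ β → β < 1 → LFunction χ β ≠ 0
    · left
      intro x₀
      have h3 := hnot (-1) (Or.inr rfl) (by
        obtain ⟨n, hn, h4⟩ := h2
        rw [hsum n hn] at h4
        exact ⟨n, hn, by linarith⟩)
      have h4 : ¬∃ t₁ : ℝ, ∀ t : ℝ, t₁ ≤ t → (-1) * FF (lq q) t ≤ C := by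
        intro h5
        exact h3 ⟨hdat', Or.inr rfl, fun _ => hz, h5⟩
      obtain ⟨x, hx, h5⟩ := unbdd h4 x₀
      exact ⟨x, hx, by linarith⟩
    · right
      push Not at hz
      obtain ⟨β, hβ1, hβ2, hβ3⟩ := hz
      exact ⟨hne, χ, β, hχ, hβ1, hβ2, hβ3⟩

private def reachL (C : ℝ) (X : ℕ) (T : Finset ℕ) : Prop :=
  (∃ n ∈ Finset.Icc 1 X, C * Real.sqrt n ≤ ∑ m ∈ Finset.Icc 1 n, CM T m) ∧
      ∃ n ∈ Finset.Icc 1 X, ∑ m ∈ Finset.Icc 1 n, CM T m ≤ -(C * Real.sqrt n)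

private theorem finite_modelL' (C η : ℝ) (hη : 0 < η) : ∃ X : ℕ, ∃ B : Finset (Finset ℕ), B ⊆ (PX X).powerset ∧
    (∀ T ∈ (PX X).powerset, T ∉ B → (∃ n ∈ Finset.Icc 1 X, C * Real.sqrt n ≤ ∑ m ∈ Finset.Icc 1 n, CM T m) ∧
      ∃ n ∈ Finset.Icc 1 X, ∑ m ∈ Finset.Icc 1 n, CM T m ≤ -(C * Real.sqrt n)) ∧
      (B.card : ℝ) ≤ η * 2 ^ (PX X).card := by
  classical
  obtain ⟨X, hX⟩ := finite_model_L C η hη
  obtain ⟨B, hB1, hB2, hB3⟩ : ∃ B : Finset (Finset ℕ), B ⊆ (PX X).powerset ∧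
      (∀ T ∈ (PX X).powerset, T ∉ B → reachL C X T) ∧ (B.card : ℝ) ≤ η * 2 ^ (PX X).card := by
    refine ⟨(PX X).powerset.filter fun T => ¬reachL C X T, Finset.filter_subset _ _,
      fun T hT hTB => by_contra fun h => hTB (Finset.mem_filter.2 ⟨hT, h⟩), ?_⟩
    refine le_trans (le_of_eq ?_) hX
    unfold reachL
    congr!
  exact ⟨X, B, hB1, hB2, hB3⟩

open Classical in
/-- **Density one, the Liouville side.** -/
theorem densityL (C : ℝ) :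
    Tendsto (fun Q : ℕ => (((Finset.Icc 1 Q).filter fun q => q.Prime ∧ GoodL C q).card : ℝ) / (Nat.primeCounting Q : ℝ))
      atTop (𝓝 1) := by
  have hmono : ∀ C' : ℝ, C ≤ C' → ∀ q, GoodL C' q → GoodL C q := by
    intro C' hC q hg
    refine ⟨fun x₀ => ?_, ?_⟩
    · obtain ⟨x, hx, h⟩ := hg.1 x₀
      exact ⟨x, hx, lt_of_le_of_lt (mul_le_mul_of_nonneg_right hC (Real.sqrt_nonneg _)) h⟩
    · rcases hg.2 with h | h
      · left
        intro x₀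
        obtain ⟨x, hx, h1⟩ := h x₀
        exact ⟨x, hx, lt_of_lt_of_le h1 (neg_le_neg (mul_le_mul_of_nonneg_right hC (Real.sqrt_nonneg _)))⟩
      · exact Or.inr h
  have hC0 : 0 ≤ max C 0 := le_max_right _ _
  refine density_gen _ fun η hη => ?_
  obtain ⟨X, B, hB1, hB2, hB3⟩ := finite_modelL' (2 * (max C 0 + 1)) η hη
  obtain ⟨q₀, hq₀⟩ := recurL (max C 0) 1 one_pos X
  refine ⟨X, q₀ + X + 3, B, hB1, hB3, fun q hq hm hpq => hmono (max C 0) (le_max_left _ _) q ?_⟩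
  have h4 : pat X q ∈ (PX X).powerset := Finset.mem_powerset.2 (Finset.filter_subset _ _)
  have h5 := hB2 _ h4 hpq
  refine good_ofL hC0 hq (by omega) (by omega) (X := X) ?_ h5.1 h5.2
  intro _ χ a l σ hyp n hn hnX
  exact hq₀ q hq (by omega) χ a l σ hyp n hn hnX

end Pool.Agent.QT
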