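import Pool.Agent.Helper63.QT.LapL
import Pool.Agent.Helper34.QT.LandL
import Pool.Agent.Helper64.QT.MeanL
import Pool.Agent.Helper88.QT.GamZ
import Pool.Agent.Helper50.QT.DualL
import Pool.Agent.Helper38.QT.CMEq
import Pool.Agent.Helper96.QT.IntPole
import Pool.Agent.Helper96.QT.GL2
import Pool.Agent.Helper96.QT.Rec

/-!
Block QTL11.  The recurrence for the sums of `chi lambda`, assembled.
-/

namespace Pool.Agent.QT

open Real Filter Topology MeasureTheory Set DirichletCharacter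

/-- The kernel of the dual side for one parity. -/
private theorem kernL (ev : Bool) {d : ℝ} (hd : 0 < d) : ∃ (h : ℝ → ℂ) (A₀ A₁ : ℂ) (c : ℝ), Continuous h ∧ (∀ y, ‖h y‖ ≤ c) ∧
      (∀ y : ℝ, 0 ≤ y → ‖h y‖ ≤ c * Real.exp (-(y / 4))) ∧
      (∀ y : ℝ, 0 ≤ y → ‖h y - Complex.exp (-(y / 2)) * (A₀ * y + A₁)‖ ≤ c * Real.exp (-y)) ∧
      ∀ z : ℂ, -(1 / 4) < z.re → z.re < 0 → ∫ y : ℝ, Complex.exp (-z * y) * h y = SZ ev d z / (1 / 2 + z) ^ 2 / z := by
  obtain ⟨c, hc⟩ := SZ_bound ev hd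
  obtain ⟨s, hs, hs1, hs2⟩ := inv_tr (fun z hz => SZ_diff ev d hz) hc
  obtain ⟨k, B₀, B₁, c', hk, hk1, hk2, hk3⟩ := conv_pole hs hs1 hs2
  exact int_pole hk hk1 hk2 hk3

private theorem ue_le (u : ℝ) : u * Real.exp (-(u / 2)) ≤ 1 := by
  have h1 := Real.add_one_le_exp (u / 2 - 1)
  have h2 : u / 2 ≤ Real.exp (u / 2 - 1) := by linarith
  have h3 : u * Real.exp (-(u / 2)) ≤ 2 * Real.exp (-1) := by
    calc u * Real.exp (-(u / 2)) = 2 * (u / 2 * Real.exp (-(u / 2))) := by ring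
      _ ≤ 2 * (Real.exp (u / 2 - 1) * Real.exp (-(u / 2))) := by gcongr
      _ = 2 * Real.exp (-1) := by rw [← Real.exp_add]; congr 2; ring
  have h4 : 2 * Real.exp (-1) ≤ 1 := by
    have h5 := Real.add_one_le_exp (1 : ℝ)
    have h6 : Real.exp (-1) * Real.exp 1 = 1 := by rw [← Real.exp_add]; simp
    nlinarith [Real.exp_pos (-1 : ℝ)]
  linarith

/-- `(1 + log q)^2 q^{-1/2}` is small -/
private theorem log_sq_small {η : ℝ} (hη : 0 < η) : ∃ q₀ : ℕ, ∀ q : ℕ, q₀ ≤ q →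
    (1 + Real.log q) * (1 + Real.log q) * (q : ℝ) ^ (-(1 / 2) : ℝ) ≤ η := by
  have h1 : Tendsto (fun x : ℝ => (1 + Real.log x) * (1 + Real.log x) * x ^ (-(1 / 2) : ℝ)) atTop (𝓝 0) := by
    have h2 : Tendsto (fun x : ℝ => (1 + Real.log x) * x ^ (-(1 / 4) : ℝ)) atTop (𝓝 0) := by
      have h3 := (isLittleO_log_rpow_atTop (show (0 : ℝ) < 1 / 4 by norm_num)).tendsto_div_nhds_zero
      have h4 := tendsto_rpow_neg_atTop (show (0 : ℝ) < 1 / 4 by norm_num)
      have h5 := h4.add h3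
      rw [add_zero] at h5
      refine h5.congr' ?_
      filter_upwards [eventually_gt_atTop 0] with x hx
      have h50 : Real.log x / x ^ (1 / 4 : ℝ) = Real.log x * x ^ (-(1 / 4) : ℝ) := by
        rw [Real.rpow_neg hx.le]
        rfl
      rw [h50]
      ring
    have h6 := h2.mul h2
    rw [mul_zero] at h6
    refine h6.congr' ?_
    filter_upwards [eventually_gt_atTop 0] with x hx
    have : x ^ (-(1 / 2) : ℝ) = x ^ (-(1 / 4) : ℝ) * x ^ (-(1 / 4) : ℝ) := by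
      rw [← Real.rpow_add hx]
      norm_num
    rw [this]
    ring
  have h2 := (h1.comp tendsto_natCast_atTop_atTop).eventually (Iic_mem_nhds hη)
  obtain ⟨q₀, hq₀⟩ := eventually_atTop.1 h2
  exact ⟨q₀, fun q hq => hq₀ q hq⟩

/-- values at `1/2` in terms of `GG` (from the transform of `FF a` on the half plane) -/
private theorem at_halfL {q : ℕ} [NeZero q] {χ : DirichletCharacter ℂ q} {a : ℕ → ℝ}
    (hFi : ∀ x : ℝ, 0 < x → Integrable (fun t : ℝ => Real.exp (-(x * t)) * FF a t))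
    (hL : ∀ z : ℂ, 0 < z.re → ∫ t : ℝ, Complex.exp (-z * t) * (FF a t : ℂ) = GG χ z) :
    |∫ t : ℝ, Real.exp (-(t / 2)) * FF a t| = ‖GG χ (1 / 2)‖ ∧
      |∫ t : ℝ, Real.exp (-(t / 2)) * (t * FF a t)| = ‖deriv (GG χ) (1 / 2)‖ := by
  have hm := measurable_FF a
  have h0 : ∀ t < 0, FF a t = 0 := fun t ht => by unfold FF; rw [if_neg (not_le.2 ht)]
  constructor
  · rw [← hL (1 / 2) (by norm_num), ← Real.norm_eq_abs, ← Complex.norm_real]
    congr 1
    rw [← integral_complex_ofReal]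
    congr 1
    ext t
    push_cast
    congr 2
    ring
  · have h1 := laplace_deriv hm h0 hFi
    have h2 : (fun z : ℂ => ∫ t : ℝ, Complex.exp (-z * t) * (FF a t : ℂ)) =ᶠ[𝓝 (1 / 2 : ℂ)] GG χ := by
      have hopen : IsOpen {z : ℂ | 0 < z.re} := isOpen_lt continuous_const Complex.continuous_re
      filter_upwards [hopen.mem_nhds (show (1 / 2 : ℂ) ∈ {z : ℂ | 0 < z.re} by norm_num)] with z hz
      exact hL z hz
    rw [(h1.congr_of_eventuallyEq h2.symm).deriv, norm_neg, integral_complex_ofReal, Complex.norm_real, Real.norm_eq_abs]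

/-- **Block QTL11.** -/
theorem recurL (C η : ℝ) (hη : 0 < η) (X : ℕ) : ∃ q₀ : ℕ, ∀ (q : ℕ) [NeZero q], q.Prime → q₀ ≤ q →
    ∀ (χ : DirichletCharacter ℂ q) (a l : ℕ → ℝ) (σ : ℝ), HypL χ a l σ C →
      ∀ n : ℕ, 1 ≤ n → n ≤ X → σ * mS l n ≤ (C + η) * Real.sqrt (n + 1 / 2) := by
  obtain ⟨d, hd, hbe⟩ := b_eval X (η := η / 4) (by positivity)
  choose h A₀ A₁ c hc h1 h1' h2 h3 using fun ev => kernL ev hd
  -- a common bound for the constants
  have hc0 : ∀ ev, 0 ≤ c ev := fun ev => (norm_nonneg _).trans (h1 ev 0)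
  obtain ⟨K, hK⟩ : ∃ K : ℝ, K = 1 + ∑ ev : Bool, (‖A₀ ev‖ + ‖A₁ ev‖ + c ev) := ⟨_, rfl⟩
  have hKe : ∀ ev, ‖A₀ ev‖ + ‖A₁ ev‖ + c ev ≤ K := by
    intro ev
    have := Finset.single_le_sum (f := fun ev : Bool => ‖A₀ ev‖ + ‖A₁ ev‖ + c ev)
      (fun i _ => add_nonneg (add_nonneg (norm_nonneg _) (norm_nonneg _)) (hc0 i)) (Finset.mem_univ ev)
    rw [hK]
    linarith
  have hK0 : 0 < K := by
    rw [hK]
    have : 0 ≤ ∑ ev : Bool, (‖A₀ ev‖ + ‖A₁ ev‖ + c ev) :=
      Finset.sum_nonneg fun i _ => add_nonneg (add_nonneg (norm_nonneg _) (norm_nonneg _)) (hc0 i)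
    linarith
  obtain ⟨q₁, hq₁⟩ := L1 (η := η / (64 * K)) (by positivity)
  obtain ⟨q₂, hq₂⟩ := log_sq_small (η := η / (64 * K)) (by positivity)
  refine ⟨max q₁ q₂, fun q _ hqp hq χ a l σ hyp n hn hnX => ?_⟩
  have hL1 := hq₁ q ((le_max_left _ _).trans hq) χ hyp.dat.dat.sq hyp.dat.dat.ne
  have hL2 := hq₂ q ((le_max_right _ _).trans hq)
  have hq1 : (1 : ℝ) ≤ q := by exact_mod_cast hqp.one_lt.le
  have hq0 : (0 : ℝ) < q := by linarith
  have hΛ : 0 ≤ Real.log q := Real.log_nonneg hq1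
  have hml := measurable_FF l
  have h0l : ∀ t < 0, FF l t = 0 := fun t ht => by unfold FF; rw [if_neg (not_le.2 ht)]
  have hFl := abs_FFl_le hyp.dat
  have hm := measurable_FF a
  have h0 : ∀ t < 0, FF a t = 0 := fun t ht => by unfold FF; rw [if_neg (not_le.2 ht)]
  have hF := abs_FF_le hyp.dat.dat
  obtain ⟨hFli, hLl, hhalf, -⟩ := landau_L hyp
  obtain ⟨hFlw, hsimple, hFi, hL, hFw⟩ := mean_L hyp
  obtain ⟨hI0, hI1⟩ := at_halfL hFi hL
  obtain ⟨ε, ev, hε, hfe⟩ := fe hyp.dat.dat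
  obtain ⟨hDc, hDi, hDe, hDL, hDt, hDb, -⟩ := D_props2 hm h0 hF hFi hFw (hc ev) (h1 ev) (h1' ev) (h2 ev) (Real.log q)
  obtain ⟨hEc, hEi, hEe, hEL, hEt, -, hEb⟩ := D_props2 hm h0 hF hFi hFw (hc ev) (h1 ev) (h1' ev) (h2 ev) (-Real.log q)
  obtain ⟨hbc, hbi, hbx, hbL, hbl⟩ := b_props hml h0l hFl hFli hFlw hd
  have hσ : |σ| = 1 := by
    rcases hyp.sg with h | h <;> simp [h]
  have hσc : ‖(σ : ℂ)‖ = 1 := by rw [Complex.norm_real]; exact hσ
  -- the dual side
  set DL : ℝ → ℂ := fun u => DD (h ev) (Real.log q) (FF a) u - (q : ℂ)⁻¹ * DD (h ev) (-Real.log q) (FF a) u with hDL'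
  have hDb' : ∀ u : ℝ, 0 ≤ u → ‖DL u‖ ≤ η / 2 := by
    intro u hu
    have hb1 := hDb hΛ u hu
    have hb2 := hEb (by linarith) u hu
    rw [hI0, hI1] at hb1 hb2
    have e1 : Real.exp (-((u + Real.log q) / 2)) = Real.exp (-(u / 2)) * (q : ℝ) ^ (-(1 / 2) : ℝ) := by
      rw [Real.rpow_def_of_pos hq0, ← Real.exp_add]
      congr 1
      ring
    have hqh : 0 < (q : ℝ) ^ (-(1 / 2) : ℝ) := by positivity
    have e20 : (q : ℝ)⁻¹ ≤ (q : ℝ) ^ (-(1 / 2) : ℝ) := by
      rw [← Real.rpow_neg_one]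
      exact Real.rpow_le_rpow_of_exponent_le hq1 (by norm_num)
    have e2 : Real.exp (-(u + Real.log q)) ≤ (q : ℝ) ^ (-(1 / 2) : ℝ) := by
      refine le_trans ?_ e20
      rw [neg_add, Real.exp_add, Real.exp_neg (Real.log q), Real.exp_log hq0]
      have : Real.exp (-u) ≤ 1 := by rw [Real.exp_le_one_iff]; linarith
      have h5 : 0 ≤ (q : ℝ)⁻¹ := by positivity
      nlinarith
    have e3 := ue_le u
    have e4 : Real.exp (-(u / 2)) ≤ 1 := by rw [Real.exp_le_one_iff]; linarith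
    have e5 := Real.exp_pos (-(u / 2))
    have hK1 := hKe ev
    have n0 := norm_nonneg (A₀ ev)
    have n1 := norm_nonneg (A₁ ev)
    have n2 := hc0 ev
    have g0 := norm_nonneg (GG χ (1 / 2))
    have g1 := norm_nonneg (deriv (GG χ) (1 / 2))
    have f1 : Real.exp (-(u / 2)) * (‖A₀ ev‖ * (u + Real.log q) + ‖A₁ ev‖) ≤ 2 * K * (Real.log q + 1) := by
      have f2 : Real.exp (-(u / 2)) * (u + Real.log q) ≤ 1 + Real.log q := by nlinarith
      have f3 : Real.exp (-(u / 2)) * (‖A₀ ev‖ * (u + Real.log q) + ‖A₁ ev‖) =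
          ‖A₀ ev‖ * (Real.exp (-(u / 2)) * (u + Real.log q)) + ‖A₁ ev‖ * Real.exp (-(u / 2)) := by ring
      rw [f3]
      have f4 : ‖A₀ ev‖ * (Real.exp (-(u / 2)) * (u + Real.log q)) ≤ K * (1 + Real.log q) :=
        mul_le_mul (by linarith) f2 (by positivity) hK0.le
      have f5 : ‖A₁ ev‖ * Real.exp (-(u / 2)) ≤ K * 1 := mul_le_mul (by linarith) e4 e5.le hK0.le
      nlinarith
    have f6 : Real.exp (-(u / 2)) * ‖A₀ ev‖ ≤ K := by nlinarith
    have k1 : K * ((Real.log q + 1) * ((q : ℝ) ^ (-(1 / 2) : ℝ) * ‖GG χ (1 / 2)‖)) ≤ η / 64 := by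
      have := hL1.1
      rw [le_div_iff₀ (by positivity)] at this
      nlinarith
    have k2 : K * ((q : ℝ) ^ (-(1 / 2) : ℝ) * ‖deriv (GG χ) (1 / 2)‖) ≤ η / 64 := by
      have := hL1.2
      rw [le_div_iff₀ (by positivity)] at this
      nlinarith
    have k3 : K * ((1 + Real.log q) * (1 + Real.log q) * (q : ℝ) ^ (-(1 / 2) : ℝ)) ≤ η / 64 := by
      have := hL2
      rw [le_div_iff₀ (by positivity)] at this
      nlinarith
    have k4 : K * (q : ℝ) ^ (-(1 / 2) : ℝ) ≤ η / 64 := by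
      refine le_trans ?_ k3
      refine mul_le_mul_of_nonneg_left ?_ hK0.le
      have : (1 : ℝ) ≤ (1 + Real.log q) * (1 + Real.log q) := by nlinarith
      nlinarith
    -- first part
    have p1 : ‖DD (h ev) (Real.log q) (FF a) u‖ ≤ η / 8 := by
      refine hb1.trans ?_
      rw [e1]
      have f11 : Real.exp (-(u / 2)) * (q : ℝ) ^ (-(1 / 2) : ℝ) *
          ((‖A₀ ev‖ * (u + Real.log q) + ‖A₁ ev‖) * ‖GG χ (1 / 2)‖ + ‖A₀ ev‖ * ‖deriv (GG χ) (1 / 2)‖) =
          (Real.exp (-(u / 2)) * (‖A₀ ev‖ * (u + Real.log q) + ‖A₁ ev‖)) * ((q : ℝ) ^ (-(1 / 2) : ℝ) * ‖GG χ (1 / 2)‖) +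
            (Real.exp (-(u / 2)) * ‖A₀ ev‖) * ((q : ℝ) ^ (-(1 / 2) : ℝ) * ‖deriv (GG χ) (1 / 2)‖) := by ring
      rw [f11]
      have f12 := mul_le_mul_of_nonneg_right f1 (by positivity : 0 ≤ (q : ℝ) ^ (-(1 / 2) : ℝ) * ‖GG χ (1 / 2)‖)
      have f13 := mul_le_mul_of_nonneg_right f6 (by positivity : 0 ≤ (q : ℝ) ^ (-(1 / 2) : ℝ) * ‖deriv (GG χ) (1 / 2)‖)
      have f14 : 2 * c ev * Real.exp (-(u + Real.log q)) ≤ 2 * (K * (q : ℝ) ^ (-(1 / 2) : ℝ)) := by
        calc 2 * c ev * Real.exp (-(u + Real.log q)) ≤ 2 * K * (q : ℝ) ^ (-(1 / 2) : ℝ) :=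
              mul_le_mul (by linarith) e2 (Real.exp_pos _).le (by positivity)
          _ = _ := by ring
      linarith
    -- second part
    have p2 : ‖(q : ℂ)⁻¹ * DD (h ev) (-Real.log q) (FF a) u‖ ≤ η / 8 := by
      rw [norm_mul, norm_inv, Complex.norm_natCast]
      have r1 := mul_le_mul_of_nonneg_left hb2 (by positivity : (0:ℝ) ≤ (q : ℝ)⁻¹)
      refine r1.trans ?_
      have r2 : (q : ℝ)⁻¹ * Real.exp (- -Real.log q / 2) = (q : ℝ) ^ (-(1 / 2) : ℝ) := by
        rw [Real.rpow_def_of_pos hq0, neg_neg, ← Real.exp_log (inv_pos.2 hq0), Real.log_inv, ← Real.exp_add]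
        congr 1
        ring
      rw [← mul_assoc, r2]
      have r3 : (‖A₀ ev‖ + ‖A₁ ev‖) * (1 - -Real.log q) * (1 - -Real.log q + ‖GG χ (1 / 2)‖) ≤
          K * ((1 + Real.log q) * (1 + Real.log q)) + K * ((Real.log q + 1) * ‖GG χ (1 / 2)‖) := by
        have r4 : (‖A₀ ev‖ + ‖A₁ ev‖) * (1 - -Real.log q) * (1 - -Real.log q + ‖GG χ (1 / 2)‖) =
          (‖A₀ ev‖ + ‖A₁ ev‖) * ((1 + Real.log q) * (1 + Real.log q) + (Real.log q + 1) * ‖GG χ (1 / 2)‖) := by ring
        rw [r4]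
        have r5 := mul_le_mul_of_nonneg_right (show ‖A₀ ev‖ + ‖A₁ ev‖ ≤ K by linarith)
          (by positivity : 0 ≤ (1 + Real.log q) * (1 + Real.log q) + (Real.log q + 1) * ‖GG χ (1 / 2)‖)
        linarith
      have r6 : ‖A₀ ev‖ * ‖deriv (GG χ) (1 / 2)‖ ≤ K * ‖deriv (GG χ) (1 / 2)‖ :=
        mul_le_mul_of_nonneg_right (by linarith) g1
      have r7 : (‖A₀ ev‖ + ‖A₁ ev‖) * (1 - -Real.log q) * (1 - -Real.log q + ‖GG χ (1 / 2)‖) +
          ‖A₀ ev‖ * ‖deriv (GG χ) (1 / 2)‖ + 4 * c ev ≤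
          K * ((1 + Real.log q) * (1 + Real.log q)) + K * ((Real.log q + 1) * ‖GG χ (1 / 2)‖) +
            K * ‖deriv (GG χ) (1 / 2)‖ + 4 * K := by linarith
      refine (mul_le_mul_of_nonneg_left r7 hqh.le).trans ?_
      have r8 : (q : ℝ) ^ (-(1 / 2) : ℝ) * (K * ((1 + Real.log q) * (1 + Real.log q)) +
          K * ((Real.log q + 1) * ‖GG χ (1 / 2)‖) + K * ‖deriv (GG χ) (1 / 2)‖ + 4 * K) =
          K * ((1 + Real.log q) * (1 + Real.log q) * (q : ℝ) ^ (-(1 / 2) : ℝ)) +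
            K * ((Real.log q + 1) * ((q : ℝ) ^ (-(1 / 2) : ℝ) * ‖GG χ (1 / 2)‖)) +
            K * ((q : ℝ) ^ (-(1 / 2) : ℝ) * ‖deriv (GG χ) (1 / 2)‖) + 4 * (K * (q : ℝ) ^ (-(1 / 2) : ℝ)) := by ring
      rw [r8]
      linarith
    exact (norm_sub_le _ _).trans (by linarith)
  have hDLc : Continuous DL := hDc.sub (continuous_const.mul hEc)
  have hDL0 : Tendsto DL atTop (𝓝 0) := by
    have := hDt.sub (hEt.const_mul (q : ℂ)⁻¹)
    rwa [mul_zero, sub_zero] at this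
  -- the denominator
  set f : ℂ → ℂ := fun z => z * LFunction χ (1 / 2 + z) with hf
  have hLd : Differentiable ℂ (fun z : ℂ => LFunction χ (1 / 2 + z)) :=
    (differentiable_LFunction hyp.dat.dat.ne).comp (differentiable_id.const_add _)
  have hfd : Differentiable ℂ f := differentiable_id.mul hLd
  have hfin : ∀ T : ℝ, {γ : ℝ | |γ| ≤ T ∧ f (Complex.I * γ) = 0}.Finite := by
    intro T
    refine (Set.Finite.union (Set.finite_singleton (0 : ℝ)) (Pool.Agent.H62.zeros_finite hyp.dat.dat.ne T)).subset ?_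
    intro γ hγ
    rcases mul_eq_zero.1 hγ.2 with h5 | h5
    · left
      rcases mul_eq_zero.1 h5 with h6 | h6
      · exact absurd h6 Complex.I_ne_zero
      · exact_mod_cast h6
    · right
      exact ⟨hγ.1, h5⟩
  have hfs : ∀ γ : ℝ, f (Complex.I * γ) = 0 → deriv f (Complex.I * γ) ≠ 0 := by
    intro γ hγ
    have hder : deriv f (Complex.I * γ) = 1 * LFunction χ (1 / 2 + Complex.I * γ) +
        Complex.I * γ * deriv (fun z : ℂ => LFunction χ (1 / 2 + z)) (Complex.I * γ) := by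
      exact ((hasDerivAt_id _).mul (hLd _).hasDerivAt).deriv
    rw [hder]
    rcases eq_or_ne γ 0 with h5 | h5
    · subst h5
      simpa using hhalf
    · have hne : Complex.I * (γ : ℂ) ≠ 0 := mul_ne_zero Complex.I_ne_zero (by exact_mod_cast h5)
      have h6 : LFunction χ (1 / 2 + Complex.I * γ) = 0 := by
        rcases mul_eq_zero.1 hγ with h7 | h7
        · exact absurd h7 hne
        · exact h7
      rw [h6, mul_zero, zero_add]
      exact mul_ne_zero hne (hsimple γ h6)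
  have hEEd : Differentiable ℂ (EE q) := by
    unfold EE
    have h5 := differentiable_LFunctionTrivChar₁ q
    have h6 : Differentiable ℂ fun z : ℂ => LFunctionTrivChar₁ q (1 + 2 * z) := h5.comp (by fun_prop)
    exact h6.div_const 2
  -- the general lemma
  have hgl := gl2 hfd hfin hfs
    (N := fun z => (σ : ℂ) * (Complex.exp ((d : ℂ) ^ 2 * z ^ 2 / 2) * EE q z / (1 / 2 + z)))
    (b := fun u => (σ : ℂ) * (bb d (FF l) u : ℂ)) (D := fun u => -((σ : ℂ) * ε) * DL u)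
    (β := C + η / 4) ?_ ?_ ?_ ?_ ?_ ?_ ?_ ?_ ?_ ?_ ?_ ?_ (Real.log (n + 1 / 2))
  · have hn1 : (1 : ℝ) ≤ n := by exact_mod_cast hn
    have hl : 0 ≤ Real.log ((n : ℝ) + 1 / 2) := Real.log_nonneg (by linarith)
    have hp : (0 : ℝ) < n + 1 / 2 := by linarith
    have e1 := hbe l (fun m => by
      have h5 : ‖(l m : ℂ)‖ ≤ 1 := by
        rw [hyp.dat.eql m, norm_mul]
        refine mul_le_one₀ (DirichletCharacter.norm_le_one χ _) (norm_nonneg _) ?_
        rw [Complex.norm_intCast]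
        unfold lam
        push_cast
        rw [abs_pow, abs_neg, abs_one, one_pow]
      rwa [Complex.norm_real, Real.norm_eq_abs] at h5) n hn hnX
    have e2 := hDb' _ hl
    have e3 : (-((σ : ℂ) * ε) * DL (Real.log (n + 1 / 2))).re ≥ -(η / 2) := by
      have e4 := (abs_le.1 (Complex.abs_re_le_norm (-((σ : ℂ) * ε) * DL (Real.log (n + 1 / 2))))).1
      rw [norm_mul, norm_neg, norm_mul, hσc, hε, one_mul, one_mul] at e4
      linarith
    have e5 : ((σ : ℂ) * (bb d (FF l) (Real.log (n + 1 / 2)) : ℂ)).re = σ * bb d (FF l) (Real.log (n + 1 / 2)) := by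
      rw [Complex.re_ofReal_mul, Complex.ofReal_re]
    simp only [Complex.add_re] at hgl
    rw [e5] at hgl
    have e6 : σ * FF l (Real.log (n + 1 / 2)) ≤ σ * bb d (FF l) (Real.log (n + 1 / 2)) + η / 4 := by
      have e7 : |σ * (bb d (FF l) (Real.log (n + 1 / 2)) - FF l (Real.log (n + 1 / 2)))| ≤ η / 4 := by
        rw [abs_mul, hσ, one_mul]
        exact e1
      have := (abs_le.1 e7).1
      linarith
    have e8 : σ * FF l (Real.log (n + 1 / 2)) ≤ C + η := by linarith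
    rw [← FF_at l n hn, ← mul_assoc]
    exact mul_le_mul_of_nonneg_right e8 (Real.sqrt_nonneg _)
  · intro z hz
    have hne : (1 / 2 + z : ℂ) ≠ 0 := by
      intro h5
      have := congrArg Complex.re h5
      rw [Complex.add_re, Complex.zero_re] at this
      norm_num at this
      rw [abs_lt] at hz
      linarith
    have h5 : DifferentiableAt ℂ (fun z : ℂ => Complex.exp ((d : ℂ) ^ 2 * z ^ 2 / 2) * EE q z) z :=
      (by fun_prop : DifferentiableAt ℂ (fun z : ℂ => Complex.exp ((d : ℂ) ^ 2 * z ^ 2 / 2)) z).mul (hEEd z)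
    exact (h5.div (by fun_prop) hne).const_mul _
  · have h5 := hEEd.continuous.measurable
    fun_prop
  · fun_prop
  · exact continuous_const.mul hDLc
  · have hb2 : Integrable (fun u : ℝ => bb d (FF l) u * ((1 + u ^ 2) ^ 2)⁻¹) := by
      have hc1 : Continuous fun u : ℝ => ((1 + u ^ 2)⁻¹ : ℝ) := Continuous.inv₀ (by fun_prop) fun u => by positivity
      refine (hbi.mul_bdd (c := 1) hc1.aestronglyMeasurable (ae_of_all _ fun u => ?_)).congr (ae_of_all _ fun u => ?_)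
      · rw [Real.norm_eq_abs, abs_of_nonneg (by positivity)]
        apply inv_le_one_of_one_le₀
        nlinarith [sq_nonneg u]
      · simp only
        rw [sq (1 + u ^ 2), mul_inv, mul_assoc]
    have h5 : Integrable (fun u : ℝ => ((bb d (FF l) u * ((1 + u ^ 2) ^ 2)⁻¹ : ℝ) : ℂ)) := hb2.ofReal
    refine (h5.const_mul (σ : ℂ)).congr (ae_of_all _ fun u => ?_)
    simp only
    push_cast
    ring
  · refine ((hDi.sub (hEi.const_mul (q : ℂ)⁻¹)).const_mul (-((σ : ℂ) * ε))).congr (ae_of_all _ fun u => ?_)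
    simp only [hDL', Pi.sub_apply]
    ring
  · intro δ hδ _
    have h5 : Integrable (fun u : ℝ => ((Real.exp (-(δ * u)) * bb d (FF l) u : ℝ) : ℂ)) := (hbx δ hδ).ofReal
    refine (h5.const_mul (σ : ℂ)).congr (ae_of_all _ fun u => ?_)
    simp only
    push_cast
    rw [show -(δ : ℂ) * u = -(δ * u) by ring]
    ring
  · intro δ hδ hδ2
    refine (((hDe δ hδ hδ2).sub ((hEe δ hδ hδ2).const_mul (q : ℂ)⁻¹)).const_mul (-((σ : ℂ) * ε))).congr
      (ae_of_all _ fun u => ?_)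
    simp only [hDL', Pi.sub_apply]
    ring
  · intro z hz _
    have e1 : (fun t : ℝ => Complex.exp (-z * t) * ((σ : ℂ) * (bb d (FF l) t : ℂ))) =
        fun t : ℝ => (σ : ℂ) * (Complex.exp (-z * t) * (bb d (FF l) t : ℂ)) := by
      ext t
      ring
    rw [e1, integral_const_mul, hbL z hz, (hLl z hz).2]
    have e9 : ZZ χ z = EE q z * (z⁻¹ * ((1 / 2 + z)⁻¹ * (LFunction χ (1 / 2 + z))⁻¹)) := by
      unfold ZZ
      rw [div_eq_mul_inv, mul_inv, mul_inv]
    simp only [hf]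
    rw [e9, div_eq_mul_inv _ (z * _), mul_inv]
    ring
  · intro z hz1 hz2
    have hz3 : |z.re| < 1 / 4 := by rw [abs_lt]; constructor <;> linarith
    have hz0 : z ≠ 0 := by
      rintro rfl
      simp at hz2
    have i1 := hDe (-z.re) (by linarith) (by linarith)
    have hI1' : Integrable (fun t : ℝ => Complex.exp (-z * t) * DD (h ev) (Real.log q) (FF a) t) := by
      refine i1.norm.mono' ?_ (ae_of_all _ fun t => ?_)
      · exact Continuous.aestronglyMeasurable (by fun_prop)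
      · rw [norm_mul, norm_mul, Complex.norm_exp, Complex.norm_exp]
        refine le_of_eq ?_
        congr 2
        simp
    have i2 := hEe (-z.re) (by linarith) (by linarith)
    have hI2' : Integrable (fun t : ℝ => Complex.exp (-z * t) * DD (h ev) (-Real.log q) (FF a) t) := by
      refine i2.norm.mono' ?_ (ae_of_all _ fun t => ?_)
      · exact Continuous.aestronglyMeasurable (by fun_prop)
      · rw [norm_mul, norm_mul, Complex.norm_exp, Complex.norm_exp]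
        refine le_of_eq ?_
        congr 2
        simp
    have e1 : (fun t : ℝ => Complex.exp (-z * t) * (-((σ : ℂ) * ε) * DL t)) =
        fun t : ℝ => (-((σ : ℂ) * ε)) * (Complex.exp (-z * t) * DD (h ev) (Real.log q) (FF a) t -
          (q : ℂ)⁻¹ * (Complex.exp (-z * t) * DD (h ev) (-Real.log q) (FF a) t)) := by
      ext t
      simp only [hDL']
      ring
    have e2 : (∫ t : ℝ, Complex.exp (z * t) * (FF a t : ℂ)) = GG χ (-z) := by
      rw [← hL (-z) (by rw [Complex.neg_re]; linarith)]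
      congr 1
      ext t
      rw [neg_neg]
    rw [e1, integral_const_mul, integral_sub hI1' (hI2'.const_mul _), integral_const_mul, hDL z hz1 hz2, hEL z hz1 hz2,
      e2, h3 ev z hz1 hz2]
    have e3 := hfe d z (hz3.trans (by norm_num))
    have e4 := EE_prime q hqp z
    have e5 : Complex.exp (z * Real.log q) * Complex.exp (-(2 * z) * Real.log q) = Complex.exp (z * ((-Real.log q : ℝ) : ℂ)) := by
      rw [← Complex.exp_add]
      congr 1
      push_cast
      ring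
    have e6 : (σ : ℂ) * (Complex.exp ((d : ℂ) ^ 2 * z ^ 2 / 2) * EE q z / (1 / 2 + z)) / f z =
        (σ : ℂ) * EE q z / z * (Complex.exp ((d : ℂ) ^ 2 * z ^ 2 / 2) / (1 / 2 + z) / LFunction χ (1 / 2 + z)) := by
      simp only [hf]
      rw [div_eq_mul_inv _ (z * _), mul_inv]
      ring
    rw [e6, e3, e4, ← e5]
    unfold SZ
    ring
  · filter_upwards [hbl σ C (η / 4) (by positivity) hyp.bd] with u hu
    rw [Complex.re_ofReal_mul, Complex.ofReal_re]
    exact hu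
  · have := hDL0.const_mul (-((σ : ℂ) * ε))
    rwa [mul_zero] at this

end Pool.Agent.QT
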